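import Pool.Agent.Lib_helper20.SRO.Defs5
import Pool.Agent.Lib_helper45.SRO.E

/-!
Module E2 (adapted from helper45's module E): from a program to a five-phase system, without the
read-once assumption.
-/

namespace Pool.Agent.Lib_helper20.SRO

open Finset Pool.Agent.Lib_helper45.SRO

variable {N : Type} {n : ℕ} {G : NBP (Fin n) N} {f : (Fin n → Bool) → Bool}

theorem complete2 (hsound : ∀ b, G.Accepts b → f b = true) (hrig : Rigid f) {b : Fin n → Bool}
    {l : List (Fin n × Bool)} (hw : Walk G G.source G.sink l) (hb : Agrees b l) (x : Fin n) :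
    x ∈ vars l := by
  by_contra hx
  have h1 : f b = true := hsound b ⟨l, hw, hb⟩
  have h2 : f (flipAt b x) = true := hsound _ ⟨l, hw, agrees_flip hb hx⟩
  rw [hrig b x h1] at h2
  exact Bool.false_ne_true h2

theorem nodup_of_len {l : List (Fin n)} (hlen : l.length = n) (hall : ∀ x, x ∈ l) : l.Nodup := by
  have h1 : l.dedup.length = n := by
    have h2 : l.toFinset = univ := by
      ext x; simp only [List.mem_toFinset, mem_univ, iff_true]; exact hall x
    have h3 : l.toFinset.card = n := by rw [h2, card_univ, Fintype.card_fin]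
    rwa [List.card_toFinset] at h3
  have h4 : l.dedup = l := (List.dedup_sublist l).eq_of_length (by rw [h1, hlen])
  rw [← h4]
  exact List.nodup_dedup l

theorem tot_length {V : Type} (s : Fin 5 → List (V × Bool)) :
    (tot s).length = ∑ j, (s j).length := by
  rw [Fin.sum_univ_five]
  simp only [tot, List.length_append]
  omega

theorem spec2 (hsound : ∀ b, G.Accepts b → f b = true) (hrig : Rigid f)
    {t : Fin 4 → N} {w : Fin 5 → ℕ} (hw : ∑ j, w j = n) {b : Fin n → Bool}
    {s : Fin 5 → List (Fin n × Bool)}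
    (hs : Good G t w b s) : (∀ j, (vars (s j)).Nodup) ∧
      (∀ i j, ∀ x, x ∈ vars (s i) → x ∈ vars (s j) → i = j) ∧ ∀ x, ∃ j, x ∈ vars (s j) := by
  have hall := complete2 hsound hrig hs.walk hs.agrees
  have hlen : (vars (tot s)).length = n := by
    rw [vars, List.length_map, tot_length]
    exact (Finset.sum_congr rfl (fun j _ => hs.len j)).trans hw
  have h1 := nodup_tot (nodup_of_len hlen hall)
  refine ⟨h1.1, h1.2, fun x => ?_⟩
  have h2 := hall x
  obtain ⟨p, hp, hpx⟩ := List.mem_map.1 h2
  obtain ⟨j, hj⟩ := mem_tot.1 hp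
  exact ⟨j, List.mem_map.2 ⟨p, hj, hpx⟩⟩

theorem unique2 (hsound : ∀ b, G.Accepts b → f b = true) (hrig : Rigid f)
    {t : Fin 4 → N} {w : Fin 5 → ℕ} (hw : ∑ j, w j = n) {b : Fin n → Bool}
    {s s' : Fin 5 → List (Fin n × Bool)}
    (hs : Good G t w b s) (hs' : Good G t w b s') {i j : Fin 5} {x : Fin n}
    (hi : x ∈ vars (s i)) (hj : x ∈ vars (s' j)) : i = j := by
  by_contra hne
  have hg := Good.mix hs hs' (fun k => k = i) (h := b) (fun k _ => hs.agr k)
    (fun k _ => hs'.agr k)
  refine hne ((spec2 hsound hrig hw hg).2.1 i j x ?_ ?_)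
  · simpa using hi
  · simpa [Ne.symm hne] using hj

theorem lab_eq2 (hsound : ∀ b, G.Accepts b → f b = true) (hrig : Rigid f)
    {t : Fin 4 → N} {w : Fin 5 → ℕ} (hw : ∑ j, w j = n) {b : Fin n → Bool}
    {s : Fin 5 → List (Fin n × Bool)}
    (hs : Good G t w b s) (x : Fin n) (j : Fin 5) : lab G t w b x = j ↔ x ∈ vars (s j) := by
  have key : ∀ j, x ∈ vars (s j) → lab G t w b x = j := by
    intro j hj
    have hex : ∃ j, ∃ s, Good G t w b s ∧ x ∈ vars (s j) := ⟨j, s, hs, hj⟩
    rw [lab, dif_pos hex]
    obtain ⟨s', hs', hx'⟩ := hex.choose_spec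
    exact unique2 hsound hrig hw hs' hs hx' hj
  constructor
  · intro h
    obtain ⟨k, hk⟩ := (spec2 hsound hrig hw hs).2.2 x
    rw [← h, key k hk]
    exact hk
  · exact key j

theorem stmtE2 : StmtE2 := by
  classical
  intro n N _ G f w B hsound hrig hw hB
  -- the inputs that pass through the nodes `t`
  set P : (Fin 4 → N) → Finset (Fin n → Bool) :=
    fun t => univ.filter (fun b => ∃ s, Good G t w b s) with hP
  have hcover : B ⊆ univ.biUnion P := by
    intro b hb
    obtain ⟨l, hl, hbl, hnd⟩ := hB b hb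
    have hall : ∀ x, x ∈ vars l := complete2 hsound hrig hl hbl
    have hlen : l.length = n := by
      have h1 : (vars l).toFinset = univ := by
        ext x; simp only [List.mem_toFinset, mem_univ, iff_true]; exact hall x
      have h2 := List.toFinset_card_of_nodup hnd
      rw [h1, card_univ, Fintype.card_fin, List.length_map] at h2
      exact h2.symm
    obtain ⟨t, s, hg⟩ := split_five (w := w) hl hbl (by rw [hlen, hw])
    rw [mem_biUnion]
    exact ⟨t, mem_univ _, by rw [hP]; exact mem_filter.2 ⟨mem_univ _, s, hg⟩⟩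
  have : Nonempty N := ⟨G.source⟩
  obtain ⟨t, ht⟩ := Finite.exists_max (fun t => (P t).card)
  refine ⟨P t, lab G t w, ⟨?_, ?_⟩, ?_, ?_⟩
  · intro b hb j
    obtain ⟨s, hs⟩ := (mem_filter.1 hb).2
    have h1 : univ.filter (fun x => lab G t w b x = j) = (vars (s j)).toFinset := by
      ext x
      rw [mem_filter, List.mem_toFinset, lab_eq2 hsound hrig hw hs]
      simp
    rw [h1, List.toFinset_card_of_nodup ((spec2 hsound hrig hw hs).1 j), List.length_map,
      hs.len]
  · intro b hb b' hb' A hA
    obtain ⟨s, hs⟩ := (mem_filter.1 hb).2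
    obtain ⟨s', hs'⟩ := (mem_filter.1 hb').2
    have L1 := lab_eq2 hsound hrig hw hs
    have L2 := lab_eq2 hsound hrig hw hs'
    set h : Fin n → Bool := fun x => if lab G t w b x ∈ A then b x else b' x with hh
    have hg : Good G t w h (fun j => if j ∈ A then s j else s' j) := by
      refine Good.mix hs hs' (fun j => j ∈ A) ?_ ?_
      · intro j hj p hp
        have h1 : lab G t w b p.1 = j := (L1 p.1 j).2 (List.mem_map_of_mem hp)
        rw [hh]
        simp only
        rw [h1, if_pos hj]
        exact hs.agr j p hp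
      · intro j hj p hp
        have h1 : lab G t w b' p.1 = j := (L2 p.1 j).2 (List.mem_map_of_mem hp)
        have h2 : b' p.1 = p.2 := hs'.agr j p hp
        rw [hh]
        simp only
        by_cases h3 : lab G t w b p.1 ∈ A
        · rw [if_pos h3, hA p.1 h3 (by rw [h1]; exact hj)]
          exact h2
        · rw [if_neg h3]
          exact h2
    have L3 := lab_eq2 hsound hrig hw hg
    have sp := spec2 hsound hrig hw hg
    have iff1 : ∀ x, lab G t w b x ∈ A ↔ lab G t w b' x ∈ A := by
      intro x
      constructor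
      · intro h1
        by_contra h2
        have h3 : x ∈ vars (s (lab G t w b x)) := (L1 x _).1 rfl
        have h4 : x ∈ vars (s' (lab G t w b' x)) := (L2 x _).1 rfl
        have h5 := sp.2.1 (lab G t w b x) (lab G t w b' x) x (by simpa [h1] using h3)
          (by simpa [h2] using h4)
        rw [← h5] at h2
        exact h2 h1
      · intro h1
        by_contra h2
        obtain ⟨k, hk⟩ := sp.2.2 x
        by_cases hkA : k ∈ A
        · have h3 : x ∈ vars (s k) := by simpa [hkA] using hk
          rw [(L1 x k).2 h3] at h2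
          exact h2 hkA
        · have h3 : x ∈ vars (s' k) := by simpa [hkA] using hk
          rw [(L2 x k).2 h3] at h1
          exact hkA h1
    refine ⟨iff1, ?_, ?_⟩
    · rw [hP]
      exact mem_filter.2 ⟨mem_univ _, _, hg⟩
    · intro x
      by_cases h1 : lab G t w b x ∈ A
      · rw [if_pos h1, L3]
        have h3 : x ∈ vars (s (lab G t w b x)) := (L1 x _).1 rfl
        simpa [h1] using h3
      · rw [if_neg h1, L3]
        have h2 : lab G t w b' x ∉ A := fun h => h1 ((iff1 x).2 h)
        have h3 : x ∈ vars (s' (lab G t w b' x)) := (L2 x _).1 rfl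
        simpa [h2] using h3
  · intro b hb
    obtain ⟨s, hs⟩ := (mem_filter.1 hb).2
    exact hsound b ⟨_, hs.walk, hs.agrees⟩
  · calc B.card
        ≤ (univ.biUnion P).card := card_le_card hcover
      _ ≤ ∑ t' : Fin 4 → N, (P t').card := card_biUnion_le
      _ ≤ ∑ _t' : Fin 4 → N, (P t).card := sum_le_sum (fun t' _ => ht t')
      _ = (Fintype.card N) ^ 4 * (P t).card := by
          rw [sum_const, smul_eq_mul, card_univ, Fintype.card_fun, Fintype.card_fin]

end Pool.Agent.Lib_helper20.SRO
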