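import Pool.Agent.Lib_helper20.SRO.Defs5

/-!
Fixing all variables outside the range of an injection.
-/

namespace Pool.Agent.Lib_helper20.SRO

open Finset

variable {V N : Type} {k : ℕ}

open Classical in
/-- the assignment `b` on the range of `ι`, `a` elsewhere -/
noncomputable def ext (ι : Fin k → V) (a : V → Bool) (b : Fin k → Bool) : V → Bool := fun y =>
  if h : ∃ x, ι x = y then b h.choose else a y

lemma ext_apply {ι : Fin k → V} (hι : Function.Injective ι) (a : V → Bool) (b : Fin k → Bool)
    (x : Fin k) : ext ι a b (ι x) = b x := by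
  have h : ∃ x', ι x' = ι x := ⟨x, rfl⟩
  rw [ext, dif_pos h]
  congr 1
  exact hι h.choose_spec

lemma ext_of_not {ι : Fin k → V} (a : V → Bool) (b : Fin k → Bool) {y : V}
    (hy : ∀ x, ι x ≠ y) : ext ι a b y = a y := by
  rw [ext, dif_neg]
  rintro ⟨x, hx⟩
  exact hy x hx

/-- the program with the variables outside the range of `ι` fixed -/
def fixI (G : NBP V N) (ι : Fin k → V) (a : V → Bool) : NBP (Fin k) N where
  source := G.source
  sink := G.sink
  edge := fun u v t => match t with
    | none => G.edge u v none ∨ ∃ y : V, (∀ x, ι x ≠ y) ∧ G.edge u v (some (y, a y))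
    | some (x, c) => G.edge u v (some (ι x, c))

theorem walk_lift3 {G : NBP V N} {ι : Fin k → V} (hι : Function.Injective ι) {a : V → Bool}
    {u v : N} {l' : List (Fin k × Bool)} (h : Walk (fixI G ι a) u v l') :
    ∃ l, Walk G u v l ∧ ∀ b, Agrees b l' → Agrees (ext ι a b) l := by
  induction h with
  | nil u => exact ⟨[], Walk.nil u, fun _ _ p hp => by simp at hp⟩
  | free he _ ih =>
    obtain ⟨l, hl, hp⟩ := ih
    rcases he with he | ⟨y, hy, he⟩
    · exact ⟨l, Walk.free he hl, hp⟩
    · refine ⟨(y, a y) :: l, Walk.test _ _ he hl, ?_⟩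
      intro b hb p hp'
      rcases List.mem_cons.1 hp' with h' | h'
      · rw [h']
        exact ext_of_not a b hy
      · exact hp b hb p h'
  | test x c he _ ih =>
    obtain ⟨l, hl, hp⟩ := ih
    refine ⟨(ι x, c) :: l, Walk.test _ _ he hl, ?_⟩
    intro b hb p hp'
    rcases List.mem_cons.1 hp' with h' | h'
    · rw [h']
      simp only
      rw [ext_apply hι]
      exact hb (x, c) List.mem_cons_self
    · exact hp b (fun q hq => hb q (List.mem_cons_of_mem _ hq)) p h'

theorem walk_fix3 [DecidableEq V] {G : NBP V N} {ι : Fin k → V} (hι : Function.Injective ι)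
    {a : V → Bool} {u v : N} {l : List (V × Bool)} (h : Walk G u v l) :
    (∀ p ∈ l, (∀ x, ι x ≠ p.1) → p.2 = a p.1) →
    ∃ l', Walk (fixI G ι a) u v l' ∧ (∀ b, Agrees (ext ι a b) l → Agrees b l') ∧
      ∀ x, (l'.map Prod.fst).count x = (l.map Prod.fst).count (ι x) := by
  induction h with
  | nil u =>
    intro _
    exact ⟨[], Walk.nil u, fun _ _ p hp => by simp at hp, fun x => by simp⟩
  | free he _ ih =>
    intro h
    obtain ⟨l', hl', h1, h2⟩ := ih h
    exact ⟨l', Walk.free (Or.inl he) hl', h1, h2⟩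
  | test y c he _ ih =>
    intro h
    obtain ⟨l', hl', h1, h2⟩ := ih (fun p hp => h p (List.mem_cons_of_mem _ hp))
    by_cases hy : ∃ x, ι x = y
    · obtain ⟨x, rfl⟩ := hy
      refine ⟨(x, c) :: l', Walk.test x c he hl', ?_, ?_⟩
      · intro b hb p hp
        rcases List.mem_cons.1 hp with h' | h'
        · rw [h']
          simp only
          rw [← ext_apply hι a b x]
          exact hb (ι x, c) List.mem_cons_self
        · exact h1 b (fun q hq => hb q (List.mem_cons_of_mem _ hq)) p h'
      · intro z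
        rw [List.map_cons, List.map_cons, List.count_cons, List.count_cons, h2]
        simp only [beq_iff_eq, hι.eq_iff]
    · have hy' : ∀ x, ι x ≠ y := fun x hx => hy ⟨x, hx⟩
      have hc : c = a y := h (y, c) List.mem_cons_self hy'
      subst hc
      refine ⟨l', Walk.free (Or.inr ⟨y, hy', he⟩) hl', ?_, ?_⟩
      · intro b hb
        exact h1 b (fun q hq => hb q (List.mem_cons_of_mem _ hq))
      · intro z
        rw [List.map_cons, List.count_cons, h2]
        simp [(hy' z).symm]

theorem fixI_accepts {G : NBP V N} {ι : Fin k → V} (hι : Function.Injective ι) (a : V → Bool)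
    (b : Fin k → Bool) : (fixI G ι a).Accepts b ↔ G.Accepts (ext ι a b) := by
  classical
  constructor
  · rintro ⟨l', hl', hb⟩
    obtain ⟨l, hl, hp⟩ := walk_lift3 hι hl'
    exact ⟨l, hl, hp b hb⟩
  · rintro ⟨l, hl, hb⟩
    obtain ⟨l', hl', h1, _⟩ := walk_fix3 hι (a := a) hl (by
      intro p hp hx
      rw [← hb p hp, ext_of_not a b hx])
    exact ⟨l', hl', h1 b hb⟩

theorem fixI_computes {G : NBP V N} {ι : Fin k → V} (hι : Function.Injective ι) (a : V → Bool)
    {F : (V → Bool) → Bool} (hF : G.Computes F) :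
    (fixI G ι a).Computes (fun b => F (ext ι a b)) := by
  intro b
  rw [fixI_accepts hι, hF]

theorem fixI_few [Fintype V] [DecidableEq V] {G : NBP V N} {ι : Fin k → V}
    (hι : Function.Injective ι) (a : V → Bool) {r : ℕ} (hG : G.FewRereads r) :
    (fixI G ι a).FewRereads r := by
  intro b hb
  rw [fixI_accepts hι] at hb
  obtain ⟨l, hl, hbl, hr⟩ := hG _ hb
  obtain ⟨l', hl', h1, h2⟩ := walk_fix3 hι (a := a) hl (by
      intro p hp hx
      rw [← hbl p hp, ext_of_not a b hx])
  refine ⟨l', hl', h1 b hbl, le_trans ?_ hr⟩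
  apply Finset.card_le_card_of_injOn ι
  · intro x hx
    rw [Finset.mem_coe, mem_filter] at hx ⊢
    refine ⟨mem_univ _, ?_⟩
    rw [← h2 x]
    exact hx.2
  · intro x _ y _ h
    exact hι h

end Pool.Agent.Lib_helper20.SRO
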