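import Pool.Agent.Lib_helper20.SRO.Info
import Pool.Agent.Lib_helper20.SRO.R3

namespace Pool.Agent.Lib_helper20.SRO

open Finset

/-- The core of the lower bound, with the numerical conditions as hypotheses. -/
theorem core3_aux (hE : StmtE2) (hC : StmtC) (hD : StmtD) {c y s : ℝ} (hc : 0 < c) (hy0 : 0 < y)
    (hy : y ≤ 1 / 4) (hs : 0 < s) (n : ℕ)
    (hN1 : 32 * Real.exp (6 * c * n * Real.log 2 - n * y ^ 2 / 5) ≤ 1 / 4)
    (hN2 : 6 * (Real.log 2 * ((y * n + 4) + 2 * y * n) + 3 * (5 * c * n * Real.log 2) / y +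
      5 * c * n * Real.log 2 + 4 * (c * n * Real.log 2) +
      32 * Real.exp (6 * c * n * Real.log 2 - n * y ^ 2 / 5) * n * Real.log 2) / s ^ 2 +
      4 * s * n + (y * n + 4) ≤ n / 20)
    (hN3 : 4 * ((2 : ℝ) ^ (c * n)) ^ 4 * (Real.sqrt 2 * (9 / 8)) ^ n <
      2 ^ n * Real.exp (-(5 * c * n * Real.log 2)))
    (hN4 : y * n + 4 ≤ n * (1 - y) / 2)
    (N : Type) [Fintype N] (G : NBP (Fin n) N) (f : (Fin n → Bool) → Bool) (m : ℕ)
    (B : Finset (Fin n → Bool)) (hsound : ∀ b, G.Accepts b → f b = true) (hrig : Rigid f)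
    (hB : ∀ b ∈ B, ∃ l, Walk G G.source G.sink l ∧ Agrees b l ∧ (l.map Prod.fst).Nodup)
    (hm1 : 1 ≤ m) (hm : (m : ℝ) ≤ 2 ^ (c * n)) (hrf : RectFree f m)
    (hdense : (2 : ℝ) ^ n ≤ 2 ^ (c * n) * B.card) :
    (2 : ℝ) ^ (c * n) ≤ Fintype.card N := by
  classical
  by_contra hcon
  rw [not_le] at hcon
  have hn0 : (0 : ℝ) ≤ n := Nat.cast_nonneg n
  have hl2 : 0 < Real.log 2 := Real.log_pos (by norm_num)
  set d : ℝ := 5 * c * n * Real.log 2 with hd
  set ε : ℝ := 32 * Real.exp (6 * c * n * Real.log 2 - n * y ^ 2 / 5) with hε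
  -- the widths
  set w' : ℕ := ⌊(n : ℝ) * (1 - y) / 4⌋₊ with hw'
  have hfl : (w' : ℝ) ≤ n * (1 - y) / 4 := Nat.floor_le (by
    have : 0 ≤ 1 - y := by linarith
    positivity)
  have hfl2 : n * (1 - y) / 4 < (w' : ℝ) + 1 := Nat.lt_floor_add_one _
  have h4w : 4 * w' ≤ n := by
    have : (4 : ℝ) * w' ≤ n := by nlinarith
    exact_mod_cast this
  set w0 : ℕ := n - 4 * w' with hw0
  have hsumN : 4 * w' + w0 = n := by omega
  have hsumR : (4 : ℝ) * w' + w0 = n := by exact_mod_cast hsumN
  have hlow : y * n ≤ w0 := by linarith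
  have hup : (w0 : ℝ) ≤ y * n + 4 := by linarith
  set w : Fin 5 → ℕ := fun j => if j = 4 then w0 else w' with hwdef
  have hW : Widths n w w' w0 y :=
    ⟨fun i hi => by simp [hwdef, hi], by simp [hwdef], hsumN, hlow, hup.trans hN4⟩
  have hsumw : ∑ j, w j = n := by
    rw [Fin.sum_univ_five, hW.eq 0 (by decide), hW.eq 1 (by decide), hW.eq 2 (by decide),
      hW.eq 3 (by decide), hW.four]
    omega
  obtain ⟨P, L, hS, hPf, hcard⟩ := hE n N G f w B hsound hrig hsumw hB
  -- density of P
  have hcardR : (B.card : ℝ) ≤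
      (Fintype.card N : ℝ) ^ 4 * P.card := by exact_mod_cast hcard
  have h2c : (0 : ℝ) < 2 ^ (c * n) := Real.rpow_pos_of_pos (by norm_num) _
  have h1 : (2 : ℝ) ^ n ≤ 2 ^ (c * n) * ((Fintype.card N : ℝ) ^ 4 * P.card) :=
    hdense.trans (mul_le_mul_of_nonneg_left hcardR h2c.le)
  have h2n : (0 : ℝ) < 2 ^ n := by positivity
  have hPpos : 0 < P.card := by
    rcases Nat.eq_zero_or_pos P.card with h | h
    · rw [h] at h1
      simp only [Nat.cast_zero, mul_zero] at h1
      linarith
    · exact h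
  have hNpos : 0 < Fintype.card N := by
    rcases Nat.eq_zero_or_pos (Fintype.card N) with h | h
    · rw [h] at h1
      norm_num at h1
      linarith
    · exact h
  have hP : P.Nonempty := Finset.card_pos.1 hPpos
  have hp : (0 : ℝ) < P.card := by exact_mod_cast hPpos
  have hNp : (0 : ℝ) < Fintype.card N := by exact_mod_cast hNpos
  have hlogN : Real.log (Fintype.card N) ≤ c * n * Real.log 2 := by
    have := Real.log_le_log hNp hcon.le
    rwa [Real.log_rpow (by norm_num)] at this
  have h2 : n * Real.log 2 - d ≤ Real.log P.card := by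
    have h4 := Real.log_le_log (by positivity) h1
    rw [Real.log_pow, Real.log_mul h2c.ne' (by positivity), Real.log_mul (by positivity)
      hp.ne', Real.log_pow, Real.log_rpow (by norm_num)] at h4
    rw [hd]
    push_cast at h4
    linarith
  have hd0 : 0 ≤ d := by
    rw [hd]
    positivity
  have hexp : (2 : ℝ) ^ n * Real.exp (-d) ≤ P.card := by
    have e1 : (2 : ℝ) ^ n = Real.exp (n * Real.log 2) := by
      rw [Real.exp_nat_mul, Real.exp_log (by norm_num)]
    rw [e1, ← Real.exp_add, ← Real.exp_log hp]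
    apply Real.exp_le_exp.2
    linarith
  -- the exceptional set
  have hbad : ((Bad P L w m y).card : ℝ) ≤ ε * P.card := by
    have h3 := card_Bad hS hm1 hrf hPf hy0 (by linarith : y ≤ 1 / 2)
    refine h3.trans ?_
    have e3 : (2 : ℝ) ^ n ≤ Real.exp d * P.card := by
      have := mul_le_mul_of_nonneg_left hexp (Real.exp_pos d).le
      have e4 : Real.exp d * ((2 : ℝ) ^ n * Real.exp (-d)) = 2 ^ n := by
        rw [mul_comm ((2 : ℝ) ^ n), ← mul_assoc, ← Real.exp_add]
        simp
      linarith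
    have e5 : (2 : ℝ) ^ (c * n) = Real.exp (c * n * Real.log 2) := by
      rw [Real.rpow_def_of_pos (by norm_num)]
      congr 1
      ring
    have e6 : ε = 32 * (Real.exp (c * n * Real.log 2) * Real.exp d *
        Real.exp (-(n * y ^ 2 / 5))) := by
      rw [hε, ← Real.exp_add, ← Real.exp_add]
      congr 2
      rw [hd]
      ring
    calc 32 * ((m : ℝ) * (2 ^ n * Real.exp (-(n * y ^ 2 / 5))))
        ≤ 32 * (2 ^ (c * n) * ((Real.exp d * P.card) * Real.exp (-(n * y ^ 2 / 5)))) := by
          gcongr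
      _ = ε * P.card := by
          rw [e6, e5]
          ring
  -- the information bound
  set I : ℝ := Real.log 2 * ((y * n + 4) + 2 * y * n) + 3 * d / y + d +
      4 * (c * n * Real.log 2) + ε * n * Real.log 2 with hI
  have hlogm : Real.log m ≤ c * n * Real.log 2 := by
    have hmp : (0 : ℝ) < m := by exact_mod_cast hm1
    have := Real.log_le_log hmp hm
    rwa [Real.log_rpow (by norm_num)] at this
  have hinfo : ∀ i j : Fin 5, i ≠ j → i ≠ 4 → j ≠ 4 →
      ∑ x : Fin n, ∑ b ∈ P, alpha P L i x b * alpha P L j x b ≤ I * P.card := by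
    intro i j hij hi hj
    refine (hC n P L i j hij hP).trans ?_
    refine (info_le hS hP (m := m) hy0 hy hW hd0 h2 hbad hij hi hj).trans ?_
    apply mul_le_mul_of_nonneg_right _ hp.le
    rw [hI]
    have : Real.log 2 * (w0 + 2 * y * n) ≤ Real.log 2 * ((y * n + 4) + 2 * y * n) := by
      apply mul_le_mul_of_nonneg_left _ hl2.le
      linarith
    linarith
  have hlab : (∑ x : Fin n, ∑ b ∈ P, if L b x = 4 then (1 : ℝ) else 0) / P.card ≤ y * n + 4 := by
    rw [div_le_iff₀ hp, Finset.sum_comm]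
    calc ∑ b ∈ P, ∑ x : Fin n, (if L b x = 4 then (1 : ℝ) else 0) = ∑ b ∈ P, (w0 : ℝ) := by
          refine Finset.sum_congr rfl (fun b hb => ?_)
          rw [← Finset.sum_filter, Finset.sum_const, nsmul_eq_mul, mul_one, hS.card b hb 4, hW.four]
      _ = P.card * w0 := by rw [Finset.sum_const, nsmul_eq_mul]
      _ ≤ (y * n + 4) * P.card := by
          rw [mul_comm]
          exact mul_le_mul_of_nonneg_right hup hp.le
  obtain ⟨Q, hQP, hQ, himg⟩ := hD n P L I s hP hs hinfo (by linarith)
  -- counting Q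
  have hQ1 : (Q \ Bad P L w m y).card ≤ m ^ 4 * (Q.image L).card := by
    apply Finset.card_le_mul_card_image_of_maps_to (f := L)
    · intro b hb
      rw [mem_sdiff] at hb
      exact Finset.mem_image_of_mem _ hb.1
    · intro l _
      rcases (filter (fun b => L b = l) (Q \ Bad P L w m y)).eq_empty_or_nonempty with
        h | ⟨b0, hb0⟩
      · rw [h]; simp
      · rw [mem_filter, mem_sdiff] at hb0
        obtain ⟨⟨hb0Q, hb0B⟩, hb0L⟩ := hb0
        refine le_trans (Finset.card_le_card ?_)
          (same_card hS hW (i := 0) (j := 1) (by decide) (by decide) (by decide)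
            (hQP hb0Q) hb0B)
        intro b hb
        rw [mem_filter, mem_sdiff] at hb
        rw [mem_filter]
        have hLL : L b = L b0 := by rw [hb.2, hb0L]
        refine ⟨hQP hb.1.1, ?_, ?_⟩
        · simp [part, hLL]
        · simp [part, hLL]
  have hQ2 : (Q.card : ℝ) ≤ ε * P.card + ((2 : ℝ) ^ (c * n)) ^ 4 * (Real.sqrt 2 * (9 / 8)) ^ n := by
    have h5 : Q.card ≤ (Q \ Bad P L w m y).card + (Bad P L w m y).card := by
      have := Finset.card_le_card (Finset.subset_union_left (s₁ := Q) (s₂ := Bad P L w m y))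
      rw [← Finset.sdiff_union_self_eq_union] at this
      exact this.trans (Finset.card_union_le _ _)
    have h6 : (Q.card : ℝ) ≤ (m ^ 4 * (Q.image L).card : ℕ) + ((Bad P L w m y).card : ℝ) := by
      exact_mod_cast h5.trans (Nat.add_le_add_right hQ1 _)
    push_cast at h6
    have h7 : (m : ℝ) ^ 4 * ((Q.image L).card : ℝ) ≤
        ((2 : ℝ) ^ (c * n)) ^ 4 * (Real.sqrt 2 * (9 / 8)) ^ n := by
      apply mul_le_mul _ himg (by positivity) (by positivity)
      exact pow_le_pow_left₀ (Nat.cast_nonneg _) hm 4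
    linarith
  have h8 : ε * P.card ≤ 1 / 4 * P.card := mul_le_mul_of_nonneg_right hN1 hp.le
  linarith

lemma rigid_ext {n k : ℕ} {f : (Fin n → Bool) → Bool} (hf : Rigid f) {ι : Fin k → Fin n}
    (hι : Function.Injective ι) (a : Fin n → Bool) : Rigid (fun b => f (ext ι a b)) := by
  intro b x hb
  have : ext ι a (flipAt b x) = flipAt (ext ι a b) (ι x) := by
    funext y
    by_cases hy : ∃ z, ι z = y
    · obtain ⟨z, rfl⟩ := hy
      rw [ext_apply hι]
      by_cases hz : z = x
      · subst hz
        simp [flipAt, ext_apply hι]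
      · have hz' : ι z ≠ ι x := fun h => hz (hι h)
        simp only [flipAt]
        rw [Function.update_of_ne hz, Function.update_of_ne hz', ext_apply hι]
    · have hy' : ∀ z, ι z ≠ y := fun z hz => hy ⟨z, hz⟩
      rw [ext_of_not a _ hy']
      simp only [flipAt]
      rw [Function.update_of_ne (hy' x).symm, ext_of_not a _ hy']
  simp only
  rw [this]
  exact hf _ _ hb

lemma ext_inj {n k : ℕ} {ι : Fin k → Fin n} (hι : Function.Injective ι) (a : Fin n → Bool) :
    Function.Injective (ext ι a) := by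
  intro b b' h
  funext x
  rw [← ext_apply hι a b x, h, ext_apply hι]

lemma rectFree_ext {n k m : ℕ} {f : (Fin n → Bool) → Bool} (hf : RectFree f m)
    {ι : Fin k → Fin n} (hι : Function.Injective ι) (a : Fin n → Bool) :
    RectFree (fun b => f (ext ι a b)) m := by
  intro U X Y hX hY hXm hYm
  have hU : ∀ x, ι x ∈ U.image ι ↔ x ∈ U := fun x => by
    constructor
    · intro h
      obtain ⟨z, hz, hzx⟩ := Finset.mem_image.1 h
      rwa [← hι hzx]
    · intro h
      exact Finset.mem_image_of_mem _ h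
  obtain ⟨p, hp, q, hq, hpq⟩ := hf (U.image ι) (X.image (ext ι (fun _ => false)))
    (Y.image (ext ι a)) (by
      intro p hp y hy
      obtain ⟨p', hp', rfl⟩ := Finset.mem_image.1 hp
      by_cases hy' : ∃ z, ι z = y
      · obtain ⟨z, rfl⟩ := hy'
        rw [ext_apply hι]
        exact hX p' hp' z (fun h => hy ((hU z).2 h))
      · rw [ext_of_not _ _ (fun z hz => hy' ⟨z, hz⟩)]) (by
      intro p hp y hy
      obtain ⟨p', hp', rfl⟩ := Finset.mem_image.1 hp
      obtain ⟨z, hz, rfl⟩ := Finset.mem_image.1 hy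
      rw [ext_apply hι]
      exact hY p' hp' z hz)
    (by rwa [Finset.card_image_of_injective _ (ext_inj hι _)])
    (by rwa [Finset.card_image_of_injective _ (ext_inj hι _)])
  obtain ⟨p', hp', rfl⟩ := Finset.mem_image.1 hp
  obtain ⟨q', hq', rfl⟩ := Finset.mem_image.1 hq
  refine ⟨p', hp', q', hq', ?_⟩
  simp only
  rw [← hpq]
  congr 1
  funext y
  by_cases hy' : ∃ z, ι z = y
  · obtain ⟨z, rfl⟩ := hy'
    rw [ext_apply hι]
    simp only [hU, ext_apply hι]
  · have hy2 : ∀ z, ι z ≠ y := fun z hz => hy' ⟨z, hz⟩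
    have hy3 : y ∉ U.image ι := by
      intro h
      obtain ⟨z, _, hz⟩ := Finset.mem_image.1 h
      exact hy2 z hz
    rw [ext_of_not _ _ hy2, if_neg hy3, ext_of_not _ _ hy2]

/-- Choosing the reread variables and their values. -/
lemma choose_R {n r : ℕ} (hr : r ≤ n) {N : Type} {G : NBP (Fin n) N} {f : (Fin n → Bool) → Bool}
    (hG : G.FewRereads r) (hcomp : G.Computes f) :
    ∃ (R : Finset (Fin n)) (a : Fin n → Bool) (B : Finset (Fin n → Bool)), R.card = r ∧
      (∀ b ∈ B, (∀ x ∈ R, b x = a x) ∧ ∃ l, Walk G G.source G.sink l ∧ Agrees b l ∧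
        ∀ x, x ∉ R → (l.map Prod.fst).count x ≤ 1) ∧
      (univ.filter (fun b => f b = true)).card ≤ n.choose r * (2 ^ r * B.card) := by
  classical
  set B0 := univ.filter (fun b : Fin n → Bool => f b = true) with hB0
  let BR : Finset (Fin n) → Finset (Fin n → Bool) := fun R =>
    B0.filter (fun b => ∃ l, Walk G G.source G.sink l ∧ Agrees b l ∧
        ∀ x, x ∉ R → (l.map Prod.fst).count x ≤ 1)
  have hne : (powersetCard r (univ : Finset (Fin n))).Nonempty := by
    rw [Finset.powersetCard_nonempty]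
    simpa using hr
  obtain ⟨R, hR, hmax⟩ := Finset.exists_max_image (powersetCard r (univ : Finset (Fin n)))
    (fun R => (BR R).card) hne
  have hRcard : R.card = r := (Finset.mem_powersetCard.1 hR).2
  have h1 : B0.card ≤ n.choose r * (BR R).card := by
    have hcov : B0 ⊆ (powersetCard r (univ : Finset (Fin n))).biUnion BR := by
      intro b hb
      rw [hB0, mem_filter] at hb
      obtain ⟨l, hl, hbl, hcount⟩ := hG b ((hcomp b).2 hb.2)
      obtain ⟨R', hR', hR'c⟩ := Finset.exists_superset_card_eq hcount (by simpa using hr)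
      rw [mem_biUnion]
      refine ⟨R', Finset.mem_powersetCard.2 ⟨Finset.subset_univ _, hR'c⟩, ?_⟩
      rw [mem_filter]
      refine ⟨by rw [hB0, mem_filter]; exact hb, l, hl, hbl, ?_⟩
      intro x hx
      by_contra hcon
      apply hx
      apply hR'
      rw [mem_filter]
      exact ⟨mem_univ _, by omega⟩
    calc B0.card ≤ ((powersetCard r (univ : Finset (Fin n))).biUnion BR).card := card_le_card hcov
      _ ≤ ∑ R' ∈ powersetCard r (univ : Finset (Fin n)), (BR R').card := card_biUnion_le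
      _ ≤ ∑ _R' ∈ powersetCard r (univ : Finset (Fin n)), (BR R).card :=
          sum_le_sum (fun R' hR' => hmax R' hR')
      _ = n.choose r * (BR R).card := by
          rw [sum_const, smul_eq_mul, card_powersetCard, card_univ, Fintype.card_fin]
  let Ba : (R → Bool) → Finset (Fin n → Bool) := fun a =>
    (BR R).filter (fun b => ∀ x : R, b x = a x)
  obtain ⟨a, ha⟩ := Finite.exists_max (fun a => (Ba a).card)
  have h2 : (BR R).card ≤ 2 ^ r * (Ba a).card := by
    have hcov : BR R ⊆ (univ : Finset (R → Bool)).biUnion Ba := by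
      intro b hb
      rw [mem_biUnion]
      refine ⟨fun x => b x, mem_univ _, ?_⟩
      rw [mem_filter]
      exact ⟨hb, fun _ => rfl⟩
    calc (BR R).card ≤ ((univ : Finset (R → Bool)).biUnion Ba).card := card_le_card hcov
      _ ≤ ∑ a' : R → Bool, (Ba a').card := card_biUnion_le
      _ ≤ ∑ _a' : R → Bool, (Ba a).card := sum_le_sum (fun a' _ => ha a')
      _ = 2 ^ r * (Ba a).card := by
          rw [sum_const, smul_eq_mul, card_univ, Fintype.card_fun, Fintype.card_bool,
            Fintype.card_coe, hRcard]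
  refine ⟨R, fun x => if h : x ∈ R then a ⟨x, h⟩ else false, Ba a, hRcard, ?_, ?_⟩
  · intro b hb
    rw [mem_filter] at hb
    refine ⟨?_, (mem_filter.1 hb.1).2⟩
    intro x hx
    beta_reduce
    rw [dif_pos hx]
    exact hb.2 ⟨x, hx⟩
  · exact h1.trans (Nat.mul_le_mul_left _ h2)

/-- a bound for binomial coefficients -/
lemma choose_bound {n r : ℕ} {x : ℝ} (hx : 0 < x) :
    (n.choose r : ℝ) ≤ Real.exp (x * n) * (x⁻¹) ^ r := by
  have h1 : (n.choose r : ℝ) * x ^ r ≤ (x + 1) ^ n := by
    rcases le_or_gt r n with h | h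
    · rw [add_pow]
      have := Finset.single_le_sum (f := fun k => x ^ k * 1 ^ (n - k) * (n.choose k : ℝ))
        (s := range (n + 1)) (fun k _ => by positivity) (mem_range.2 (Nat.lt_succ_of_le h))
      simp only [one_pow, mul_one] at this
      calc (n.choose r : ℝ) * x ^ r = x ^ r * (n.choose r : ℝ) := mul_comm _ _
        _ ≤ _ := by simpa using this
    · rw [Nat.choose_eq_zero_of_lt h]
      simp only [Nat.cast_zero, zero_mul]
      positivity
  have h2 : (x + 1) ^ n ≤ Real.exp (x * n) := by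
    have := Real.add_one_le_exp x
    calc (x + 1) ^ n ≤ (Real.exp x) ^ n := pow_le_pow_left₀ (by positivity) this n
      _ = Real.exp (x * n) := by rw [mul_comm, Real.exp_nat_mul]
  have h3 : (n.choose r : ℝ) = ((n.choose r : ℝ) * x ^ r) * (x⁻¹) ^ r := by
    rw [mul_assoc, ← mul_pow, mul_inv_cancel₀ hx.ne', one_pow, mul_one]
  rw [h3]
  exact mul_le_mul_of_nonneg_right (h1.trans h2) (by positivity)

/-- The core of the lower bound. -/
theorem stmtCore3 (hE : StmtE2) (hC : StmtC) (hD : StmtD) (hN : StmtNum2) : StmtCore3 := by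
  classical
  obtain ⟨c, y, s, hc, hy0, hy, hs, n0, h⟩ := hN
  have hl2 : 0 < Real.log 2 := Real.log_pos (by norm_num)
  -- the constants
  set x : ℝ := min (c * Real.log 2 / 8) (1 / 2) with hx
  have hx0 : 0 < x := by
    rw [hx]
    exact lt_min (by positivity) (by norm_num)
  have hx1 : x ≤ c * Real.log 2 / 8 := min_le_left _ _
  have hx2 : x ≤ 1 / 2 := min_le_right _ _
  have hlx : 0 < Real.log x⁻¹ := by
    apply Real.log_pos
    rw [one_lt_inv₀ hx0]
    linarith
  set c3 : ℝ := min (min (c / 8) (1 / 4)) (c * Real.log 2 / 8 / Real.log x⁻¹) with hc3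
  have hc30 : 0 < c3 := by
    rw [hc3]
    exact lt_min (lt_min (by positivity) (by norm_num)) (by positivity)
  have h31 : c3 ≤ c / 8 := (min_le_left _ _).trans (min_le_left _ _)
  have h32 : c3 ≤ 1 / 4 := (min_le_left _ _).trans (min_le_right _ _)
  have h33 : c3 * Real.log x⁻¹ ≤ c * Real.log 2 / 8 := by
    have : c3 ≤ c * Real.log 2 / 8 / Real.log x⁻¹ := min_le_right _ _
    rwa [le_div_iff₀ hlx] at this
  refine ⟨c3, hc30, 2 * n0, ?_⟩
  intro n hn N _ G f m r hr hG hcomp hrig hm1 hm hrf hdense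
  have hnn : (0 : ℝ) ≤ n := Nat.cast_nonneg n
  have hrn : r ≤ n := by
    have : (r : ℝ) ≤ n := by nlinarith
    exact_mod_cast this
  obtain ⟨R, a, B, hRc, hB, hcount⟩ := choose_R hrn hG hcomp
  have hRcc : Rᶜ.card = n - r := by
    rw [Finset.card_compl, Fintype.card_fin, hRc]
  set k : ℕ := n - r with hk
  let ι : Fin k → Fin n := Rᶜ.orderEmbOfFin hRcc
  have hι : Function.Injective ι := (Rᶜ.orderEmbOfFin hRcc).injective
  have hιR : ∀ z, ι z ∉ R := by
    intro z
    have := Finset.orderEmbOfFin_mem Rᶜ hRcc z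
    rwa [Finset.mem_compl] at this
  have hιR' : ∀ y, y ∉ R → ∃ z, ι z = y := by
    intro y hy
    have h1 : y ∈ Set.range (Rᶜ.orderEmbOfFin hRcc) := by
      rw [Finset.range_orderEmbOfFin]
      simpa using hy
    exact h1
  have hext : ∀ b ∈ B, ext ι a (fun z => b (ι z)) = b := by
    intro b hb
    funext y
    by_cases hy : y ∈ R
    · have hy' : ∀ z, ι z ≠ y := by
        intro z hz
        apply hιR z
        rw [hz]
        exact hy
      rw [ext_of_not a _ hy', (hB b hb).1 y hy]
    · obtain ⟨z, rfl⟩ := hιR' y hy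
      rw [ext_apply hι]
  have hkr : (k : ℝ) = n - r := by
    rw [hk, Nat.cast_sub hrn]
  have hk2 : (n : ℝ) / 2 ≤ k := by
    rw [hkr]
    nlinarith
  have hkn0 : n0 ≤ k := by
    have h1 : (2 * n0 : ℝ) ≤ n := by exact_mod_cast hn
    have : (n0 : ℝ) ≤ k := by linarith
    exact_mod_cast this
  obtain ⟨g1, g2, g3, g4⟩ := h k hkn0
  have hcn : c3 * n ≤ c * k := by nlinarith
  have hmain := core3_aux hE hC hD hc hy0 hy hs k g1 g2 g3 g4 N (fixI G ι a)
    (fun b => f (ext ι a b)) m (B.image (fun b z => b (ι z)))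
    (fun b hb => ((fixI_computes hι a hcomp) b).1 hb) (rigid_ext hrig hι a) (by
      intro b' hb'
      obtain ⟨b, hb, rfl⟩ := Finset.mem_image.1 hb'
      obtain ⟨_, l, hl, hbl, hcl⟩ := hB b hb
      obtain ⟨l', hl', h1, h2⟩ := walk_fix3 hι (a := a) hl (by
        intro p hp hx
        have hpR : p.1 ∈ R := by
          by_contra hcon
          obtain ⟨z, hz⟩ := hιR' _ hcon
          exact hx z hz
        rw [← hbl p hp, (hB b hb).1 _ hpR])
      refine ⟨l', hl', h1 _ (by rw [hext b hb]; exact hbl), ?_⟩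
      rw [List.nodup_iff_count_le_one]
      intro z
      rw [h2 z]
      exact hcl _ (hιR z)) hm1
    (hm.trans (Real.rpow_le_rpow_of_exponent_le one_le_two hcn)) (rectFree_ext hrf hι a) (by
      have hinj : (B.image (fun b z => b (ι z))).card = B.card := by
        apply Finset.card_image_of_injOn
        intro b hb b' hb' he
        rw [← hext b hb, ← hext b' hb']
        simp only at he
        rw [he]
      rw [hinj]
      have h1 : (2 : ℝ) ^ n ≤ 2 ^ (c3 * n) * (n.choose r * (2 ^ r * B.card)) := by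
        refine hdense.trans (mul_le_mul_of_nonneg_left ?_ (Real.rpow_nonneg (by norm_num) _))
        exact_mod_cast hcount
      have h2 : (2 : ℝ) ^ n = 2 ^ k * 2 ^ r := by
        rw [← pow_add]
        congr 1
        omega
      have h3 : (2 : ℝ) ^ k ≤ (2 ^ (c3 * n) * n.choose r) * B.card := by
        have h4 : (0 : ℝ) < 2 ^ r := by positivity
        rw [h2] at h1
        have h5 : (2 : ℝ) ^ (c3 * n) * (n.choose r * (2 ^ r * B.card)) =
          ((2 ^ (c3 * n) * n.choose r) * B.card) * 2 ^ r := by ring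
        rw [h5] at h1
        exact le_of_mul_le_mul_right h1 h4
      refine h3.trans (mul_le_mul_of_nonneg_right ?_ (Nat.cast_nonneg _))
      -- 2^(c3 n) C(n,r) ≤ 2^(c k)
      have h6 := choose_bound (n := n) (r := r) hx0
      have h7 : Real.exp (x * n) * (x⁻¹) ^ r ≤ Real.exp (c * Real.log 2 / 4 * n) := by
        have e1 : (x⁻¹) ^ r = Real.exp (r * Real.log x⁻¹) := by
          rw [Real.exp_nat_mul, Real.exp_log (by positivity)]
        rw [e1, ← Real.exp_add]
        apply Real.exp_le_exp.2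
        have e2 : (r : ℝ) * Real.log x⁻¹ ≤ (c3 * n) * Real.log x⁻¹ :=
          mul_le_mul_of_nonneg_right hr hlx.le
        have e3 : (c3 * n) * Real.log x⁻¹ ≤ (c * Real.log 2 / 8) * n := by
          have := mul_le_mul_of_nonneg_right h33 hnn
          linarith
        have e4 : x * n ≤ (c * Real.log 2 / 8) * n := mul_le_mul_of_nonneg_right hx1 hnn
        linarith
      have h8 : (2 : ℝ) ^ (c3 * n) = Real.exp (c3 * n * Real.log 2) := by
        rw [Real.rpow_def_of_pos (by norm_num)]
        congr 1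
        ring
      have h9 : (2 : ℝ) ^ (c * k) = Real.exp (c * k * Real.log 2) := by
        rw [Real.rpow_def_of_pos (by norm_num)]
        congr 1
        ring
      calc (2 : ℝ) ^ (c3 * n) * (n.choose r : ℝ)
          ≤ Real.exp (c3 * n * Real.log 2) * Real.exp (c * Real.log 2 / 4 * n) := by
            rw [h8]
            exact mul_le_mul_of_nonneg_left (h6.trans h7) (Real.exp_pos _).le
        _ = Real.exp (c3 * n * Real.log 2 + c * Real.log 2 / 4 * n) := by rw [Real.exp_add]
        _ ≤ Real.exp (c * k * Real.log 2) := by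
            apply Real.exp_le_exp.2
            have e5 : c3 * n * Real.log 2 ≤ c / 8 * n * Real.log 2 := by gcongr
            have e6 : c * (n / 2) * Real.log 2 ≤ c * k * Real.log 2 := by gcongr
            have e7 : 0 ≤ c * n * Real.log 2 := by positivity
            linarith
        _ = 2 ^ (c * k) := by rw [h9])
  exact (Real.rpow_le_rpow_of_exponent_le one_le_two hcn).trans hmain

end Pool.Agent.Lib_helper20.SRO
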