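import Pool.Agent.Lib_helper20.SRO.Model

/-!
Semantic read-once nondeterministic branching programs: definitions and the interfaces of the modules.
-/

namespace Pool.Agent.Lib_helper20.SRO

open Finset

/-- Semantic read-once: on each consistent source-sink walk every variable is tested at most once. -/
def NBP.SemanticReadOnce {V N : Type} (G : NBP V N) : Prop :=
  ∀ l, Walk G G.source G.sink l → (∃ b, Agrees b l) → (l.map Prod.fst).Nodup

/-- flip one bit -/
def flipAt {V : Type} [DecidableEq V] (b : V → Bool) (x : V) : V → Bool :=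
  Function.update b x (!b x)

/-- no two accepted inputs at distance one -/
def Rigid {V : Type} [DecidableEq V] (f : (V → Bool) → Bool) : Prop :=
  ∀ b x, f b = true → f (flipAt b x) = false

/-- A five-phase system: `P` a set of inputs, `L b x` the phase in which `b` reads `x`. -/
structure Sys {n : ℕ} (P : Finset (Fin n → Bool)) (L : (Fin n → Bool) → Fin n → Fin 5)
    (w : Fin 5 → ℕ) : Prop where
  card : ∀ b ∈ P, ∀ j, (univ.filter (fun x => L b x = j)).card = w j
  mix : ∀ b ∈ P, ∀ b' ∈ P, ∀ A : Finset (Fin 5), (∀ x, L b x ∈ A → L b' x ∉ A → b x = b' x) →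
    (∀ x, L b x ∈ A ↔ L b' x ∈ A) ∧ (fun x => if L b x ∈ A then b x else b' x) ∈ P ∧
    ∀ x, L (fun x => if L b x ∈ A then b x else b' x) x = if L b x ∈ A then L b x else L b' x

/-- Module E. -/
def StmtE : Prop := ∀ (n : ℕ) (N : Type) [Fintype N] (G : NBP (Fin n) N)
    (f : (Fin n → Bool) → Bool) (w : Fin 5 → ℕ), G.SemanticReadOnce → G.Computes f → Rigid f →
    ∑ j, w j = n →
    ∃ (P : Finset (Fin n → Bool)) (L : (Fin n → Bool) → Fin n → Fin 5), Sys P L w ∧
      (∀ b ∈ P, f b = true) ∧
      (univ.filter (fun b => f b = true)).card ≤ (Fintype.card N) ^ 4 * P.card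

/-- `f` contains no combinatorial rectangle with both sides of size `m`, for any partition
`(U, complement of U)` of the variables. -/
def RectFree {n : ℕ} (f : (Fin n → Bool) → Bool) (m : ℕ) : Prop :=
  ∀ (U : Finset (Fin n)) (X Y : Finset (Fin n → Bool)),
    (∀ a ∈ X, ∀ x, x ∉ U → a x = false) → (∀ a ∈ Y, ∀ x, x ∈ U → a x = false) →
    m ≤ X.card → m ≤ Y.card → ∃ a ∈ X, ∃ a' ∈ Y, f (fun x => if x ∈ U then a x else a' x) = false

/-- The value of the binary number with digits `a`. -/
def binVal {r : ℕ} (a : Fin r → Bool) : ℕ := ∑ i, if a i then 2 ^ (i : ℕ) else 0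

/-- The value modulo `p` at the number `binVal b` of the polynomial with coefficients
`binVal (c i)`, `i < k`; the bit tells whether it is less than `p / 2`. -/
def polyBit {n k r : ℕ} (p : ℕ) (c : Fin k → Fin r → Bool) (b : Fin n → Bool) : Bool :=
  decide (2 * ((∑ i : Fin k, binVal (c i) * binVal b ^ (i : ℕ)) % p) < p)

/-- Module B: for a prime `p`, `2^n ≤ p < 2^(n+1)`, there are coefficients (of `n+1` bits) such
that both values of the bit give rectangle-free sets with `m = n + 2`. -/
def StmtB : Prop := ∀ (n p : ℕ), 20 ≤ n → p.Prime → 2 ^ n ≤ p → p < 2 ^ (n + 1) →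
    ∃ c : Fin ((n + 2) ^ 2) → Fin (n + 1) → Bool, ∀ e : Bool,
      RectFree (fun b : Fin n → Bool => decide (polyBit p c b = e)) (n + 2)

/-- Worlds: each coordinate is `none` (weight `1 - 2q`) or `some c` (weight `q`). -/
noncomputable def wt (q : ℝ) {n : ℕ} (ω : Fin n → Option Bool) : ℝ :=
  ∏ x, (if ω x = none then 1 - 2 * q else q)

def Comp {n : ℕ} (U : Finset (Fin n)) (b : Fin n → Bool) (ω : Fin n → Option Bool) : Prop :=
  ∀ x, (x ∈ U → ω x = some (b x)) ∧ (x ∉ U → ω x = none ∨ ω x = some (b x))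

open Classical in
/-- Module A. -/
def StmtA : Prop := ∀ (n : ℕ) (q θ : ℝ), 0 < q → q ≤ 1 / 2 → 0 < θ → θ ≤ 1 →
    (2 : ℝ) ^ (-θ) = 1 - q → ∀ (U : Finset (Fin n)) (K : Finset (Fin n → Bool)),
    q ^ U.card * (1 - q) ^ (n - U.card) * (K.card : ℝ) ^ θ ≤
      ∑ ω ∈ univ.filter (fun ω : Fin n → Option Bool => ∃ b ∈ K, Comp U b ω), wt q ω

/-- `Past L i x b b'`: the sets of coordinates `y < x` with label `i` are the same. -/
def Past {n : ℕ} (L : (Fin n → Bool) → Fin n → Fin 5) (i : Fin 5) (x : ℕ)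
    (b b' : Fin n → Bool) : Prop := ∀ y : Fin n, (y : ℕ) < x → (L b' y = i ↔ L b y = i)

open Classical in
/-- size of the class of `b` for the past of label `i` before `x` -/
noncomputable def NP {n : ℕ} (P : Finset (Fin n → Bool)) (L : (Fin n → Bool) → Fin n → Fin 5)
    (i : Fin 5) (x : ℕ) (b : Fin n → Bool) : ℝ := ((P.filter (fun b' => Past L i x b b')).card : ℝ)

open Classical in
/-- size of the class of `b` for the common past of the labels `i`, `j` before `x` -/
noncomputable def NP2 {n : ℕ} (P : Finset (Fin n → Bool)) (L : (Fin n → Bool) → Fin n → Fin 5)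
    (i j : Fin 5) (x : ℕ) (b : Fin n → Bool) : ℝ :=
  ((P.filter (fun b' => Past L i x b b' ∧ Past L j x b b')).card : ℝ)

open Classical in
/-- the probability of label `i` at `x` given its own past -/
noncomputable def alpha {n : ℕ} (P : Finset (Fin n → Bool)) (L : (Fin n → Bool) → Fin n → Fin 5)
    (i : Fin 5) (x : Fin n) (b : Fin n → Bool) : ℝ :=
  ((P.filter (fun b' => Past L i x b b' ∧ L b' x = i)).card : ℝ) / NP P L i x b

/-- Module C: chain rule for the mutual information of the label sets `i`, `j`. -/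
def StmtC : Prop := ∀ (n : ℕ) (P : Finset (Fin n → Bool)) (L : (Fin n → Bool) → Fin n → Fin 5)
    (i j : Fin 5), i ≠ j → P.Nonempty →
    ∑ x : Fin n, ∑ b ∈ P, alpha P L i x b * alpha P L j x b ≤
      ∑ b ∈ P, Real.log (NP2 P L i j n b * P.card / (NP P L i n b * NP P L j n b))

/-- Module D: if the labels 0,1,2,3 pairwise have small products of the `alpha`s, then few label
vectors occur: a set `Q` of at least half of the elements of `P` has few label vectors. -/
def StmtD : Prop := ∀ (n : ℕ) (P : Finset (Fin n → Bool)) (L : (Fin n → Bool) → Fin n → Fin 5)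
    (I s : ℝ), P.Nonempty → 0 < s →
    (∀ i j : Fin 5, i ≠ j → i ≠ 4 → j ≠ 4 →
      ∑ x : Fin n, ∑ b ∈ P, alpha P L i x b * alpha P L j x b ≤ I * P.card) →
    6 * I / s ^ 2 + 4 * s * n + (∑ x : Fin n, ∑ b ∈ P, if L b x = 4 then (1 : ℝ) else 0) / P.card
      ≤ (n : ℝ) / 20 →
    ∃ Q ⊆ P, (P.card : ℝ) ≤ 2 * Q.card ∧
      ((Q.image L).card : ℝ) ≤ (Real.sqrt 2 * (9 / 8)) ^ n

end Pool.Agent.Lib_helper20.SRO
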