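import Pool.Agent.Lib_helper20.SRO.Model

/-!
# The majority of quadratic equations, and the modes NP, coNP, PP

The further definitions used in the statement about NP, coNP and PP.
-/

namespace Pool.Agent.Lib_helper20.SRO

open Finset

/-- A deterministic oblivious read-once program with states `Q`: it reads the variables of a list
without repetitions, in this order. -/
structure Obl (V Q : Type) where
  order : List V
  nodup : order.Nodup
  init : Q
  step : Q → V → Bool → Q
  acc : Q → Bool

/-- the answer of the program -/
def Obl.out {V Q : Type} (A : Obl V Q) (v : V → Bool) : Bool :=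
  A.acc (A.order.foldl (fun q x => A.step q x (v x)) A.init)

/-- NP mode of a family of programs: for some witness `y` the program accepts. -/
def NPMode {V Q : Type} {Y : ℕ} (A : Fin Y → Obl V Q) (v : V → Bool) : Prop :=
  ∃ y, (A y).out v = true

/-- coNP mode: for all `y` the program accepts. -/
def CoNPMode {V Q : Type} {Y : ℕ} (A : Fin Y → Obl V Q) (v : V → Bool) : Prop :=
  ∀ y, (A y).out v = true

/-- PP mode: the program accepts for more than half of the random choices `y`. -/
def PPMode {V Q : Type} {Y : ℕ} (A : Fin Y → Obl V Q) (v : V → Bool) : Prop :=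
  Y < 2 * (univ.filter (fun y => (A y).out v = true)).card

/-- The input variables: coefficients of `2 tt n + 1` forms, prescribed values, the point. -/
abbrev Var3 (n : ℕ) : Type :=
  ((Fin (2 * tt n + 1) × Fin (kk n) × Bool × Fin n) ⊕ Fin (2 * tt n + 1)) ⊕ Fin n

/-- More than half of the `2 tt n + 1` quadratic equations hold at the point. -/
def majQ (n : ℕ) (v : Var3 n → Bool) : Bool :=
  decide (2 * tt n + 1 < 2 * (univ.filter (fun t : Fin (2 * tt n + 1) =>
    quad (fun l s i => v (Sum.inl (Sum.inl (t, l, s, i)))) (fun i => v (Sum.inr i)) =
      if v (Sum.inl (Sum.inr t)) then 1 else 0)).card)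

end Pool.Agent.Lib_helper20.SRO
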