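import Pool.Agent.Lib_helper20.SRO.Model3

/-!
Interfaces of the modules V1, V2.
-/

namespace Pool.Agent.Lib_helper20.SRO

/-- Module V1: the majority is in the PP mode. -/
def StmtV1 : Prop := ∀ n : ℕ, 16 ≤ n → ∃ (Q : Type) (_ : Fintype Q)
    (A : Fin (2 * tt n + 1) → Obl (Var3 n) Q), Fintype.card Q ≤ 2 * n ^ 2 ∧
      ∀ v, majQ n v = true ↔ PPMode A v

/-- Module V2: NP mode and coNP mode are contained in PP mode. -/
def StmtV2 : Prop := ∀ (V Q : Type) (Y : ℕ) (A : Fin Y → Obl V Q),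
    (∃ B : Fin (2 * Y + 1) → Obl V (Option Q), ∀ v, NPMode A v ↔ PPMode B v) ∧
    (∃ B : Fin (2 * Y + 1) → Obl V (Option Q), ∀ v, CoNPMode A v ↔ PPMode B v)

end Pool.Agent.Lib_helper20.SRO
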