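import Pool.Agent.Lib_helper20.SRO.Defs2

/-!
Semantic read-once branching programs: the numerical conditions of the core.
-/

namespace Pool.Agent.Lib_helper20.SRO

/-- loss of entropy -/
noncomputable def dd (c : ℝ) (n : ℕ) : ℝ := (2 + 4 * c * n) * Real.log 2

/-- fraction of exceptional inputs -/
noncomputable def ee (c y : ℝ) (n : ℕ) : ℝ := 32 * (n + 2) * Real.exp (dd c n - n * y ^ 2 / 5)

/-- Module Num: `c = 10^(-16)`, `y = 5 * 10^(-8)`, `s = 1/120` and a large `n0` will do. -/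
def StmtNum : Prop := ∃ c y s : ℝ, 0 < c ∧ 0 < y ∧ y ≤ 1 / 4 ∧ 0 < s ∧ ∃ n0 : ℕ, ∀ n : ℕ, n0 ≤ n →
    ee c y n ≤ 1 / 4 ∧
    6 * (Real.log 2 * ((y * n + 4) + 2 * y * n) + 3 * dd c n / y + dd c n + 4 * Real.log (n + 2) +
      ee c y n * n * Real.log 2) / s ^ 2 + 4 * s * n + (y * n + 4) ≤ n / 20 ∧
    4 * ((n : ℝ) + 2) ^ 4 * (Real.sqrt 2 * (9 / 8)) ^ n < 2 ^ n * Real.exp (-(dd c n)) ∧
    y * n + 4 ≤ n * (1 - y) / 2

end Pool.Agent.Lib_helper20.SRO
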