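import Pool.Agent.Lib_helper20.SRO.Info
import Pool.Agent.Lib_helper20.SRO.Defs3

namespace Pool.Agent.Lib_helper20.SRO

open Finset

/-- The core of the lower bound, with the numerical conditions as hypotheses. -/
theorem core_aux (hE : StmtE) (hC : StmtC) (hD : StmtD) {c y s : ℝ} (hc : 0 < c) (hy0 : 0 < y)
    (hy : y ≤ 1 / 4) (hs : 0 < s) (n : ℕ) (hN1 : ee c y n ≤ 1 / 4)
    (hN2 : 6 * (Real.log 2 * ((y * n + 4) + 2 * y * n) + 3 * dd c n / y + dd c n +
      4 * Real.log (n + 2) + ee c y n * n * Real.log 2) / s ^ 2 + 4 * s * n + (y * n + 4) ≤ n / 20)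
    (hN3 : 4 * ((n : ℝ) + 2) ^ 4 * (Real.sqrt 2 * (9 / 8)) ^ n < 2 ^ n * Real.exp (-(dd c n)))
    (hN4 : y * n + 4 ≤ n * (1 - y) / 2)
    (N : Type) [Fintype N] (G : NBP (Fin n) N) (f : (Fin n → Bool) → Bool)
    (hro : G.SemanticReadOnce) (hcomp : G.Computes f) (hrig : Rigid f) (hrf : RectFree f (n + 2))
    (hdense : 2 ^ n ≤ 4 * (univ.filter (fun b => f b = true)).card) :
    (2 : ℝ) ^ (c * n) ≤ Fintype.card N := by
  classical
  by_contra hcon
  rw [not_le] at hcon
  have hn0 : (0 : ℝ) ≤ n := Nat.cast_nonneg n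
  have hl2 : 0 < Real.log 2 := Real.log_pos (by norm_num)
  -- the widths
  set w' : ℕ := ⌊(n : ℝ) * (1 - y) / 4⌋₊ with hw'
  have hfl : (w' : ℝ) ≤ n * (1 - y) / 4 := Nat.floor_le (by
    have : 0 ≤ 1 - y := by linarith
    positivity)
  have hfl2 : n * (1 - y) / 4 < (w' : ℝ) + 1 := Nat.lt_floor_add_one _
  have h4w : 4 * w' ≤ n := by
    have : (4 : ℝ) * w' ≤ n := by nlinarith
    exact_mod_cast this
  set w0 : ℕ := n - 4 * w' with hw0
  have hsumN : 4 * w' + w0 = n := by omega
  have hsumR : (4 : ℝ) * w' + w0 = n := by exact_mod_cast hsumN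
  have hlow : y * n ≤ w0 := by linarith
  have hup : (w0 : ℝ) ≤ y * n + 4 := by linarith
  set w : Fin 5 → ℕ := fun j => if j = 4 then w0 else w' with hwdef
  have hW : Widths n w w' w0 y :=
    ⟨fun i hi => by simp [hwdef, hi], by simp [hwdef], hsumN, hlow, hup.trans hN4⟩
  have hsumw : ∑ j, w j = n := by
    rw [Fin.sum_univ_five, hW.eq 0 (by decide), hW.eq 1 (by decide), hW.eq 2 (by decide),
      hW.eq 3 (by decide), hW.four]
    omega
  obtain ⟨P, L, hS, hPf, hcard⟩ := hE n N G f w hro hcomp hrig hsumw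
  -- density of P
  have h1 : 2 ^ n ≤ 4 * ((Fintype.card N) ^ 4 * P.card) :=
    hdense.trans (Nat.mul_le_mul_left 4 hcard)
  have hPpos : 0 < P.card := by
    rcases Nat.eq_zero_or_pos P.card with h | h
    · rw [h] at h1
      simp at h1
    · exact h
  have hNpos : 0 < Fintype.card N := by
    rcases Nat.eq_zero_or_pos (Fintype.card N) with h | h
    · rw [h] at h1
      simp at h1
    · exact h
  have hP : P.Nonempty := Finset.card_pos.1 hPpos
  have hp : (0 : ℝ) < P.card := by exact_mod_cast hPpos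
  have hNp : (0 : ℝ) < Fintype.card N := by exact_mod_cast hNpos
  have hlogN : Real.log (Fintype.card N) ≤ c * n * Real.log 2 := by
    have := Real.log_le_log hNp hcon.le
    rwa [Real.log_rpow (by norm_num)] at this
  have h2 : n * Real.log 2 - dd c n ≤ Real.log P.card := by
    have h3 : (2 : ℝ) ^ n ≤ 4 * ((Fintype.card N : ℝ) ^ 4 * P.card) := by exact_mod_cast h1
    have h4 := Real.log_le_log (by positivity) h3
    rw [Real.log_pow, Real.log_mul (by norm_num) (by positivity), Real.log_mul (by positivity)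
      hp.ne', Real.log_pow] at h4
    have h5 : Real.log 4 = 2 * Real.log 2 := by
      rw [show (4 : ℝ) = 2 ^ 2 by norm_num, Real.log_pow]
      norm_num
    rw [h5] at h4
    unfold dd
    push_cast at h4
    linarith
  have hd0 : 0 ≤ dd c n := by
    unfold dd
    positivity
  have hexp : (2 : ℝ) ^ n * Real.exp (-(dd c n)) ≤ P.card := by
    have e1 : (2 : ℝ) ^ n = Real.exp (n * Real.log 2) := by
      rw [Real.exp_nat_mul, Real.exp_log (by norm_num)]
    rw [e1, ← Real.exp_add, ← Real.exp_log hp]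
    apply Real.exp_le_exp.2
    linarith
  -- the exceptional set
  have hbad : ((Bad P L w (n + 2) y).card : ℝ) ≤ ee c y n * P.card := by
    have h3 := card_Bad hS (m := n + 2) (by omega) hrf hPf hy0 (by linarith : y ≤ 1 / 2)
    refine h3.trans ?_
    unfold ee
    have e2 : Real.exp (dd c n - n * y ^ 2 / 5) =
        Real.exp (dd c n) * Real.exp (-(n * y ^ 2 / 5)) := by
      rw [← Real.exp_add]; congr 1
    have e3 : (2 : ℝ) ^ n ≤ Real.exp (dd c n) * P.card := by
      have := mul_le_mul_of_nonneg_left hexp (Real.exp_pos (dd c n)).le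
      have e4 : Real.exp (dd c n) * ((2 : ℝ) ^ n * Real.exp (-(dd c n))) = 2 ^ n := by
        rw [mul_comm ((2 : ℝ) ^ n), ← mul_assoc, ← Real.exp_add]
        simp
      linarith
    rw [e2]
    push_cast
    calc 32 * (((n : ℝ) + 2) * (2 ^ n * Real.exp (-(n * y ^ 2 / 5))))
        = 32 * ((n : ℝ) + 2) * Real.exp (-(n * y ^ 2 / 5)) * 2 ^ n := by ring
      _ ≤ 32 * ((n : ℝ) + 2) * Real.exp (-(n * y ^ 2 / 5)) * (Real.exp (dd c n) * P.card) := by
          gcongr
      _ = _ := by ring
  -- the information bound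
  set I : ℝ := Real.log 2 * ((y * n + 4) + 2 * y * n) + 3 * dd c n / y + dd c n +
      4 * Real.log (n + 2) + ee c y n * n * Real.log 2 with hI
  have hinfo : ∀ i j : Fin 5, i ≠ j → i ≠ 4 → j ≠ 4 →
      ∑ x : Fin n, ∑ b ∈ P, alpha P L i x b * alpha P L j x b ≤ I * P.card := by
    intro i j hij hi hj
    refine (hC n P L i j hij hP).trans ?_
    refine (info_le hS hP (m := n + 2) hy0 hy hW hd0 h2 hbad hij hi hj).trans ?_
    apply mul_le_mul_of_nonneg_right _ hp.le
    rw [hI]
    have : Real.log 2 * (w0 + 2 * y * n) ≤ Real.log 2 * ((y * n + 4) + 2 * y * n) := by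
      apply mul_le_mul_of_nonneg_left _ hl2.le
      linarith
    push_cast
    linarith
  have hlab : (∑ x : Fin n, ∑ b ∈ P, if L b x = 4 then (1 : ℝ) else 0) / P.card ≤ y * n + 4 := by
    rw [div_le_iff₀ hp, Finset.sum_comm]
    calc ∑ b ∈ P, ∑ x : Fin n, (if L b x = 4 then (1 : ℝ) else 0) = ∑ b ∈ P, (w0 : ℝ) := by
          refine Finset.sum_congr rfl (fun b hb => ?_)
          rw [← Finset.sum_filter, Finset.sum_const, nsmul_eq_mul, mul_one, hS.card b hb 4, hW.four]
      _ = P.card * w0 := by rw [Finset.sum_const, nsmul_eq_mul]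
      _ ≤ (y * n + 4) * P.card := by
          rw [mul_comm]
          exact mul_le_mul_of_nonneg_right hup hp.le
  obtain ⟨Q, hQP, hQ, himg⟩ := hD n P L I s hP hs hinfo (by linarith)
  -- counting Q
  have hQ1 : (Q \ Bad P L w (n + 2) y).card ≤ (n + 2) ^ 4 * (Q.image L).card := by
    apply Finset.card_le_mul_card_image_of_maps_to (f := L)
    · intro b hb
      rw [mem_sdiff] at hb
      exact Finset.mem_image_of_mem _ hb.1
    · intro l _
      rcases (filter (fun b => L b = l) (Q \ Bad P L w (n + 2) y)).eq_empty_or_nonempty with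
        h | ⟨b0, hb0⟩
      · rw [h]; simp
      · rw [mem_filter, mem_sdiff] at hb0
        obtain ⟨⟨hb0Q, hb0B⟩, hb0L⟩ := hb0
        refine le_trans (Finset.card_le_card ?_)
          (same_card hS hW (i := 0) (j := 1) (by decide) (by decide) (by decide)
            (hQP hb0Q) hb0B)
        intro b hb
        rw [mem_filter, mem_sdiff] at hb
        rw [mem_filter]
        have hLL : L b = L b0 := by rw [hb.2, hb0L]
        refine ⟨hQP hb.1.1, ?_, ?_⟩
        · simp [part, hLL]
        · simp [part, hLL]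
  have hQ2 : (Q.card : ℝ) ≤ ee c y n * P.card + ((n : ℝ) + 2) ^ 4 * (Real.sqrt 2 * (9 / 8)) ^ n := by
    have h5 : Q.card ≤ (Q \ Bad P L w (n + 2) y).card + (Bad P L w (n + 2) y).card := by
      have := Finset.card_le_card (Finset.subset_union_left (s₁ := Q) (s₂ := Bad P L w (n + 2) y))
      rw [← Finset.sdiff_union_self_eq_union] at this
      exact this.trans (Finset.card_union_le _ _)
    have h6 : (Q.card : ℝ) ≤ ((n + 2) ^ 4 * (Q.image L).card : ℕ) + ((Bad P L w (n + 2) y).card : ℝ) := by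
      exact_mod_cast h5.trans (Nat.add_le_add_right hQ1 _)
    push_cast at h6
    have h7 : ((n : ℝ) + 2) ^ 4 * ((Q.image L).card : ℝ) ≤
        ((n : ℝ) + 2) ^ 4 * (Real.sqrt 2 * (9 / 8)) ^ n :=
      mul_le_mul_of_nonneg_left himg (by positivity)
    linarith
  have h8 : ee c y n * P.card ≤ 1 / 4 * P.card := mul_le_mul_of_nonneg_right hN1 hp.le
  linarith

/-- The core of the lower bound. -/
theorem stmtCore (hE : StmtE) (hC : StmtC) (hD : StmtD) (hN : StmtNum) : StmtCore := by
  obtain ⟨c, y, s, hc, hy0, hy, hs, n0, h⟩ := hN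
  refine ⟨c, hc, n0, ?_⟩
  intro n hn N _ G f hro hcomp hrig hrf hdense
  obtain ⟨h1, h2, h3, h4⟩ := h n hn
  exact core_aux hE hC hD hc hy0 hy hs n h1 h2 h3 h4 N G f hro hcomp hrig hrf hdense

end Pool.Agent.Lib_helper20.SRO
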