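import Pool.Agent.Lib_helper20.SRO.Defs3

/-!
Semantic read-once branching programs: the second hard function (whose complement is easy) and the
interfaces of the modules.
-/

namespace Pool.Agent.Lib_helper20.SRO

open Finset

/-- Module B2. Counting: fewer than all `C` have a rectangle. -/
def StmtB2 : Prop := ∀ n k T r : ℕ, 1 ≤ n → 4 ≤ r → 8 * k ≤ r → n ≤ T * k →
    ∃ C : Fin T → Fin k → Bool → Fin n → Bool, ∀ e : Fin T → Bool, RectFree (QF C e) (2 ^ r)

/-- The state of the automaton `t` after reading the first `j` variables of its order. -/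
def run {V Q : Type} {M : ℕ} (ord : Fin M → V) (init : Q) (step : Fin M → Q → Bool → Q)
    (b : V → Bool) : (j : ℕ) → j ≤ M → Q
  | 0, _ => init
  | j + 1, h => step ⟨j, h⟩ (run ord init step b j (Nat.le_of_succ_le h)) (b (ord ⟨j, h⟩))

/-- Module U: a union of `T` oblivious read-once automata is a syntactic read-once program. -/
def StmtU : Prop := ∀ (V Q : Type) (T M : ℕ) (ord : Fin T → Fin M → V) (init : Fin T → Q)
    (step : Fin T → Fin M → Q → Bool → Q) (acc : Fin T → Q → Prop),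
    (∀ t, Function.Injective (ord t)) →
    ∃ G : NBP V ((Fin T × Fin (M + 1) × Q) ⊕ Bool), G.SyntacticReadOnce ∧
      ∀ b, G.Accepts b ↔ ∃ t, acc t (run (ord t) (init t) (step t) b M le_rfl)

/-- Module U2: the complement of the hard function has small syntactic read-once programs. -/
def StmtU2 : Prop := ∀ n : ℕ, 16 ≤ n → ∃ (N : Type) (_ : Fintype N) (G : NBP (Var2 n) N),
    G.SyntacticReadOnce ∧ G.Computes (fun v => !hardF2 n v) ∧
    Fintype.card N ≤ 5 * Fintype.card (Var2 n) ^ 2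

/-- Module U3: the same for fixed coefficients. -/
def StmtU3 : Prop := ∀ n : ℕ, 16 ≤ n → ∀ (C : Fin (tt n) → Fin (kk n) → Bool → Fin n → Bool)
    (e : Fin (tt n) → Bool), ∃ (N : Type) (_ : Fintype N) (G : NBP (Fin n) N),
    G.SyntacticReadOnce ∧ G.Computes (fun b => !QF C e b) ∧ Fintype.card N ≤ n ^ 4

/-- Core: the lower bound for dense rigid functions without large rectangles. -/
def StmtCore2 : Prop := ∃ c : ℝ, 0 < c ∧ ∃ n0 : ℕ, ∀ n ≥ n0, ∀ (N : Type) [Fintype N]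
    (G : NBP (Fin n) N) (f : (Fin n → Bool) → Bool) (m : ℕ), G.SemanticReadOnce →
    G.Computes f → Rigid f → 1 ≤ m → (m : ℝ) ≤ 2 ^ (c * n) → RectFree f m →
    (2 : ℝ) ^ n ≤ 2 ^ (c * n) * (univ.filter (fun b => f b = true)).card →
    (2 : ℝ) ^ (c * n) ≤ Fintype.card N

/-- Module F2: lower bounds for the hard functions. -/
def StmtF2 : Prop := StmtCore2 → StmtB2 → StmtR → ∃ c : ℝ, 0 < c ∧ ∃ n0 : ℕ, ∀ n ≥ n0,
    (∀ (N : Type) [Fintype N] (G : NBP (Var2 n) N), G.SemanticReadOnce → G.Computes (hardF2 n) →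
      (2 : ℝ) ^ (c * Real.sqrt (Fintype.card (Var2 n))) ≤ Fintype.card N) ∧
    (∃ (C : Fin (tt n) → Fin (kk n) → Bool → Fin n → Bool) (e : Fin (tt n) → Bool),
      ∀ (N : Type) [Fintype N] (G : NBP (Fin n) N), G.SemanticReadOnce → G.Computes (QF C e) →
        (2 : ℝ) ^ (c * n) ≤ Fintype.card N)

/-- The numerical conditions of the core (with `d = 5 c n log 2` and rectangles of size
`2 ^ (c n)`): `c = 10^(-17)`, `y = 5 * 10^(-8)`, `s = 1/120` and a large `n0` will do. -/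
def StmtNum2 : Prop := ∃ c y s : ℝ, 0 < c ∧ 0 < y ∧ y ≤ 1 / 4 ∧ 0 < s ∧ ∃ n0 : ℕ,
    ∀ n : ℕ, n0 ≤ n →
    32 * Real.exp (6 * c * n * Real.log 2 - n * y ^ 2 / 5) ≤ 1 / 4 ∧
    6 * (Real.log 2 * ((y * n + 4) + 2 * y * n) + 3 * (5 * c * n * Real.log 2) / y +
      5 * c * n * Real.log 2 + 4 * (c * n * Real.log 2) +
      32 * Real.exp (6 * c * n * Real.log 2 - n * y ^ 2 / 5) * n * Real.log 2) / s ^ 2 +
      4 * s * n + (y * n + 4) ≤ n / 20 ∧
    4 * ((2 : ℝ) ^ (c * n)) ^ 4 * (Real.sqrt 2 * (9 / 8)) ^ n <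
      2 ^ n * Real.exp (-(5 * c * n * Real.log 2)) ∧
    y * n + 4 ≤ n * (1 - y) / 2

end Pool.Agent.Lib_helper20.SRO
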