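import Pool.Agent.Lib_helper20.SRO.Defs

/-!
Semantic read-once branching programs: the hard function and the interfaces of the last modules.
-/

namespace Pool.Agent.Lib_helper20.SRO

open Finset

/-- The input variables: the `n + 1` bits of a number `p`, `(n+2)^2` coefficients of `n + 1` bits,
one bit `e`, and the bits of `b`. -/
abbrev Var (n : ℕ) : Type := (Fin (n + 1) ⊕ (Fin ((n + 2) ^ 2) × Fin (n + 1)) ⊕ Unit) ⊕ Fin n

/-- The hard function (computable in polynomial time): the number of ones of `b` is even, and the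
bit `e` tells whether the polynomial with the given coefficients has at `b`, modulo `p`, a value
less than `p / 2`. -/
def hardF (n : ℕ) (v : Var n → Bool) : Bool :=
  evenWeight (fun i => v (Sum.inr i)) &&
    decide (polyBit (binVal (fun i => v (Sum.inl (Sum.inl i))))
      (fun i j => v (Sum.inl (Sum.inr (Sum.inl (i, j))))) (fun i => v (Sum.inr i)) =
      v (Sum.inl (Sum.inr (Sum.inr ()))))

/-- Module R: fixing the variables in `W`. -/
def StmtR : Prop := ∀ (W : Type) (n : ℕ) (N : Type) (G : NBP (W ⊕ Fin n) N) (a : W → Bool)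
    (F : (W ⊕ Fin n → Bool) → Bool), G.SemanticReadOnce → G.Computes F →
    ∃ G' : NBP (Fin n) N, G'.SemanticReadOnce ∧ G'.Computes (fun b => F (Sum.elim a b))

/-- Core: the lower bound for one dense rigid rectangle-free function. -/
def StmtCore : Prop := ∃ c : ℝ, 0 < c ∧ ∃ n0 : ℕ, ∀ n ≥ n0, ∀ (N : Type) [Fintype N]
    (G : NBP (Fin n) N) (f : (Fin n → Bool) → Bool), G.SemanticReadOnce → G.Computes f →
    Rigid f → RectFree f (n + 2) → 2 ^ n ≤ 4 * (univ.filter (fun b => f b = true)).card →
    (2 : ℝ) ^ (c * n) ≤ Fintype.card N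

/-- Module F: from the core to the hard function. -/
def StmtF : Prop := StmtCore → StmtB → StmtR →
    ∃ c : ℝ, 0 < c ∧ ∃ n0 : ℕ, ∀ n ≥ n0, ∀ (N : Type) [Fintype N] (G : NBP (Var n) N),
      G.SemanticReadOnce → G.Computes (hardF n) →
      (2 : ℝ) ^ (c * (Fintype.card (Var n) : ℝ) ^ ((1 : ℝ) / 3)) ≤ Fintype.card N ∧
      (2 : ℝ) ^ (c * n) ≤ Fintype.card N

end Pool.Agent.Lib_helper20.SRO
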