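import Pool.Agent.Lib_helper20.SRO.Defs4

/-!
Nondeterministic branching programs with few rereads: interfaces.
-/

namespace Pool.Agent.Lib_helper20.SRO

open Finset

/-- Module E2. -/
def StmtE2 : Prop := ∀ (n : ℕ) (N : Type) [Fintype N] (G : NBP (Fin n) N)
    (f : (Fin n → Bool) → Bool) (w : Fin 5 → ℕ) (B : Finset (Fin n → Bool)),
    (∀ b, G.Accepts b → f b = true) → Rigid f → ∑ j, w j = n →
    (∀ b ∈ B, ∃ l, Walk G G.source G.sink l ∧ Agrees b l ∧ (l.map Prod.fst).Nodup) →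
    ∃ (P : Finset (Fin n → Bool)) (L : (Fin n → Bool) → Fin n → Fin 5), Sys P L w ∧
      (∀ b ∈ P, f b = true) ∧ B.card ≤ (Fintype.card N) ^ 4 * P.card

/-- Core: the lower bound for dense rigid functions without large rectangles. -/
def StmtCore3 : Prop := ∃ c : ℝ, 0 < c ∧ ∃ n0 : ℕ, ∀ n ≥ n0, ∀ (N : Type) [Fintype N]
    (G : NBP (Fin n) N) (f : (Fin n → Bool) → Bool) (m r : ℕ), (r : ℝ) ≤ c * n →
    G.FewRereads r → G.Computes f → Rigid f → 1 ≤ m → (m : ℝ) ≤ 2 ^ (c * n) → RectFree f m →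
    (2 : ℝ) ^ n ≤ 2 ^ (c * n) * (univ.filter (fun b => f b = true)).card →
    (2 : ℝ) ^ (c * n) ≤ Fintype.card N

end Pool.Agent.Lib_helper20.SRO
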