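import Pool.Agent.Lib_helper20.SRO.Hyb

namespace Pool.Agent.Lib_helper20.SRO

open Finset

variable {n : ℕ}

/-- Subadditivity of the entropy. -/
theorem subadd {β γ δ : Type*} [DecidableEq β] [DecidableEq γ] [DecidableEq δ] (P : Finset β)
    (hP : P.Nonempty) (u : β → γ) (v : β → δ) :
    ∑ b ∈ P, Real.log (P.filter (fun b' => u b' = u b)).card ≤
      ∑ b ∈ P, Real.log (P.filter (fun b' => u b' = u b ∧ v b' = v b)).card +
        (P.card * Real.log P.card - ∑ b ∈ P, Real.log (P.filter (fun b' => v b' = v b)).card) := by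
  have hp : (0 : ℝ) < P.card := by exact_mod_cast Finset.card_pos.2 hP
  have pu : ∀ b ∈ P, (0 : ℝ) < (P.filter (fun b' => u b' = u b)).card := by
    intro b hb
    have : 0 < (P.filter (fun b' => u b' = u b)).card :=
      Finset.card_pos.2 ⟨b, by simp [hb]⟩
    exact_mod_cast this
  have pv : ∀ b ∈ P, (0 : ℝ) < (P.filter (fun b' => v b' = v b)).card := by
    intro b hb
    have : 0 < (P.filter (fun b' => v b' = v b)).card :=
      Finset.card_pos.2 ⟨b, by simp [hb]⟩
    exact_mod_cast this
  have puv : ∀ b ∈ P, (0 : ℝ) < (P.filter (fun b' => u b' = u b ∧ v b' = v b)).card := by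
    intro b hb
    have : 0 < (P.filter (fun b' => u b' = u b ∧ v b' = v b)).card :=
      Finset.card_pos.2 ⟨b, by simp [hb]⟩
    exact_mod_cast this
  -- the double counting
  have hcount : ∑ b ∈ P, ((P.filter (fun b' => u b' = u b)).card : ℝ) *
      (P.filter (fun b' => v b' = v b)).card /
        (P.filter (fun b' => u b' = u b ∧ v b' = v b)).card ≤ (P.card : ℝ) * P.card := by
    have h1 : ∀ b ∈ P, ((P.filter (fun b' => u b' = u b)).card : ℝ) *
      (P.filter (fun b' => v b' = v b)).card /
        (P.filter (fun b' => u b' = u b ∧ v b' = v b)).card =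
        ∑ b1 ∈ P, ∑ b2 ∈ P, if u b1 = u b ∧ v b2 = v b then
          (1 : ℝ) / (P.filter (fun b' => u b' = u b ∧ v b' = v b)).card else 0 := by
      intro b _
      have : ∀ b1 ∈ P, ∑ b2 ∈ P, (if u b1 = u b ∧ v b2 = v b then
          (1 : ℝ) / (P.filter (fun b' => u b' = u b ∧ v b' = v b)).card else 0) =
          if u b1 = u b then ((P.filter (fun b' => v b' = v b)).card : ℝ) *
            (1 / (P.filter (fun b' => u b' = u b ∧ v b' = v b)).card) else 0 := by
        intro b1 _
        by_cases hu : u b1 = u b
        · simp only [hu, true_and, if_true]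
          rw [← Finset.sum_filter, Finset.sum_const, nsmul_eq_mul]
        · simp [hu]
      rw [Finset.sum_congr rfl this, ← Finset.sum_filter, Finset.sum_const, nsmul_eq_mul]
      ring
    rw [Finset.sum_congr rfl h1, Finset.sum_comm]
    have h2 : ∀ b1 ∈ P, ∑ b ∈ P, ∑ b2 ∈ P, (if u b1 = u b ∧ v b2 = v b then
          (1 : ℝ) / (P.filter (fun b' => u b' = u b ∧ v b' = v b)).card else 0) ≤ P.card := by
      intro b1 _
      rw [Finset.sum_comm]
      have h3 : ∀ b2 ∈ P, ∑ b ∈ P, (if u b1 = u b ∧ v b2 = v b then
          (1 : ℝ) / (P.filter (fun b' => u b' = u b ∧ v b' = v b)).card else 0) ≤ 1 := by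
        intro b2 _
        rw [← Finset.sum_filter]
        rcases (P.filter (fun b => u b1 = u b ∧ v b2 = v b)).eq_empty_or_nonempty with h | ⟨b0, hb0⟩
        · rw [h]; simp
        · rw [mem_filter] at hb0
          have h4 : ∀ b ∈ P.filter (fun b => u b1 = u b ∧ v b2 = v b),
              (1 : ℝ) / (P.filter (fun b' => u b' = u b ∧ v b' = v b)).card =
              (1 : ℝ) / (P.filter (fun b' => u b' = u b0 ∧ v b' = v b0)).card := by
            intro b hb
            rw [mem_filter] at hb
            rw [← hb.2.1, ← hb.2.2, ← hb0.2.1, ← hb0.2.2]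
          rw [Finset.sum_congr rfl h4, Finset.sum_const, nsmul_eq_mul]
          have h5 : P.filter (fun b => u b1 = u b ∧ v b2 = v b) =
              P.filter (fun b' => u b' = u b0 ∧ v b' = v b0) := by
            ext b
            rw [mem_filter, mem_filter, hb0.2.1, hb0.2.2]
            constructor
            · rintro ⟨h, h1, h2⟩; exact ⟨h, h1.symm, h2.symm⟩
            · rintro ⟨h, h1, h2⟩; exact ⟨h, h1.symm, h2.symm⟩
          rw [h5, mul_one_div_cancel (puv b0 hb0.1).ne']
      calc _ ≤ ∑ b2 ∈ P, (1 : ℝ) := Finset.sum_le_sum h3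
        _ = P.card := by simp
    calc _ ≤ ∑ b1 ∈ P, (P.card : ℝ) := Finset.sum_le_sum h2
      _ = _ := by rw [Finset.sum_const, nsmul_eq_mul]
  have hlog : ∀ b ∈ P, 1 - (((P.filter (fun b' => u b' = u b)).card : ℝ) *
      (P.filter (fun b' => v b' = v b)).card /
        (P.filter (fun b' => u b' = u b ∧ v b' = v b)).card) / P.card ≤
      Real.log (P.filter (fun b' => u b' = u b ∧ v b' = v b)).card + Real.log P.card -
        Real.log (P.filter (fun b' => u b' = u b)).card -
        Real.log (P.filter (fun b' => v b' = v b)).card := by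
    intro b hb
    have h1 := pu b hb
    have h2 := pv b hb
    have h3 := puv b hb
    set a : ℝ := ((P.filter (fun b' => u b' = u b)).card : ℝ)
    set c : ℝ := ((P.filter (fun b' => v b' = v b)).card : ℝ)
    set e : ℝ := ((P.filter (fun b' => u b' = u b ∧ v b' = v b)).card : ℝ)
    have h4 := Real.one_sub_inv_le_log_of_pos (show 0 < e * P.card / (a * c) by positivity)
    have h5 : (e * P.card / (a * c))⁻¹ = a * c / e / P.card := by
      field_simp
    rw [h5, Real.log_div (by positivity) (by positivity), Real.log_mul h3.ne' hp.ne',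
      Real.log_mul h1.ne' h2.ne'] at h4
    linarith
  have hsum := Finset.sum_le_sum hlog
  rw [Finset.sum_sub_distrib, Finset.sum_sub_distrib, Finset.sum_sub_distrib,
    Finset.sum_add_distrib, ← Finset.sum_div] at hsum
  simp only [Finset.sum_const, nsmul_eq_mul, mul_one] at hsum
  have h6 : (∑ b ∈ P, ((P.filter (fun b' => u b' = u b)).card : ℝ) *
      (P.filter (fun b' => v b' = v b)).card /
        (P.filter (fun b' => u b' = u b ∧ v b' = v b)).card) / P.card ≤ P.card := by
    rw [div_le_iff₀ hp]
    exact hcount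
  linarith

lemma past_iff (L : (Fin n → Bool) → Fin n → Fin 5) (i : Fin 5) (b b' : Fin n → Bool) :
    Past L i n b b' ↔ part L {i} b' = part L {i} b := by
  unfold Past
  constructor
  · intro h
    ext x
    rw [mem_part, mem_part, mem_singleton, mem_singleton]
    exact h x x.2
  · intro h y _
    have : y ∈ part L {i} b' ↔ y ∈ part L {i} b := by rw [h]
    rwa [mem_part, mem_part, mem_singleton, mem_singleton] at this

lemma NP_eq (P : Finset (Fin n → Bool)) (L : (Fin n → Bool) → Fin n → Fin 5) (i : Fin 5)
    (b : Fin n → Bool) :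
    NP P L i n b = ((P.filter (fun b' => part L {i} b' = part L {i} b)).card : ℝ) := by
  classical
  unfold NP
  congr 2
  apply Finset.filter_congr
  intro b' _
  exact past_iff L i b b'

lemma NP2_eq (P : Finset (Fin n → Bool)) (L : (Fin n → Bool) → Fin n → Fin 5) (i j : Fin 5)
    (b : Fin n → Bool) :
    NP2 P L i j n b = ((P.filter (fun b' => (part L {i} b', part L {j} b') =
      (part L {i} b, part L {j} b))).card : ℝ) := by
  classical
  unfold NP2
  congr 2
  apply Finset.filter_congr
  intro b' _
  rw [past_iff, past_iff, Prod.mk.injEq]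

lemma NP_ge {P : Finset (Fin n → Bool)} {L : (Fin n → Bool) → Fin n → Fin 5} {w : Fin 5 → ℕ}
    (hS : Sys P L w) (i : Fin 5) {b : Fin n → Bool} (hb : b ∈ P) :
    Real.log (cls P L {i} b).card ≤
      Real.log (P.filter (fun b' => part L {i} b' = part L {i} b)).card := by
  apply Real.log_le_log
  · have : 0 < (cls P L {i} b).card := Finset.card_pos.2 ⟨b, self_mem_cls hb⟩
    exact_mod_cast this
  · have : (cls P L {i} b).card ≤ (P.filter (fun b' => part L {i} b' = part L {i} b)).card := by
      apply Finset.card_le_card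
      intro b' hb'
      rw [mem_filter]
      exact ⟨(mem_cls.1 hb').1, part_eq hS hb hb'⟩
    exact_mod_cast this

end Pool.Agent.Lib_helper20.SRO
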