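import Pool.Agent.Lib_helper20.SRO.Defs4
import Pool.Agent.Lib_helper45.SRO.F

namespace Pool.Agent.Lib_helper20.SRO

open Finset

/-- the numbers: for large `n` all conditions on `r`, `k`, `T` hold -/
lemma params {c : ℝ} (hc : 0 < c) : ∃ n0 : ℕ, ∀ n ≥ n0,
    1 ≤ n ∧ 4 ≤ ⌊c * n⌋₊ ∧ 8 * kk n ≤ ⌊c * n⌋₊ ∧ n ≤ tt n * kk n ∧ ((tt n : ℝ) + 1 ≤ c * n) ∧
      tt n + 1 ≤ n ∧ kk n ≤ n ∧ 1 ≤ kk n := by
  obtain ⟨K, hK⟩ := exists_nat_ge (max (2 / c) 4)
  have hK1 : 2 / c ≤ K := (le_max_left _ _).trans hK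
  have hK4 : 4 ≤ K := by
    have : (4 : ℝ) ≤ K := (le_max_right _ _).trans hK
    exact_mod_cast this
  have hlit : ∀ᶠ x : ℝ in Filter.atTop, Real.log x ≤ (c * Real.log 2 / 16) * x := by
    have hl2 : 0 < Real.log 2 := Real.log_pos (by norm_num)
    have := Real.isLittleO_log_id_atTop.bound (show 0 < c * Real.log 2 / 16 by positivity)
    filter_upwards [this, Filter.eventually_ge_atTop 1] with x hx h1
    rw [Real.norm_eq_abs, Real.norm_eq_abs, abs_of_nonneg (Real.log_nonneg h1), id,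
      abs_of_nonneg (by linarith)] at hx
    exact hx
  have hlit2 := tendsto_natCast_atTop_atTop.eventually hlit
  obtain ⟨n1, hn1⟩ := Filter.eventually_atTop.1 hlit2
  obtain ⟨n2, hn2⟩ := exists_nat_ge (10 / c)
  refine ⟨max (max n1 n2) (max (2 ^ K) 16), ?_⟩
  intro n hn
  have h1 : n1 ≤ n := (le_max_left _ _).trans ((le_max_left _ _).trans hn)
  have h2 : n2 ≤ n := (le_max_right _ _).trans ((le_max_left _ _).trans hn)
  have h3 : 2 ^ K ≤ n := (le_max_left _ _).trans ((le_max_right _ _).trans hn)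
  have h4 : 16 ≤ n := (le_max_right _ _).trans ((le_max_right _ _).trans hn)
  have hnc : 10 ≤ c * n := by
    have h5 : (10 / c : ℝ) ≤ n := hn2.trans (by exact_mod_cast h2)
    rw [div_le_iff₀ hc] at h5
    linarith
  have hkK : K ≤ kk n := by
    unfold kk
    exact Nat.le_log_of_pow_le (by norm_num) h3
  have hk1 : 1 ≤ kk n := by omega
  have hkn : kk n ≤ n := by
    unfold kk
    exact Nat.log_le_self 2 n
  have hklog : (kk n : ℝ) ≤ c / 16 * n := by
    have h5 : (kk n : ℝ) ≤ Real.logb 2 n := by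
      unfold kk
      exact_mod_cast Real.natLog_le_logb n 2
    have h6 := hn1 n h1
    have hl2 : 0 < Real.log 2 := Real.log_pos (by norm_num)
    have h7 : Real.logb 2 n ≤ c / 16 * n := by
      unfold Real.logb
      rw [div_le_iff₀ hl2]
      linarith
    exact h5.trans h7
  have hfl : c * n < (⌊c * n⌋₊ : ℝ) + 1 := Nat.lt_floor_add_one _
  have hr4 : 4 ≤ ⌊c * n⌋₊ := by
    apply Nat.le_floor
    push_cast
    linarith
  have hr8 : 8 * kk n ≤ ⌊c * n⌋₊ := by
    apply Nat.le_floor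
    push_cast
    linarith
  have htk : n ≤ tt n * kk n := by
    unfold tt
    have := Nat.lt_mul_of_div_lt (Nat.lt_succ_self (n / kk n)) hk1
    rw [Nat.succ_eq_add_one] at this
    nlinarith
  have hdiv : ((n / kk n : ℕ) : ℝ) ≤ c * n / 2 := by
    have h5 : ((n / kk n : ℕ) : ℝ) ≤ (n : ℝ) / kk n := Nat.cast_div_le
    have hKr : (K : ℝ) ≤ kk n := by exact_mod_cast hkK
    have hKpos : (0 : ℝ) < K := by
      have : 0 < K := by omega
      exact_mod_cast this
    have h6 : (n : ℝ) / kk n ≤ n / K :=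
      div_le_div_of_nonneg_left (Nat.cast_nonneg _) hKpos hKr
    have h7 : (n : ℝ) / K ≤ c * n / 2 := by
      rw [div_le_iff₀ hKpos]
      rw [div_le_iff₀ hc] at hK1
      have : (0 : ℝ) ≤ n := Nat.cast_nonneg _
      nlinarith
    linarith
  have htc : (tt n : ℝ) + 1 ≤ c * n := by
    unfold tt
    push_cast
    linarith
  have htn : tt n + 1 ≤ n := by
    unfold tt
    have h5 : n / kk n ≤ n / 4 := Nat.div_le_div_left (by omega) (by norm_num)
    omega
  exact ⟨by omega, hr4, hr8, htk, htc, htn, hkn, hk1⟩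

lemma card_var2 {n : ℕ} (h1 : 1 ≤ n) (h2 : tt n + 1 ≤ n) (h3 : kk n ≤ n) :
    (Fintype.card (Var2 n) : ℝ) ≤ (3 * (n : ℝ)) ^ 2 := by
  have hc : Fintype.card (Var2 n) = tt n * (kk n * (2 * n)) + tt n + n := by
    simp [Var2]
  have hle : tt n * kk n ≤ n + kk n := by
    unfold tt
    have := Nat.div_mul_le_self n (kk n)
    rw [add_mul, one_mul]
    omega
  have h4 : tt n * (kk n * (2 * n)) + tt n + n ≤ 9 * n ^ 2 := by
    have h5 : tt n * (kk n * (2 * n)) = (tt n * kk n) * (2 * n) := by ring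
    rw [h5]
    nlinarith
  rw [hc]
  have : (3 * (n : ℝ)) ^ 2 = ((9 * n ^ 2 : ℕ) : ℝ) := by push_cast; ring
  rw [this]
  exact_mod_cast h4

lemma dense_e {n k T : ℕ} (hn : 1 ≤ n) (hT : T + 1 ≤ n)
    (C : Fin T → Fin k → Bool → Fin n → Bool) :
    ∃ e : Fin T → Bool, 2 ^ n ≤ 2 ^ (T + 1) * (univ.filter (fun b => QF C e b = true)).card := by
  classical
  set E := univ.filter (fun b : Fin n → Bool => evenWeight b = true) with hE
  have hcE := Pool.Agent.Lib_helper45.SRO.card_even (n := n) hn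
  rw [← hE] at hcE
  have hcE' : E.card = 2 ^ (n - 1) := by
    have : 2 ^ n = 2 * 2 ^ (n - 1) := by
      rw [← pow_succ']; congr 1; omega
    omega
  let g : (Fin n → Bool) → (Fin T → Bool) := fun b t => decide (quad (C t) b = 1)
  obtain ⟨e, _, he⟩ := Finset.exists_le_card_fiber_of_mul_le_card_of_maps_to
    (s := E) (t := (univ : Finset (Fin T → Bool))) (f := g) (n := 2 ^ (n - 1 - T))
    (fun _ _ => mem_univ _) ⟨fun _ => false, mem_univ _⟩ (by
      rw [hcE', card_univ, Fintype.card_fun, Fintype.card_bool, Fintype.card_fin, ← pow_add]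
      apply Nat.pow_le_pow_right (by norm_num)
      omega)
  refine ⟨e, ?_⟩
  have hsub : (E.filter (fun b => g b = e)).card ≤ (univ.filter (fun b => QF C e b = true)).card := by
    apply Finset.card_le_card
    intro b hb
    rw [mem_filter, hE, mem_filter] at hb
    rw [mem_filter]
    refine ⟨mem_univ _, ?_⟩
    unfold QF
    rw [Bool.and_eq_true, decide_eq_true_eq]
    refine ⟨hb.1.2, fun t => ?_⟩
    have h1 : g b t = e t := congrFun hb.2 t
    rw [← h1]
    have h01 : ∀ z : ZMod 2, z = 0 ∨ z = 1 := by decide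
    rcases h01 (quad (C t) b) with h | h
    · simp [g, h]
    · simp [g, h]
  calc 2 ^ n = 2 ^ (T + 1) * 2 ^ (n - 1 - T) := by
        rw [← pow_add]; congr 1; omega
    _ ≤ 2 ^ (T + 1) * (univ.filter (fun b => QF C e b = true)).card :=
        Nat.mul_le_mul_left _ (he.trans hsub)

theorem stmtF2 : StmtF2 := by
  classical
  rintro ⟨c, hc, n1, hcore⟩ hB hR
  obtain ⟨n2, hpar⟩ := params hc
  refine ⟨c / 3, by positivity, max n1 n2, ?_⟩
  intro n hn
  have hn1 : n1 ≤ n := (le_max_left _ _).trans hn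
  have hn2 : n2 ≤ n := (le_max_right _ _).trans hn
  obtain ⟨p1, p2, p3, p4, p5, p6, p7, p8⟩ := hpar n hn2
  set r : ℕ := ⌊c * n⌋₊ with hr
  have hn0 : (0 : ℝ) ≤ n := Nat.cast_nonneg n
  have hr0 : (r : ℝ) ≤ c * n := Nat.floor_le (by positivity)
  obtain ⟨C, hC⟩ := hB n (kk n) (tt n) r p1 p2 p3 p4
  obtain ⟨e, he⟩ := dense_e p1 p6 C
  have hrig : Rigid (QF C e) := by
    intro b x hb
    unfold QF at hb ⊢
    rw [Bool.and_eq_true] at hb
    rw [Pool.Agent.Lib_helper45.SRO.evenWeight_flip, hb.1, Bool.not_true, Bool.false_and]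
  have hm : ((2 ^ r : ℕ) : ℝ) ≤ 2 ^ (c * n) := by
    push_cast
    rw [← Real.rpow_natCast]
    exact Real.rpow_le_rpow_of_exponent_le one_le_two hr0
  have hdense : (2 : ℝ) ^ n ≤ 2 ^ (c * n) * (univ.filter (fun b => QF C e b = true)).card := by
    have h1 : (2 : ℝ) ^ n ≤ 2 ^ (tt n + 1) * (univ.filter (fun b => QF C e b = true)).card := by
      exact_mod_cast he
    refine h1.trans (mul_le_mul_of_nonneg_right ?_ (Nat.cast_nonneg _))
    rw [← Real.rpow_natCast]
    apply Real.rpow_le_rpow_of_exponent_le one_le_two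
    push_cast
    exact p5
  have hmain : ∀ (N : Type) [Fintype N] (G : NBP (Fin n) N), G.SemanticReadOnce →
      G.Computes (QF C e) → (2 : ℝ) ^ (c * n) ≤ Fintype.card N := by
    intro N _ G hsro hcomp
    exact hcore n hn1 N G (QF C e) (2 ^ r) hsro hcomp hrig (Nat.one_le_two_pow) hm (hC e) hdense
  constructor
  · intro N _ G hsro hcomp
    obtain ⟨G', hG'1, hG'2⟩ := hR _ n N G
      (Sum.elim (fun q : Fin (tt n) × Fin (kk n) × Bool × Fin n => C q.1 q.2.1 q.2.2.1 q.2.2.2) e)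
      (hardF2 n) hsro hcomp
    have h := hmain N G' hG'1 hG'2
    refine le_trans (Real.rpow_le_rpow_of_exponent_le one_le_two ?_) h
    have h5 : Real.sqrt (Fintype.card (Var2 n)) ≤ 3 * n := by
      apply Real.sqrt_le_iff.2
      exact ⟨by positivity, card_var2 p1 p6 p7⟩
    nlinarith
  · refine ⟨C, e, ?_⟩
    intro N _ G hsro hcomp
    have h := hmain N G hsro hcomp
    refine le_trans (Real.rpow_le_rpow_of_exponent_le one_le_two ?_) h
    nlinarith

end Pool.Agent.Lib_helper20.SRO
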