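import Pool.Agent.Lib_helper20.SRO.F2
import Pool.Agent.Lib_helper20.SRO.R3

/-!
Module F3: from the core with rereads to the hard functions.
-/

namespace Pool.Agent.Lib_helper20.SRO

open Finset

theorem hard3 (hcore : StmtCore3) (hB : StmtB2) : ∃ c : ℝ, 0 < c ∧ ∃ n0 : ℕ, ∀ n ≥ n0,
    (∀ (N : Type) [Fintype N] (G : NBP (Var2 n) N) (r : ℕ),
      (r : ℝ) ≤ c * Real.sqrt (Fintype.card (Var2 n)) → G.FewRereads r → G.Computes (hardF2 n) →
      (2 : ℝ) ^ (c * Real.sqrt (Fintype.card (Var2 n))) ≤ Fintype.card N) ∧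
    (∃ (C : Fin (tt n) → Fin (kk n) → Bool → Fin n → Bool) (e : Fin (tt n) → Bool),
      ∀ (N : Type) [Fintype N] (G : NBP (Fin n) N) (r : ℕ), (r : ℝ) ≤ c * n →
        G.FewRereads r → G.Computes (QF C e) → (2 : ℝ) ^ (c * n) ≤ Fintype.card N) := by
  classical
  obtain ⟨c, hc, n1, hcore⟩ := hcore
  obtain ⟨n2, hpar⟩ := params hc
  refine ⟨c / 3, by positivity, max n1 n2, ?_⟩
  intro n hn
  have hn1 : n1 ≤ n := (le_max_left _ _).trans hn
  have hn2 : n2 ≤ n := (le_max_right _ _).trans hn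
  obtain ⟨p1, p2, p3, p4, p5, p6, p7, p8⟩ := hpar n hn2
  set r0 : ℕ := ⌊c * n⌋₊ with hr0
  have hn0 : (0 : ℝ) ≤ n := Nat.cast_nonneg n
  have hr1 : (r0 : ℝ) ≤ c * n := Nat.floor_le (by positivity)
  obtain ⟨C, hC⟩ := hB n (kk n) (tt n) r0 p1 p2 p3 p4
  obtain ⟨e, he⟩ := dense_e p1 p6 C
  have hrig : Rigid (QF C e) := by
    intro b x hb
    unfold QF at hb ⊢
    rw [Bool.and_eq_true] at hb
    rw [Pool.Agent.Lib_helper45.SRO.evenWeight_flip, hb.1, Bool.not_true, Bool.false_and]
  have hm : ((2 ^ r0 : ℕ) : ℝ) ≤ 2 ^ (c * n) := by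
    push_cast
    rw [← Real.rpow_natCast]
    exact Real.rpow_le_rpow_of_exponent_le one_le_two hr1
  have hdense : (2 : ℝ) ^ n ≤ 2 ^ (c * n) * (univ.filter (fun b => QF C e b = true)).card := by
    have h1 : (2 : ℝ) ^ n ≤ 2 ^ (tt n + 1) * (univ.filter (fun b => QF C e b = true)).card := by
      exact_mod_cast he
    refine h1.trans (mul_le_mul_of_nonneg_right ?_ (Nat.cast_nonneg _))
    rw [← Real.rpow_natCast]
    apply Real.rpow_le_rpow_of_exponent_le one_le_two
    push_cast
    exact p5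
  have hmain : ∀ (N : Type) [Fintype N] (G : NBP (Fin n) N) (r : ℕ), (r : ℝ) ≤ c * n →
      G.FewRereads r → G.Computes (QF C e) → (2 : ℝ) ^ (c * n) ≤ Fintype.card N := by
    intro N _ G r hr hG hcomp
    exact hcore n hn1 N G (QF C e) (2 ^ r0) r hr hG hcomp hrig (Nat.one_le_two_pow) hm (hC e)
      hdense
  have h5 : Real.sqrt (Fintype.card (Var2 n)) ≤ 3 * n := by
    apply Real.sqrt_le_iff.2
    exact ⟨by positivity, card_var2 p1 p6 p7⟩
  constructor
  · intro N _ G r hr hG hcomp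
    let ι : Fin n → Var2 n := Sum.inr
    have hι : Function.Injective ι := Sum.inr_injective
    let a : Var2 n → Bool := Sum.elim (Sum.elim
      (fun q : Fin (tt n) × Fin (kk n) × Bool × Fin n => C q.1 q.2.1 q.2.2.1 q.2.2.2) e)
      (fun _ => false)
    have hF : ∀ b, hardF2 n (ext ι a b) = QF C e b := by
      intro b
      have e1 : (fun i => ext ι a b (Sum.inr i)) = b := by
        funext i
        exact ext_apply hι a b i
      have e2 : ∀ z, ext ι a b (Sum.inl z) = a (Sum.inl z) := by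
        intro z
        apply ext_of_not
        intro x hx
        exact absurd hx (by simp [ι])
      unfold hardF2
      rw [e1]
      simp only [e2]
      rfl
    have hcomp' := fixI_computes hι a hcomp
    simp only [hF] at hcomp'
    have h := hmain N (fixI G ι a) r (by nlinarith) (fixI_few hι a hG) hcomp'
    refine le_trans (Real.rpow_le_rpow_of_exponent_le one_le_two ?_) h
    nlinarith
  · refine ⟨C, e, ?_⟩
    intro N _ G r hr hG hcomp
    have h := hmain N G r (by nlinarith) hG hcomp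
    refine le_trans (Real.rpow_le_rpow_of_exponent_le one_le_two ?_) h
    nlinarith

end Pool.Agent.Lib_helper20.SRO
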