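import Pool.Agent.Lib_helper20.SRO.Maj
import Pool.Agent.Lib_helper45.SRO.V

/-!
Families of deterministic read-once programs as nondeterministic branching programs.
-/

namespace Pool.Agent.Lib_helper20.SRO

open Finset

variable {V Q : Type}

/-- the order of the program, followed by the other variables -/
noncomputable def padL [Fintype V] [DecidableEq V] (L : List V) : List V :=
  L ++ (univ.filter (fun x => x ∉ L)).toList

lemma nodup_padL [Fintype V] [DecidableEq V] {L : List V} (hL : L.Nodup) : (padL L).Nodup := by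
  rw [padL, List.nodup_append]
  refine ⟨hL, Finset.nodup_toList _, ?_⟩
  intro x hx y hy hxy
  subst hxy
  rw [Finset.mem_toList, mem_filter] at hy
  exact hy.2 hx

lemma length_padL [Fintype V] [DecidableEq V] {L : List V} (hL : L.Nodup) :
    (padL L).length = Fintype.card V := by
  have h1 : (padL L).toFinset = univ := by
    ext x
    simp only [padL, List.mem_toFinset, List.mem_append, Finset.mem_toList, mem_filter, mem_univ,
      true_and, iff_true]
    exact em _
  rw [← List.toFinset_card_of_nodup (nodup_padL hL), h1, card_univ]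

lemma foldl_ext' {α β : Type} (f g : β → α → β) (L : List α) (h : ∀ b, ∀ x ∈ L, f b x = g b x)
    (b : β) : L.foldl f b = L.foldl g b := by
  induction L generalizing b with
  | nil => rfl
  | cons a L ih =>
    rw [List.foldl_cons, List.foldl_cons, h b a List.mem_cons_self]
    exact ih (fun b x hx => h b x (List.mem_cons_of_mem _ hx)) _

lemma foldl_id {α β : Type} (f : β → α → β) (L : List α) (h : ∀ b, ∀ x ∈ L, f b x = b)
    (b : β) : L.foldl f b = b := by
  induction L generalizing b with
  | nil => rfl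
  | cons a L ih =>
    rw [List.foldl_cons, h b a List.mem_cons_self]
    exact ih (fun b x hx => h b x (List.mem_cons_of_mem _ hx)) _

lemma fold_padL [Fintype V] [DecidableEq V] (L : List V) (st : Q → V → Bool → Q) (init : Q)
    (v : V → Bool) :
    (padL L).foldl (fun q x => (if x ∈ L then st q x (v x) else q)) init =
      L.foldl (fun q x => st q x (v x)) init := by
  rw [padL, List.foldl_append, foldl_ext' _ (fun q x => st q x (v x)) L (by
    intro b x hx
    rw [if_pos hx])]
  apply foldl_id
  intro b x hx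
  rw [Finset.mem_toList, mem_filter] at hx
  rw [if_neg hx.2]

/-- A family is a nondeterministic program. -/
theorem family_nbp [Fintype V] [DecidableEq V] {Y : ℕ} (A : Fin Y → Obl V Q) (c : Bool) :
    ∃ G : NBP V ((Fin Y × Fin (Fintype.card V + 1) × Q) ⊕ Bool), G.SyntacticReadOnce ∧
      ∀ b, G.Accepts b ↔ ∃ y, (A y).out b = c := by
  classical
  have hlen : ∀ y, (padL (A y).order).length = Fintype.card V := fun y => length_padL (A y).nodup
  obtain ⟨G, hG1, hG2⟩ := Pool.Agent.Lib_helper45.SRO.stmtU V Q Y (Fintype.card V)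
    (fun y i => (padL (A y).order).get (Fin.cast (hlen y).symm i))
    (fun y => (A y).init)
    (fun y i q c => (fun q x c => if x ∈ (A y).order then (A y).step q x c else q) q
      ((padL (A y).order).get (Fin.cast (hlen y).symm i)) c)
    (fun y q => (A y).acc q = c) (by
      intro y i j h
      have h1 := (List.nodup_iff_injective_get.1 (nodup_padL (A y).nodup)) h
      exact Fin.cast_injective _ h1)
  refine ⟨G, hG1, fun b => ?_⟩
  rw [hG2 b]
  refine exists_congr (fun y => ?_)
  rw [Pool.Agent.Lib_helper45.SRO.run_list (padL (A y).order) (hlen y) (A y).init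
    (fun q x c => if x ∈ (A y).order then (A y).step q x c else q) b _ le_rfl,
    List.take_of_length_le (hlen y).le, fold_padL]
  rfl

lemma few_of_syntactic [Fintype V] [DecidableEq V] {N : Type} {G : NBP V N}
    (h : G.SyntacticReadOnce) (r : ℕ) : G.FewRereads r := by
  rintro b ⟨l, hl, hb⟩
  refine ⟨l, hl, hb, ?_⟩
  have h1 : (univ.filter (fun x => 2 ≤ (l.map Prod.fst).count x)) = ∅ := by
    apply Finset.filter_eq_empty_iff.2
    intro x _
    have := List.nodup_iff_count_le_one.1 (h l hl) x
    omega
  rw [h1]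
  simp

/-- The lower bound for the NP and coNP modes. -/
theorem hardModes : ∃ c : ℝ, 0 < c ∧ ∃ n0 : ℕ, ∀ n ≥ n0, 16 ≤ n ∧
    (∀ (N : Type) [Fintype N] (G : NBP (Var3 n) N) (r : ℕ),
      (r : ℝ) ≤ c * Real.sqrt (Fintype.card (Var3 n)) → G.FewRereads r →
      (G.Computes (majQ n) ∨ G.Computes (fun v => !majQ n v)) →
      (2 : ℝ) ^ (c * Real.sqrt (Fintype.card (Var3 n))) ≤ Fintype.card N) ∧
    (∀ (Y : ℕ) (Q : Type) [Fintype Q] (A : Fin Y → Obl (Var3 n) Q),
      ((∀ v, majQ n v = true ↔ NPMode A v) ∨ (∀ v, majQ n v = true ↔ CoNPMode A v)) →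
      (2 : ℝ) ^ (c * Real.sqrt (Fintype.card (Var3 n))) ≤
        Y * ((Fintype.card (Var3 n) + 1) * Fintype.card Q) + 2) := by
  obtain ⟨c, hc, n0, h⟩ := hardMaj
  refine ⟨c, hc, n0, ?_⟩
  intro n hn
  obtain ⟨h16, h2⟩ := h n hn
  refine ⟨h16, h2, ?_⟩
  intro Y Q _ A hA
  have hcard : Fintype.card ((Fin Y × Fin (Fintype.card (Var3 n) + 1) × Q) ⊕ Bool) =
      Y * ((Fintype.card (Var3 n) + 1) * Fintype.card Q) + 2 := by
    rw [Fintype.card_sum, Fintype.card_prod, Fintype.card_prod, Fintype.card_fin,
      Fintype.card_fin, Fintype.card_bool]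
  have hcardR : (Fintype.card ((Fin Y × Fin (Fintype.card (Var3 n) + 1) × Q) ⊕ Bool) : ℝ) =
      Y * ((Fintype.card (Var3 n) + 1) * Fintype.card Q) + 2 := by
    rw [hcard]
    push_cast
    ring
  rw [← hcardR]
  rcases hA with hA | hA
  · obtain ⟨G, hG1, hG2⟩ := family_nbp A true
    refine h2 _ G 0 (by rw [Nat.cast_zero]; positivity) (few_of_syntactic hG1 0) (Or.inl ?_)
    intro b
    rw [hG2 b, hA b]
    rfl
  · obtain ⟨G, hG1, hG2⟩ := family_nbp A false
    refine h2 _ G 0 (by rw [Nat.cast_zero]; positivity) (few_of_syntactic hG1 0) (Or.inr ?_)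
    intro b
    beta_reduce
    rw [hG2 b, Bool.not_eq_true', ← Bool.not_eq_true, hA b]
    unfold CoNPMode
    push Not
    exact exists_congr (fun y => by rw [ne_eq, Bool.not_eq_true])

end Pool.Agent.Lib_helper20.SRO
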