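import Pool.Agent.Lib_helper20.SRO.F3
import Pool.Agent.Lib_helper20.SRO.Core3
import Pool.Agent.Lib_helper20.SRO.E2
import Pool.Agent.Lib_helper45.SRO.D
import Pool.Agent.Lib_helper45.SRO.U2
import Pool.Agent.Lib_helper39.SRO.Num2

/-!
Assembly.
-/

namespace Pool.Agent.Lib_helper20.SRO

open Finset

/-- Short accepting walks have few rereads, if the function is rigid. -/
theorem few_of_short {n : ℕ} {N : Type} {G : NBP (Fin n) N} {f : (Fin n → Bool) → Bool}
    (hcomp : G.Computes f) (hrig : Rigid f) {r : ℕ} (h : G.Short r) : G.FewRereads r := by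
  intro b hb
  obtain ⟨l, hl, hbl, hlen⟩ := h b hb
  refine ⟨l, hl, hbl, ?_⟩
  have hall := complete2 (fun b hb => (hcomp b).1 hb) hrig hl hbl
  set L : List (Fin n) := l.map Prod.fst with hL
  have h1 : ∑ x : Fin n, L.count x = L.length := by
    have := Multiset.sum_count_eq_card (s := (univ : Finset (Fin n))) (m := (L : Multiset (Fin n)))
      (fun a _ => mem_univ a)
    simpa using this
  have h2 : ∑ x : Fin n, (1 + if 2 ≤ L.count x then 1 else 0) ≤ ∑ x : Fin n, L.count x := by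
    apply Finset.sum_le_sum
    intro x _
    have h3 : 1 ≤ L.count x := List.one_le_count_iff.2 (hall x)
    split_ifs with h4
    · exact h4
    · omega
  rw [Finset.sum_add_distrib, h1, ← Finset.card_filter, Finset.sum_const, card_univ,
    Fintype.card_fin, smul_eq_mul, mul_one] at h2
  have h5 : L.length = l.length := by rw [hL, List.length_map]
  rw [Fintype.card_fin] at hlen
  omega

theorem rigid_QF {n k T : ℕ} (C : Fin T → Fin k → Bool → Fin n → Bool) (e : Fin T → Bool) :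
    Rigid (QF C e) := by
  intro b x hb
  unfold QF at hb ⊢
  rw [Bool.and_eq_true] at hb
  rw [Pool.Agent.Lib_helper45.SRO.evenWeight_flip, hb.1, Bool.not_true, Bool.false_and]

theorem final (hB : StmtB2) : ∃ c : ℝ, 0 < c ∧ ∃ n0 : ℕ, ∀ n ≥ n0,
    (∃ (N : Type) (_ : Fintype N) (G : NBP (Var2 n) N), G.SyntacticReadOnce ∧
      G.Computes (fun v => !hardF2 n v) ∧ Fintype.card N ≤ 5 * Fintype.card (Var2 n) ^ 2) ∧
    (∀ (N : Type) [Fintype N] (G : NBP (Var2 n) N) (r : ℕ),
      (r : ℝ) ≤ c * Real.sqrt (Fintype.card (Var2 n)) → G.FewRereads r → G.Computes (hardF2 n) →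
      (2 : ℝ) ^ (c * Real.sqrt (Fintype.card (Var2 n))) ≤ Fintype.card N) ∧
    (∃ (C : Fin (tt n) → Fin (kk n) → Bool → Fin n → Bool) (e : Fin (tt n) → Bool),
      (∃ (N : Type) (_ : Fintype N) (G : NBP (Fin n) N), G.SyntacticReadOnce ∧
        G.Computes (fun b => !QF C e b) ∧ Fintype.card N ≤ n ^ 4) ∧
      (∀ (N : Type) [Fintype N] (G : NBP (Fin n) N) (r : ℕ), (r : ℝ) ≤ c * n →
        (G.FewRereads r ∨ G.Short r) → G.Computes (QF C e) →
        (2 : ℝ) ^ (c * n) ≤ Fintype.card N)) := by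
  obtain ⟨c, hc, n0, h⟩ := hard3 (stmtCore3 stmtE2 Pool.Agent.Lib_helper45.SRO.stmtC
    Pool.Agent.Lib_helper45.SRO.stmtD Pool.Agent.Lib_helper39.SRO.stmtNum2) hB
  refine ⟨c, hc, max n0 16, ?_⟩
  intro n hn
  obtain ⟨h1, C, e, h2⟩ := h n ((le_max_left _ _).trans hn)
  have h16 : 16 ≤ n := (le_max_right _ _).trans hn
  refine ⟨Pool.Agent.Lib_helper45.SRO.stmtU2 n h16, h1, C, e,
    Pool.Agent.Lib_helper45.SRO.stmtU3 n h16 C e, ?_⟩
  intro N _ G r hr hG hcomp
  apply h2 N G r hr _ hcomp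
  rcases hG with hG | hG
  · exact hG
  · exact few_of_short hcomp (rigid_QF C e) hG

end Pool.Agent.Lib_helper20.SRO
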