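import Pool.Agent.Lib_helper20.SRO.Know2

namespace Pool.Agent.Lib_helper20.SRO

open Finset

variable {n : ℕ}

/-- No combinatorial rectangle: one of the two classes is small. -/
theorem rect_small {P : Finset (Fin n → Bool)} {L : (Fin n → Bool) → Fin n → Fin 5}
    {w : Fin 5 → ℕ} (hS : Sys P L w) {f : (Fin n → Bool) → Bool} {m : ℕ} (hf : RectFree f m)
    (hPf : ∀ b ∈ P, f b = true) (A : Finset (Fin 5)) {b : Fin n → Bool} (hb : b ∈ P) :
    (cls P L A b).card < m ∨ (cls P L Aᶜ b).card < m := by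
  by_contra hcon
  rw [not_or, not_lt, not_lt] at hcon
  obtain ⟨h1, h2⟩ := hcon
  set U := part L A b with hU
  let g : (Fin n → Bool) → (Fin n → Bool) := fun b' x => if x ∈ U then b' x else false
  let g' : (Fin n → Bool) → (Fin n → Bool) := fun b' x => if x ∈ U then false else b' x
  have hX : m ≤ ((cls P L Aᶜ b).image g).card := by
    rw [Finset.card_image_of_injOn]
    · exact h2
    · intro b1 hb1 b2 hb2 he
      have hb1 := mem_cls.1 (Finset.mem_coe.1 hb1)
      have hb2 := mem_cls.1 (Finset.mem_coe.1 hb2)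
      funext x
      by_cases hx : x ∈ U
      · have := congrFun he x
        simpa [g, hx] using this
      · have hx' : L b x ∈ Aᶜ := by
          rw [hU, mem_part] at hx
          simpa using hx
        rw [hb1.2 x hx', hb2.2 x hx']
  have hY : m ≤ ((cls P L A b).image g').card := by
    rw [Finset.card_image_of_injOn]
    · exact h1
    · intro b1 hb1 b2 hb2 he
      have hb1 := mem_cls.1 (Finset.mem_coe.1 hb1)
      have hb2 := mem_cls.1 (Finset.mem_coe.1 hb2)
      funext x
      by_cases hx : x ∈ U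
      · rw [hU, mem_part] at hx
        rw [hb1.2 x hx, hb2.2 x hx]
      · have := congrFun he x
        simpa [g', hx] using this
  obtain ⟨a, ha, a', ha', hfa⟩ := hf U _ _ (by
      intro a ha x hx
      obtain ⟨b', _, rfl⟩ := Finset.mem_image.1 ha
      simp [g, hx]) (by
      intro a ha x hx
      obtain ⟨b', _, rfl⟩ := Finset.mem_image.1 ha
      simp [g', hx]) hX hY
  obtain ⟨b1, hb1, rfl⟩ := Finset.mem_image.1 ha
  obtain ⟨b2, hb2, rfl⟩ := Finset.mem_image.1 ha'
  have s1 := cls_same hS hb hb1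
  have s2 := cls_same hS hb hb2
  have hb1P := (mem_cls.1 hb1).1
  have hb2P := (mem_cls.1 hb2).1
  have s1' : ∀ x, L b1 x ∈ A ↔ L b x ∈ A := by
    intro x
    have := s1 x
    simp only [Finset.mem_compl] at this
    exact (not_iff_not.1 this).symm
  have hmix := (hS.mix b1 hb1P b2 hb2P A (fun x hx hx' => absurd ((s2 x).1 ((s1' x).1 hx)) hx')).2.1
  have := hPf _ hmix
  have heq : (fun x => if L b1 x ∈ A then b1 x else b2 x) =
      (fun x => if x ∈ U then g b1 x else g' b2 x) := by
    funext x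
    by_cases hx : x ∈ U
    · have hx' : L b1 x ∈ A := (s1' x).2 (mem_part.1 (hU ▸ hx))
      simp [g, hx, hx']
    · have hx' : L b1 x ∉ A := fun h => hx (hU ▸ mem_part.2 ((s1' x).1 h))
      simp [g', hx, hx']
  rw [heq, hfa] at this
  exact Bool.false_ne_true this

/-- the hybrid of `b'` (on the `A`-part) and `b` -/
lemma hyb_mem {P : Finset (Fin n → Bool)} {L : (Fin n → Bool) → Fin n → Fin 5} {w : Fin 5 → ℕ}
    (hS : Sys P L w) {A : Finset (Fin 5)} {b b' : Fin n → Bool} (hb : b ∈ P) (hb' : b' ∈ P)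
    (h : ∀ x, L b' x ∈ A ↔ L b x ∈ A) :
    (fun x => if L b x ∈ A then b' x else b x) ∈ cls P L Aᶜ b := by
  have hmix := (hS.mix b' hb' b hb A (fun x hx hx' => absurd ((h x).1 hx) hx')).2.1
  rw [mem_cls]
  constructor
  · have : (fun x => if L b x ∈ A then b' x else b x) = (fun x => if L b' x ∈ A then b' x else b x) := by
      funext x
      by_cases hx : L b x ∈ A
      · rw [if_pos hx, if_pos ((h x).2 hx)]
      · rw [if_neg hx, if_neg (fun hh => hx ((h x).1 hh))]
    rw [this]
    exact hmix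
  · intro x hx
    rw [Finset.mem_compl] at hx
    simp [hx]

/-- Inputs with the same parts inject into a product of classes. -/
theorem inj_card {P : Finset (Fin n → Bool)} {L : (Fin n → Bool) → Fin n → Fin 5} {w : Fin 5 → ℕ}
    (hS : Sys P L w) (A : Fin 4 → Finset (Fin 5)) (hA : ∀ k, ∃ t, k ∈ A t) {b : Fin n → Bool}
    (hb : b ∈ P) :
    (P.filter (fun b' => ∀ t, part L (A t) b' = part L (A t) b)).card ≤
      ∏ t, (cls P L (A t)ᶜ b).card := by
  rw [← Fintype.card_piFinset]
  apply Finset.card_le_card_of_injOn (fun b' t => fun x => if L b x ∈ A t then b' x else b x)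
  · intro b' hb'
    rw [Finset.mem_coe, mem_filter] at hb'
    rw [Finset.mem_coe, Fintype.mem_piFinset]
    intro t
    apply hyb_mem hS hb hb'.1
    intro x
    rw [← mem_part, ← mem_part, hb'.2 t]
  · intro b1 _ b2 _ he
    funext x
    obtain ⟨t, ht⟩ := hA (L b x)
    have := congrFun (congrFun he t) x
    simpa [ht] using this

open Classical in
/-- the exceptional set -/
noncomputable def Bad (P : Finset (Fin n → Bool)) (L : (Fin n → Bool) → Fin n → Fin 5)
    (w : Fin 5 → ℕ) (m : ℕ) (y : ℝ) : Finset (Fin n → Bool) :=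
  P.filter (fun b => ∃ A : Finset (Fin 5), ((∑ j ∈ A, w j : ℕ) : ℝ) ≤ n * (1 - y) / 2 ∧
    m ≤ (cls P L Aᶜ b).card)

theorem card_Bad {P : Finset (Fin n → Bool)} {L : (Fin n → Bool) → Fin n → Fin 5}
    {w : Fin 5 → ℕ} (hS : Sys P L w) {f : (Fin n → Bool) → Bool} {m : ℕ} (hm : 1 ≤ m)
    (hf : RectFree f m) (hPf : ∀ b ∈ P, f b = true) {y : ℝ} (hy0 : 0 < y) (hy : y ≤ 1 / 2) :
    ((Bad P L w m y).card : ℝ) ≤ 32 * (m * (2 ^ n * Real.exp (-(n * y ^ 2 / 5)))) := by
  classical
  set E : ℝ := m * (2 ^ n * Real.exp (-(n * y ^ 2 / 5))) with hE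
  have hE0 : 0 ≤ E := by positivity
  have hsub : Bad P L w m y ⊆ (univ : Finset (Finset (Fin 5))).biUnion (fun A =>
      if ((∑ j ∈ A, w j : ℕ) : ℝ) ≤ n * (1 - y) / 2 then
        P.filter (fun b => (cls P L A b).card < m) else ∅) := by
    intro b hb
    unfold Bad at hb
    rw [mem_filter] at hb
    obtain ⟨hbP, A, hA, hcard⟩ := hb
    rw [mem_biUnion]
    refine ⟨A, mem_univ _, ?_⟩
    rw [if_pos hA, mem_filter]
    refine ⟨hbP, ?_⟩
    rcases rect_small hS hf hPf A hbP with h | h
    · exact h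
    · omega
  calc ((Bad P L w m y).card : ℝ) ≤ (((univ : Finset (Finset (Fin 5))).biUnion (fun A =>
      if ((∑ j ∈ A, w j : ℕ) : ℝ) ≤ n * (1 - y) / 2 then
        P.filter (fun b => (cls P L A b).card < m) else ∅)).card : ℝ) := by
          exact_mod_cast Finset.card_le_card hsub
    _ ≤ ∑ A : Finset (Fin 5), ((if ((∑ j ∈ A, w j : ℕ) : ℝ) ≤ n * (1 - y) / 2 then
        P.filter (fun b => (cls P L A b).card < m) else ∅).card : ℝ) := by
          exact_mod_cast Finset.card_biUnion_le
    _ ≤ ∑ A : Finset (Fin 5), E := by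
          refine Finset.sum_le_sum (fun A _ => ?_)
          split_ifs with hA
          · exact bad_card hS A hy0 hy hA hm
          · simpa using hE0
    _ = 32 * E := by
          rw [Finset.sum_const, nsmul_eq_mul]
          simp

lemma not_Bad {P : Finset (Fin n → Bool)} {L : (Fin n → Bool) → Fin n → Fin 5}
    {w : Fin 5 → ℕ} {m : ℕ} {y : ℝ} {b : Fin n → Bool} (hb : b ∈ P) (hbad : b ∉ Bad P L w m y)
    {A : Finset (Fin 5)} (hA : ((∑ j ∈ A, w j : ℕ) : ℝ) ≤ n * (1 - y) / 2) :
    (cls P L Aᶜ b).card ≤ m := by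
  by_contra h
  apply hbad
  unfold Bad
  rw [mem_filter]
  exact ⟨hb, A, hA, by omega⟩

lemma Bad_subset {P : Finset (Fin n → Bool)} {L : (Fin n → Bool) → Fin n → Fin 5}
    {w : Fin 5 → ℕ} {m : ℕ} {y : ℝ} : Bad P L w m y ⊆ P := by
  unfold Bad
  exact Finset.filter_subset _ _

end Pool.Agent.Lib_helper20.SRO
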