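import Pool.Agent.Lib_helper20.SRO.Ent

namespace Pool.Agent.Lib_helper20.SRO

open Finset

variable {n : ℕ}

/-- the widths of the phases -/
structure Widths (n : ℕ) (w : Fin 5 → ℕ) (w' w0 : ℕ) (y : ℝ) : Prop where
  eq : ∀ i : Fin 5, i ≠ 4 → w i = w'
  four : w 4 = w0
  sum : 4 * w' + w0 = n
  low : y * n ≤ w0
  high : (w0 : ℝ) ≤ n * (1 - y) / 2

/-- The parts of the labels `i`, `j`, `4` leave few possibilities. -/
theorem same_card {P : Finset (Fin n → Bool)} {L : (Fin n → Bool) → Fin n → Fin 5} {w : Fin 5 → ℕ}
    (hS : Sys P L w) {m w' w0 : ℕ} {y : ℝ} (hw : Widths n w w' w0 y)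
    {i j : Fin 5} (hij : i ≠ j) (hi : i ≠ 4) (hj : j ≠ 4) {b : Fin n → Bool} (hb : b ∈ P)
    (hbad : b ∉ Bad P L w m y) :
    (P.filter (fun b' => (part L {i} b', part L {j} b') = (part L {i} b, part L {j} b) ∧
      part L {4} b' = part L {4} b)).card ≤ m ^ 4 := by
  let A : Fin 4 → Finset (Fin 5) := ![{i}, {j}, {4}, {i, j, 4}ᶜ]
  have hcov : ∀ k, ∃ t, k ∈ A t := by
    intro k
    by_cases h : k ∈ ({i, j, 4} : Finset (Fin 5))
    · rw [mem_insert, mem_insert, mem_singleton] at h
      rcases h with h | h | h
      · exact ⟨0, by simp [A, h]⟩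
      · exact ⟨1, by simp [A, h]⟩
      · exact ⟨2, by simp [A, h]⟩
    · exact ⟨3, by simpa [A] using h⟩
  have hn0 : (0 : ℝ) ≤ n := Nat.cast_nonneg n
  have hsum : (4 : ℝ) * w' + w0 = n := by exact_mod_cast hw.sum
  have hlow := hw.low
  have hhigh := hw.high
  have hW : ∀ t, ((∑ k ∈ A t, w k : ℕ) : ℝ) ≤ n * (1 - y) / 2 := by
    intro t
    have hw1 : (w' : ℝ) ≤ n * (1 - y) / 2 := by
      have h0 : (0 : ℝ) ≤ w' := Nat.cast_nonneg _
      nlinarith
    fin_cases t
    · have : ∑ k ∈ A 0, w k = w' := by simp [A, hw.eq i hi]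
      show ((∑ k ∈ A 0, w k : ℕ) : ℝ) ≤ _
      rw [this]; exact hw1
    · have : ∑ k ∈ A 1, w k = w' := by simp [A, hw.eq j hj]
      show ((∑ k ∈ A 1, w k : ℕ) : ℝ) ≤ _
      rw [this]; exact hw1
    · have : ∑ k ∈ A 2, w k = w0 := by simp [A, hw.four]
      show ((∑ k ∈ A 2, w k : ℕ) : ℝ) ≤ _
      rw [this]; exact hhigh
    · have h1 : ∑ k ∈ A 3, w k + ∑ k ∈ ({i, j, 4} : Finset (Fin 5)), w k = ∑ k, w k := by
        have := Finset.sum_compl_add_sum ({i, j, 4} : Finset (Fin 5)) w
        exact this
      have h2 : ∑ k ∈ ({i, j, 4} : Finset (Fin 5)), w k = w' + (w' + w0) := by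
        rw [Finset.sum_insert (by simp [hij, hi]), Finset.sum_insert (by simp [hj]),
          Finset.sum_singleton, hw.eq i hi, hw.eq j hj, hw.four]
      have h3 : ∑ k, w k = n := by
        rw [Fin.sum_univ_five, hw.eq 0 (by decide), hw.eq 1 (by decide), hw.eq 2 (by decide),
          hw.eq 3 (by decide), hw.four]
        have := hw.sum
        omega
      have h4 : ∑ k ∈ A 3, w k = 2 * w' := by
        have := hw.sum
        omega
      show ((∑ k ∈ A 3, w k : ℕ) : ℝ) ≤ _
      rw [h4]
      push_cast
      linarith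
  calc (P.filter (fun b' => (part L {i} b', part L {j} b') = (part L {i} b, part L {j} b) ∧
      part L {4} b' = part L {4} b)).card
      ≤ (P.filter (fun b' => ∀ t, part L (A t) b' = part L (A t) b)).card := by
        apply Finset.card_le_card
        intro b' hb'
        rw [mem_filter, Prod.mk.injEq] at hb'
        obtain ⟨hP, ⟨h1, h2⟩, h3⟩ := hb'
        rw [mem_filter]
        refine ⟨hP, fun t => ?_⟩
        fin_cases t
        · exact h1
        · exact h2
        · exact h3
        · show part L (A 3) b' = part L (A 3) b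
          ext x
          rw [mem_part, mem_part]
          simp only [A, Matrix.cons_val, mem_compl, mem_insert, mem_singleton, not_or]
          have e1 : L b' x = i ↔ L b x = i := by
            have : x ∈ part L {i} b' ↔ x ∈ part L {i} b := by rw [h1]
            simpa [mem_part] using this
          have e2 : L b' x = j ↔ L b x = j := by
            have : x ∈ part L {j} b' ↔ x ∈ part L {j} b := by rw [h2]
            simpa [mem_part] using this
          have e3 : L b' x = 4 ↔ L b x = 4 := by
            have : x ∈ part L {4} b' ↔ x ∈ part L {4} b := by rw [h3]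
            simpa [mem_part] using this
          rw [e1, e2, e3]
    _ ≤ ∏ t, (cls P L (A t)ᶜ b).card := inj_card hS A hcov hb
    _ ≤ ∏ t : Fin 4, m := Finset.prod_le_prod' (fun t _ => not_Bad hb hbad (hW t))
    _ = m ^ 4 := by simp

/-- The mutual information of the label sets `i`, `j` is small. -/
theorem info_le {P : Finset (Fin n → Bool)} {L : (Fin n → Bool) → Fin n → Fin 5} {w : Fin 5 → ℕ}
    (hS : Sys P L w) (hP : P.Nonempty) {m w' w0 : ℕ} {y d ε : ℝ} (hy0 : 0 < y)
    (hy : y ≤ 1 / 4) (hw : Widths n w w' w0 y) (hd0 : 0 ≤ d)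
    (hd : n * Real.log 2 - d ≤ Real.log P.card)
    (hbad : ((Bad P L w m y).card : ℝ) ≤ ε * P.card)
    {i j : Fin 5} (hij : i ≠ j) (hi : i ≠ 4) (hj : j ≠ 4) :
    ∑ b ∈ P, Real.log (NP2 P L i j n b * P.card / (NP P L i n b * NP P L j n b)) ≤
      (Real.log 2 * (w0 + 2 * y * n) + 3 * d / y + d + 4 * Real.log m + ε * n * Real.log 2) *
        P.card := by
  have hp : (0 : ℝ) < P.card := by exact_mod_cast Finset.card_pos.2 hP
  have hn0 : (0 : ℝ) ≤ n := Nat.cast_nonneg n
  have hl2 : 0 < Real.log 2 := Real.log_pos (by norm_num)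
  have hsum : (4 : ℝ) * w' + w0 = n := by exact_mod_cast hw.sum
  have hw'0 : (0 : ℝ) ≤ w' := Nat.cast_nonneg _
  have hw00 : (0 : ℝ) ≤ w0 := Nat.cast_nonneg _
  have hlm : 0 ≤ Real.log m := Real.log_natCast_nonneg m
  -- expansion
  have e1 : ∀ b ∈ P, Real.log (NP2 P L i j n b * P.card / (NP P L i n b * NP P L j n b)) =
      Real.log (P.filter (fun b' => (part L {i} b', part L {j} b') =
        (part L {i} b, part L {j} b))).card + Real.log P.card -
      Real.log (P.filter (fun b' => part L {i} b' = part L {i} b)).card -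
      Real.log (P.filter (fun b' => part L {j} b' = part L {j} b)).card := by
    intro b hb
    rw [NP2_eq, NP_eq, NP_eq]
    have h1 : (0 : ℝ) < (P.filter (fun b' => (part L {i} b', part L {j} b') =
        (part L {i} b, part L {j} b))).card := by
      have : 0 < (P.filter (fun b' => (part L {i} b', part L {j} b') =
        (part L {i} b, part L {j} b))).card := Finset.card_pos.2 ⟨b, by simp [hb]⟩
      exact_mod_cast this
    have h2 : (0 : ℝ) < (P.filter (fun b' => part L {i} b' = part L {i} b)).card := by
      have : 0 < (P.filter (fun b' => part L {i} b' = part L {i} b)).card :=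
        Finset.card_pos.2 ⟨b, by simp [hb]⟩
      exact_mod_cast this
    have h3 : (0 : ℝ) < (P.filter (fun b' => part L {j} b' = part L {j} b)).card := by
      have : 0 < (P.filter (fun b' => part L {j} b' = part L {j} b)).card :=
        Finset.card_pos.2 ⟨b, by simp [hb]⟩
      exact_mod_cast this
    rw [Real.log_div (by positivity) (by positivity), Real.log_mul h1.ne' hp.ne',
      Real.log_mul h2.ne' h3.ne']
    ring
  rw [Finset.sum_congr rfl e1, Finset.sum_sub_distrib, Finset.sum_sub_distrib,
    Finset.sum_add_distrib, Finset.sum_const, nsmul_eq_mul]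
  have s1 := subadd P hP (fun b => (part L {i} b, part L {j} b)) (fun b => part L {4} b)
  -- three parts
  have hWle : ∀ k : Fin 5, (∑ l ∈ ({k} : Finset (Fin 5)), w l) ≤ n := by
    intro k
    rw [Finset.sum_singleton]
    by_cases hk : k = 4
    · rw [hk, hw.four]; have := hw.sum; omega
    · rw [hw.eq k hk]; have := hw.sum; omega
  have c4 := ent_le hS hP {4} hy0 hy (hWle 4) hd0 hd
  have ci := ent_le hS hP {i} hy0 hy (hWle i) hd0 hd
  have cj := ent_le hS hP {j} hy0 hy (hWle j) hd0 hd
  rw [Finset.sum_singleton, hw.four] at c4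
  rw [Finset.sum_singleton, hw.eq i hi] at ci
  rw [Finset.sum_singleton, hw.eq j hj] at cj
  have g4 := Finset.sum_le_sum (fun b hb => NP_ge hS 4 (b := b) hb)
  have gi := Finset.sum_le_sum (fun b hb => NP_ge hS i (b := b) hb)
  have gj := Finset.sum_le_sum (fun b hb => NP_ge hS j (b := b) hb)
  -- the exceptional set
  have s2 : ∑ b ∈ P, Real.log (P.filter (fun b' => (part L {i} b', part L {j} b') =
      (part L {i} b, part L {j} b) ∧ part L {4} b' = part L {4} b)).card ≤
      P.card * (4 * Real.log m) + (Bad P L w m y).card * (n * Real.log 2) := by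
    calc _ ≤ ∑ b ∈ P, (4 * Real.log m + if b ∈ Bad P L w m y then n * Real.log 2 else 0) := by
          refine Finset.sum_le_sum (fun b hb => ?_)
          have hpos : 0 < (P.filter (fun b' => (part L {i} b', part L {j} b') =
              (part L {i} b, part L {j} b) ∧ part L {4} b' = part L {4} b)).card :=
            Finset.card_pos.2 ⟨b, by simp [hb]⟩
          by_cases hB : b ∈ Bad P L w m y
          · rw [if_pos hB]
            have h1 : (P.filter (fun b' => (part L {i} b', part L {j} b') =
              (part L {i} b, part L {j} b) ∧ part L {4} b' = part L {4} b)).card ≤ 2 ^ n := by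
              have := Finset.card_le_univ (P.filter (fun b' => (part L {i} b', part L {j} b') =
              (part L {i} b, part L {j} b) ∧ part L {4} b' = part L {4} b))
              simpa using this
            have h2 : Real.log ((P.filter (fun b' => (part L {i} b', part L {j} b') =
              (part L {i} b, part L {j} b) ∧ part L {4} b' = part L {4} b)).card : ℝ) ≤
              Real.log ((2 : ℝ) ^ n) := by
              apply Real.log_le_log (by exact_mod_cast hpos)
              exact_mod_cast h1
            rw [Real.log_pow] at h2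
            linarith
          · rw [if_neg hB, add_zero]
            have h1 := same_card hS hw hij hi hj hb hB
            have h2 : Real.log ((P.filter (fun b' => (part L {i} b', part L {j} b') =
              (part L {i} b, part L {j} b) ∧ part L {4} b' = part L {4} b)).card : ℝ) ≤
              Real.log ((m : ℝ) ^ 4) := by
              apply Real.log_le_log (by exact_mod_cast hpos)
              exact_mod_cast h1
            rw [Real.log_pow] at h2
            push_cast at h2
            exact h2
      _ = _ := by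
          rw [Finset.sum_add_distrib, Finset.sum_const, nsmul_eq_mul, ← Finset.sum_filter,
            Finset.sum_const, nsmul_eq_mul]
          congr 3
          congr 1
          ext b
          rw [mem_filter]
          exact ⟨fun h => h.2, fun h => ⟨Bad_subset h, h⟩⟩
  have s3 : ((Bad P L w m y).card : ℝ) * (n * Real.log 2) ≤ ε * P.card * (n * Real.log 2) :=
    mul_le_mul_of_nonneg_right hbad (by positivity)
  have s4 : (P.card : ℝ) * (n * Real.log 2 - d) ≤ P.card * Real.log P.card :=
    mul_le_mul_of_nonneg_left hd hp.le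
  -- the arithmetic
  have hw0n : (w0 : ℝ) ≤ n := by linarith
  have s5 : 2 * Real.log 2 * w0 * (1 + y) + 2 * (2 * Real.log 2 * w' * (1 + y)) - n * Real.log 2 ≤
      Real.log 2 * (w0 + 2 * y * n) := by
    have : 2 * Real.log 2 * w0 * (1 + y) + 2 * (2 * Real.log 2 * w' * (1 + y)) - n * Real.log 2 =
        Real.log 2 * (w0 + y * n + y * w0) := by
      rw [← hsum]; ring
    rw [this]
    apply mul_le_mul_of_nonneg_left _ hl2.le
    nlinarith
  have s6 : (P.card : ℝ) * (2 * Real.log 2 * w0 * (1 + y) + 2 * (2 * Real.log 2 * w' * (1 + y)) -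
      n * Real.log 2) ≤ P.card * (Real.log 2 * (w0 + 2 * y * n)) :=
    mul_le_mul_of_nonneg_left s5 hp.le
  have s7 : (P.card : ℝ) * (3 * d / y) = 3 * (P.card * (d / y)) := by ring
  nlinarith

end Pool.Agent.Lib_helper20.SRO
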