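import Pool.Agent.Lib_helper20.SRO.ModA

namespace Pool.Agent.Lib_helper20.SRO

open Finset

variable {n : ℕ}

/-- the inputs of `P` that agree with `b` on the `A`-part of `b` -/
def cls (P : Finset (Fin n → Bool)) (L : (Fin n → Bool) → Fin n → Fin 5) (A : Finset (Fin 5))
    (b : Fin n → Bool) : Finset (Fin n → Bool) :=
  P.filter (fun b' => ∀ x, L b x ∈ A → b' x = b x)

/-- the `A`-part of the coordinates -/
def part (L : (Fin n → Bool) → Fin n → Fin 5) (A : Finset (Fin 5)) (b : Fin n → Bool) :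
    Finset (Fin n) := univ.filter (fun x => L b x ∈ A)

lemma mem_part {L : (Fin n → Bool) → Fin n → Fin 5} {A : Finset (Fin 5)} {b : Fin n → Bool}
    {x : Fin n} : x ∈ part L A b ↔ L b x ∈ A := by simp [part]

lemma mem_cls {P : Finset (Fin n → Bool)} {L : (Fin n → Bool) → Fin n → Fin 5}
    {A : Finset (Fin 5)} {b b' : Fin n → Bool} :
    b' ∈ cls P L A b ↔ b' ∈ P ∧ ∀ x, L b x ∈ A → b' x = b x := by simp [cls]

lemma self_mem_cls {P : Finset (Fin n → Bool)} {L : (Fin n → Bool) → Fin n → Fin 5}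
    {A : Finset (Fin 5)} {b : Fin n → Bool} (hb : b ∈ P) : b ∈ cls P L A b :=
  mem_cls.2 ⟨hb, fun _ _ => rfl⟩

lemma card_part {P : Finset (Fin n → Bool)} {L : (Fin n → Bool) → Fin n → Fin 5} {w : Fin 5 → ℕ}
    (hS : Sys P L w) (A : Finset (Fin 5)) {b : Fin n → Bool} (hb : b ∈ P) :
    (part L A b).card = ∑ j ∈ A, w j := by
  rw [part, Finset.card_eq_sum_card_fiberwise (f := fun x => L b x) (t := A)]
  · refine Finset.sum_congr rfl (fun j hj => ?_)
    rw [← hS.card b hb j]
    congr 1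
    ext x
    simp only [mem_filter, mem_univ, true_and]
    constructor
    · rintro ⟨_, h⟩; exact h
    · intro h; exact ⟨h ▸ hj, h⟩
  · intro x hx
    simpa using hx

lemma cls_same {P : Finset (Fin n → Bool)} {L : (Fin n → Bool) → Fin n → Fin 5} {w : Fin 5 → ℕ}
    (hS : Sys P L w) {A : Finset (Fin 5)} {b b' : Fin n → Bool} (hb : b ∈ P)
    (hb' : b' ∈ cls P L A b) : ∀ x, L b x ∈ A ↔ L b' x ∈ A := by
  rw [mem_cls] at hb'
  exact (hS.mix b hb b' hb'.1 A (fun x hx _ => (hb'.2 x hx).symm)).1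

lemma cls_eq {P : Finset (Fin n → Bool)} {L : (Fin n → Bool) → Fin n → Fin 5} {w : Fin 5 → ℕ}
    (hS : Sys P L w) {A : Finset (Fin 5)} {b b' : Fin n → Bool} (hb : b ∈ P)
    (hb' : b' ∈ cls P L A b) : cls P L A b' = cls P L A b := by
  have h := cls_same hS hb hb'
  rw [mem_cls] at hb'
  ext c
  rw [mem_cls, mem_cls]
  refine and_congr_right (fun _ => forall_congr' (fun x => ?_))
  rw [← h x]
  constructor
  · intro hh hx
    rw [hh hx, hb'.2 x hx]
  · intro hh hx
    rw [hh hx, hb'.2 x hx]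

lemma part_eq {P : Finset (Fin n → Bool)} {L : (Fin n → Bool) → Fin n → Fin 5} {w : Fin 5 → ℕ}
    (hS : Sys P L w) {A : Finset (Fin 5)} {b b' : Fin n → Bool} (hb : b ∈ P)
    (hb' : b' ∈ cls P L A b) : part L A b' = part L A b := by
  ext x
  rw [mem_part, mem_part, cls_same hS hb hb' x]

/-- two inputs compatible with the same world are in the same class -/
lemma comp_cls {P : Finset (Fin n → Bool)} {L : (Fin n → Bool) → Fin n → Fin 5} {w : Fin 5 → ℕ}
    (hS : Sys P L w) {A : Finset (Fin 5)} {b b' : Fin n → Bool} (hb : b ∈ P) (hb' : b' ∈ P)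
    {ω : Fin n → Option Bool} (h : Comp (part L A b) b ω) (h' : Comp (part L A b') b' ω) :
    b' ∈ cls P L A b := by
  have hsame : ∀ x, L b x ∈ A ↔ L b' x ∈ A := by
    refine (hS.mix b hb b' hb' A (fun x hx hx' => ?_)).1
    have h1 := (h x).1 (mem_part.2 hx)
    have h2 := (h' x).2 (fun hh => hx' (mem_part.1 hh))
    rw [h1] at h2
    simpa using h2
  rw [mem_cls]
  refine ⟨hb', fun x hx => ?_⟩
  have h1 := (h x).1 (mem_part.2 hx)
  have h2 := (h' x).1 (mem_part.2 ((hsame x).1 hx))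
  rw [h1] at h2
  simpa using h2.symm

lemma sum_wt (q : ℝ) : ∑ ω : Fin n → Option Bool, wt q ω = 1 := by
  unfold wt
  have h := (Finset.prod_univ_sum (fun _ : Fin n => (univ : Finset (Option Bool)))
    (fun (_ : Fin n) (o : Option Bool) => if o = none then 1 - 2 * q else q))
  rw [Fintype.piFinset_univ] at h
  rw [← h]
  apply Finset.prod_eq_one
  intro x _
  rw [Fintype.sum_option, Fintype.sum_bool]
  simp
  ring

open Classical in
/-- Knowledge inequality. -/
theorem know_sum {P : Finset (Fin n → Bool)} {L : (Fin n → Bool) → Fin n → Fin 5}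
    {w : Fin 5 → ℕ} (hS : Sys P L w) (A : Finset (Fin 5)) {q θ : ℝ} (hq0 : 0 < q)
    (hq : q ≤ 1 / 2) (hθ0 : 0 < θ) (hθ1 : θ ≤ 1) (hθ : (2 : ℝ) ^ (-θ) = 1 - q) :
    q ^ (∑ j ∈ A, w j) * (1 - q) ^ (n - ∑ j ∈ A, w j) *
      (∑ b ∈ P, ((cls P L A b).card : ℝ) ^ (θ - 1)) ≤ 1 := by
  set C : ℝ := q ^ (∑ j ∈ A, w j) * (1 - q) ^ (n - ∑ j ∈ A, w j) with hC
  have hN : ∀ b ∈ P, 0 < ((cls P L A b).card : ℝ) := by
    intro b hb
    have : 0 < (cls P L A b).card := Finset.card_pos.2 ⟨b, self_mem_cls hb⟩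
    exact_mod_cast this
  -- the event of the class of b
  let Ev : (Fin n → Bool) → (Fin n → Option Bool) → Prop := fun b ω =>
    ∃ b' ∈ cls P L A b, Comp (part L A b) b' ω
  have step1 : ∀ b ∈ P, C * ((cls P L A b).card : ℝ) ^ (θ - 1) ≤
      ∑ ω : Fin n → Option Bool, if Ev b ω then wt q ω * (1 / ((cls P L A b).card : ℝ)) else 0 := by
    intro b hb
    have h := stmtA n q θ hq0 hq hθ0 hθ1 hθ (part L A b) (cls P L A b)
    rw [card_part hS A hb, ← hC, Finset.sum_filter] at h
    have h2 := mul_le_mul_of_nonneg_right h (one_div_pos.2 (hN b hb)).le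
    rw [Finset.sum_mul] at h2
    calc C * ((cls P L A b).card : ℝ) ^ (θ - 1)
        = C * ((cls P L A b).card : ℝ) ^ θ * (1 / ((cls P L A b).card : ℝ)) := by
          rw [Real.rpow_sub_one (hN b hb).ne']; ring
      _ ≤ _ := h2
      _ = _ := by
          refine Finset.sum_congr rfl (fun ω _ => ?_)
          split_ifs <;> simp
  have step2 : ∀ ω : Fin n → Option Bool,
      ∑ b ∈ P, (if Ev b ω then wt q ω * (1 / ((cls P L A b).card : ℝ)) else 0) ≤ wt q ω := by
    intro ω
    rw [← Finset.sum_filter, ← Finset.mul_sum]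
    have hw : 0 ≤ wt q ω := wt_nonneg hq0 hq ω
    have : ∑ b ∈ P.filter (fun b => Ev b ω), (1 / ((cls P L A b).card : ℝ)) ≤ 1 := by
      rcases (P.filter (fun b => Ev b ω)).eq_empty_or_nonempty with h | ⟨b0, hb0⟩
      · rw [h]; simp
      · rw [mem_filter] at hb0
        obtain ⟨hb0P, c0, hc0, hcomp0⟩ := hb0
        have hc0P : c0 ∈ P := (mem_cls.1 hc0).1
        have hall : ∀ b ∈ P.filter (fun b => Ev b ω), b ∈ cls P L A b0 := by
          intro b hb
          rw [mem_filter] at hb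
          obtain ⟨hbP, c, hc, hcomp⟩ := hb
          have hcP : c ∈ P := (mem_cls.1 hc).1
          rw [← part_eq hS hb0P hc0] at hcomp0
          rw [← part_eq hS hbP hc] at hcomp
          have h1 := comp_cls hS hc0P hcP hcomp0 hcomp
          -- b ~ c ~ c0 ~ b0
          have e1 := cls_eq hS hb0P hc0
          have e2 := cls_eq hS hc0P h1
          have e3 := cls_eq hS hbP hc
          rw [← e1, ← e2, e3]
          exact self_mem_cls hbP
        calc ∑ b ∈ P.filter (fun b => Ev b ω), (1 / ((cls P L A b).card : ℝ))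
            = ∑ b ∈ P.filter (fun b => Ev b ω), (1 / ((cls P L A b0).card : ℝ)) := by
              refine Finset.sum_congr rfl (fun b hb => ?_)
              rw [cls_eq hS hb0P (hall b hb)]
          _ = ((P.filter (fun b => Ev b ω)).card : ℝ) * (1 / ((cls P L A b0).card : ℝ)) := by
              rw [Finset.sum_const, nsmul_eq_mul]
          _ ≤ ((cls P L A b0).card : ℝ) * (1 / ((cls P L A b0).card : ℝ)) := by
              have : (P.filter (fun b => Ev b ω)).card ≤ (cls P L A b0).card :=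
                Finset.card_le_card (fun b hb => hall b hb)
              have : ((P.filter (fun b => Ev b ω)).card : ℝ) ≤ ((cls P L A b0).card : ℝ) := by
                exact_mod_cast this
              exact mul_le_mul_of_nonneg_right this (one_div_pos.2 (hN b0 hb0P)).le
          _ = 1 := by
              rw [mul_one_div_cancel (hN b0 hb0P).ne']
    calc wt q ω * ∑ b ∈ P.filter (fun b => Ev b ω), (1 / ((cls P L A b).card : ℝ))
        ≤ wt q ω * 1 := mul_le_mul_of_nonneg_left this hw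
      _ = wt q ω := mul_one _
  calc C * ∑ b ∈ P, ((cls P L A b).card : ℝ) ^ (θ - 1)
      = ∑ b ∈ P, C * ((cls P L A b).card : ℝ) ^ (θ - 1) := by rw [Finset.mul_sum]
    _ ≤ ∑ b ∈ P, ∑ ω : Fin n → Option Bool,
          (if Ev b ω then wt q ω * (1 / ((cls P L A b).card : ℝ)) else 0) :=
        Finset.sum_le_sum step1
    _ = ∑ ω : Fin n → Option Bool, ∑ b ∈ P,
          (if Ev b ω then wt q ω * (1 / ((cls P L A b).card : ℝ)) else 0) := Finset.sum_comm
    _ ≤ ∑ ω : Fin n → Option Bool, wt q ω := Finset.sum_le_sum (fun ω _ => step2 ω)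
    _ = 1 := sum_wt q

end Pool.Agent.Lib_helper20.SRO
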