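import Pool.Agent.Lib_helper20.SRO.Know

namespace Pool.Agent.Lib_helper20.SRO

open Finset

variable {n : ℕ}

lemma log_one_sub_ge {y : ℝ} (hy : y < 1) : -(y / (1 - y)) ≤ Real.log (1 - y) := by
  have h := Real.one_sub_inv_le_log_of_pos (show 0 < 1 - y by linarith)
  have : 1 - (1 - y)⁻¹ = -(y / (1 - y)) := by
    have : (1 - y) ≠ 0 := by linarith
    field_simp
    ring
  linarith

lemma log_one_add_ge {y : ℝ} (hy : 0 ≤ y) : 2 * y / (y + 2) ≤ Real.log (1 + y) :=
  Real.le_log_one_add_of_nonneg hy

/-- the exponent `θ` that belongs to `q = (1 - y) / 2` -/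
noncomputable def th (y : ℝ) : ℝ := 1 - Real.log (1 + y) / Real.log 2

lemma th_spec {y : ℝ} (hy0 : 0 < y) (hy : y ≤ 1 / 2) :
    0 < th y ∧ th y ≤ 1 ∧ (2 : ℝ) ^ (-(th y)) = 1 - (1 - y) / 2 := by
  have h2 : 0 < Real.log 2 := Real.log_pos (by norm_num)
  have h1 : 0 ≤ Real.log (1 + y) := Real.log_nonneg (by linarith)
  refine ⟨?_, ?_, ?_⟩
  · unfold th
    have : Real.log (1 + y) < Real.log 2 := Real.log_lt_log (by linarith) (by linarith)
    have := (div_lt_one h2).2 this
    linarith
  · unfold th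
    have := div_nonneg h1 h2.le
    linarith
  · have hpos : (0 : ℝ) < 1 - (1 - y) / 2 := by linarith
    rw [← Real.exp_log hpos, Real.rpow_def_of_pos (by norm_num)]
    congr 1
    have : (1 - (1 - y) / 2) = (1 + y) / 2 := by ring
    rw [this, Real.log_div (by linarith) (by norm_num)]
    unfold th
    field_simp
    ring

lemma log_C {q : ℝ} (hq0 : 0 < q) (hq1 : q < 1) (W k : ℕ) :
    Real.log (q ^ W * (1 - q) ^ k) = W * Real.log q + k * Real.log (1 - q) := by
  rw [Real.log_mul (by positivity) (pow_ne_zero _ (by linarith)), Real.log_pow, Real.log_pow]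

/-- Few inputs have a small class, if the part has measure less than one half. -/
theorem bad_card {P : Finset (Fin n → Bool)} {L : (Fin n → Bool) → Fin n → Fin 5}
    {w : Fin 5 → ℕ} (hS : Sys P L w) (A : Finset (Fin 5)) {y : ℝ} (hy0 : 0 < y) (hy : y ≤ 1 / 2)
    (hW : ((∑ j ∈ A, w j : ℕ) : ℝ) ≤ n * (1 - y) / 2) {m : ℕ} (hm : 1 ≤ m) :
    ((P.filter (fun b => (cls P L A b).card < m)).card : ℝ) ≤
      m * (2 ^ n * Real.exp (-(n * y ^ 2 / 5))) := by
  obtain ⟨hθ0, hθ1, hθ⟩ := th_spec hy0 hy
  set q : ℝ := (1 - y) / 2 with hq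
  have hq0 : 0 < q := by rw [hq]; linarith
  have hq2 : q ≤ 1 / 2 := by rw [hq]; linarith
  have hk := know_sum hS A hq0 hq2 hθ0 hθ1 hθ
  set W : ℕ := ∑ j ∈ A, w j with hWdef
  have hWn : W ≤ n := by
    have : (W : ℝ) ≤ n := by
      have : (n : ℝ) * (1 - y) / 2 ≤ n := by
        have := Nat.cast_nonneg (α := ℝ) n
        nlinarith
      linarith
    exact_mod_cast this
  set C : ℝ := q ^ W * (1 - q) ^ (n - W) with hC
  have hCpos : 0 < C := by
    rw [hC]
    have : 0 < 1 - q := by linarith
    positivity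
  have hm0 : (0 : ℝ) < m := by exact_mod_cast hm
  have hm1 : (1 : ℝ) ≤ m := by exact_mod_cast hm
  -- lower bound for C
  have hClog : n * y ^ 2 / 5 - n * Real.log 2 ≤ Real.log C := by
    rw [hC, log_C hq0 (by linarith)]
    have e1 : Real.log q = Real.log (1 - y) - Real.log 2 := by
      rw [hq, Real.log_div (by linarith) (by norm_num)]
    have e2 : Real.log (1 - q) = Real.log (1 + y) - Real.log 2 := by
      have : 1 - q = (1 + y) / 2 := by rw [hq]; ring
      rw [this, Real.log_div (by linarith) (by norm_num)]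
    rw [e1, e2, Nat.cast_sub hWn]
    have l1 := log_one_sub_ge (show y < 1 by linarith)
    have l2 := log_one_add_ge hy0.le
    have hW0 : (0 : ℝ) ≤ W := Nat.cast_nonneg W
    have hnW : (0 : ℝ) ≤ (n : ℝ) - W := by
      have : (W : ℝ) ≤ n := by exact_mod_cast hWn
      linarith
    have hn0 : (0 : ℝ) ≤ n := Nat.cast_nonneg n
    have s1 : (W : ℝ) * (-(y / (1 - y))) ≤ W * Real.log (1 - y) := mul_le_mul_of_nonneg_left l1 hW0
    have s2 : ((n : ℝ) - W) * (2 * y / (y + 2)) ≤ ((n : ℝ) - W) * Real.log (1 + y) :=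
      mul_le_mul_of_nonneg_left l2 hnW
    have s3 : (n : ℝ) * y ^ 2 / 5 ≤ (W : ℝ) * (-(y / (1 - y))) + ((n : ℝ) - W) * (2 * y / (y + 2)) := by
      have h1y : 0 < 1 - y := by linarith
      have hy2 : 0 < y + 2 := by linarith
      have hc : 0 ≤ y / (1 - y) + 2 * y / (y + 2) := by positivity
      have s4 : (W : ℝ) * (y / (1 - y) + 2 * y / (y + 2)) ≤
          (n * (1 - y) / 2) * (y / (1 - y) + 2 * y / (y + 2)) := mul_le_mul_of_nonneg_right hW hc
      have s5 : (n * (1 - y) / 2) * (y / (1 - y) + 2 * y / (y + 2)) =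
          n * (2 * y / (y + 2)) - n * (y ^ 2 / (2 * (y + 2))) := by
        field_simp
        ring
      have s6 : y ^ 2 / 5 ≤ y ^ 2 / (2 * (y + 2)) := by
        apply div_le_div_of_nonneg_left (by positivity) (by positivity)
        linarith
      have s7 := mul_le_mul_of_nonneg_left s6 hn0
      have e : (n : ℝ) * y ^ 2 / 5 = n * (y ^ 2 / 5) := by ring
      rw [e]
      nlinarith
    nlinarith
  have hCge : Real.exp (n * y ^ 2 / 5) * ((2 : ℝ) ^ n)⁻¹ ≤ C := by
    rw [← Real.exp_log hCpos]
    have : ((2 : ℝ) ^ n)⁻¹ = Real.exp (-(n * Real.log 2)) := by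
      rw [Real.exp_neg, Real.exp_nat_mul, Real.exp_log (by norm_num)]
    rw [this, ← Real.exp_add]
    apply Real.exp_le_exp.2
    linarith
  set B := P.filter (fun b => (cls P L A b).card < m) with hB
  have hsum : (B.card : ℝ) * (1 / m) ≤ ∑ b ∈ P, ((cls P L A b).card : ℝ) ^ (th y - 1) := by
    calc (B.card : ℝ) * (1 / m) = ∑ b ∈ B, (1 / (m : ℝ)) := by
          rw [Finset.sum_const, nsmul_eq_mul]
      _ ≤ ∑ b ∈ B, ((cls P L A b).card : ℝ) ^ (th y - 1) := by
          refine Finset.sum_le_sum (fun b hb => ?_)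
          rw [hB, mem_filter] at hb
          have hN : (0 : ℝ) < (cls P L A b).card := by
            have : 0 < (cls P L A b).card := Finset.card_pos.2 ⟨b, self_mem_cls hb.1⟩
            exact_mod_cast this
          have hNm : ((cls P L A b).card : ℝ) ≤ m := by exact_mod_cast hb.2.le
          calc (1 / (m : ℝ)) = (m : ℝ) ^ (-1 : ℝ) := by
                rw [Real.rpow_neg_one, one_div]
            _ ≤ (m : ℝ) ^ (th y - 1) := Real.rpow_le_rpow_of_exponent_le hm1 (by linarith)
            _ ≤ ((cls P L A b).card : ℝ) ^ (th y - 1) :=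
                Real.rpow_le_rpow_of_nonpos hN hNm (by linarith)
      _ ≤ ∑ b ∈ P, ((cls P L A b).card : ℝ) ^ (th y - 1) := by
          apply Finset.sum_le_sum_of_subset_of_nonneg (Finset.filter_subset _ _)
          intro b _ _
          exact Real.rpow_nonneg (Nat.cast_nonneg _) _
  have h1 : C * ((B.card : ℝ) * (1 / m)) ≤ 1 :=
    (mul_le_mul_of_nonneg_left hsum hCpos.le).trans hk
  have h2 : Real.exp (n * y ^ 2 / 5) * ((2 : ℝ) ^ n)⁻¹ * ((B.card : ℝ) * (1 / m)) ≤ 1 :=
    (mul_le_mul_of_nonneg_right hCge (by positivity)).trans h1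
  rw [Real.exp_neg]
  have hE : 0 < Real.exp (n * y ^ 2 / 5) := Real.exp_pos _
  have h2n : (0 : ℝ) < 2 ^ n := by positivity
  have h3 : Real.exp (n * y ^ 2 / 5) * ((2 : ℝ) ^ n)⁻¹ * ((B.card : ℝ) * (1 / m)) =
      (B.card : ℝ) / (m * (2 ^ n * (Real.exp (n * y ^ 2 / 5))⁻¹)) := by
    field_simp
  rw [h3, div_le_one (by positivity)] at h2
  exact h2

/-- The entropy of what the part `A` knows. -/
theorem ent_le {P : Finset (Fin n → Bool)} {L : (Fin n → Bool) → Fin n → Fin 5}
    {w : Fin 5 → ℕ} (hS : Sys P L w) (hP : P.Nonempty) (A : Finset (Fin 5)) {y d : ℝ}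
    (hy0 : 0 < y) (hy : y ≤ 1 / 4) (hW : (∑ j ∈ A, w j) ≤ n) (hd0 : 0 ≤ d)
    (hd : n * Real.log 2 - d ≤ Real.log P.card) :
    P.card * Real.log P.card - ∑ b ∈ P, Real.log (cls P L A b).card ≤
      P.card * (2 * Real.log 2 * ((∑ j ∈ A, w j : ℕ) : ℝ) * (1 + y) + d / y) := by
  obtain ⟨hθ0, hθ1, hθ⟩ := th_spec hy0 (by linarith : y ≤ 1 / 2)
  set q : ℝ := (1 - y) / 2 with hq
  have hq0 : 0 < q := by rw [hq]; linarith
  have hq2 : q ≤ 1 / 2 := by rw [hq]; linarith
  have hk := know_sum hS A hq0 hq2 hθ0 hθ1 hθ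
  set W : ℕ := ∑ j ∈ A, w j with hWdef
  set C : ℝ := q ^ W * (1 - q) ^ (n - W) with hC
  have hCpos : 0 < C := by
    rw [hC]
    have : 0 < 1 - q := by linarith
    positivity
  have hp : (0 : ℝ) < P.card := by exact_mod_cast Finset.card_pos.2 hP
  set S : ℝ := ∑ b ∈ P, Real.log (cls P L A b).card with hSdef
  set a : ℝ := (th y - 1) * (S / P.card) with ha
  have hjen : (P.card : ℝ) * Real.exp a ≤ ∑ b ∈ P, ((cls P L A b).card : ℝ) ^ (th y - 1) := by
    have h1 : ∀ b ∈ P, Real.exp a * (1 + ((th y - 1) * Real.log (cls P L A b).card - a)) ≤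
        ((cls P L A b).card : ℝ) ^ (th y - 1) := by
      intro b hb
      have hN : (0 : ℝ) < (cls P L A b).card := by
        have : 0 < (cls P L A b).card := Finset.card_pos.2 ⟨b, self_mem_cls hb⟩
        exact_mod_cast this
      rw [Real.rpow_def_of_pos hN]
      have : Real.log ((cls P L A b).card : ℝ) * (th y - 1) =
          a + ((th y - 1) * Real.log (cls P L A b).card - a) := by ring
      rw [this, Real.exp_add]
      apply mul_le_mul_of_nonneg_left _ (Real.exp_pos _).le
      have := Real.add_one_le_exp ((th y - 1) * Real.log (cls P L A b).card - a)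
      linarith
    calc (P.card : ℝ) * Real.exp a
        = ∑ b ∈ P, Real.exp a * (1 + ((th y - 1) * Real.log (cls P L A b).card - a)) := by
          rw [← Finset.mul_sum, Finset.sum_add_distrib, Finset.sum_sub_distrib, ← Finset.mul_sum,
            Finset.sum_const, Finset.sum_const, nsmul_eq_mul, nsmul_eq_mul, ← hSdef]
          have : (P.card : ℝ) * a = (th y - 1) * S := by
            rw [ha]; field_simp
          rw [this]
          ring
      _ ≤ _ := Finset.sum_le_sum h1
  have h1 : C * (P.card * Real.exp a) ≤ 1 :=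
    (mul_le_mul_of_nonneg_left hjen hCpos.le).trans hk
  have h2 : Real.log C + Real.log P.card + a ≤ 0 := by
    have := Real.log_le_log (by positivity) h1
    rw [Real.log_one, Real.log_mul hCpos.ne' (by positivity),
      Real.log_mul hp.ne' (Real.exp_pos _).ne', Real.log_exp] at this
    linarith
  rw [hC, log_C hq0 (by linarith)] at h2
  have hl2 : 0 < Real.log 2 := Real.log_pos (by norm_num)
  have e1 : Real.log q = Real.log (1 - y) - Real.log 2 := by
    rw [hq, Real.log_div (by linarith) (by norm_num)]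
  have e2 : Real.log (1 - q) = Real.log (1 + y) - Real.log 2 := by
    have : 1 - q = (1 + y) / 2 := by rw [hq]; ring
    rw [this, Real.log_div (by linarith) (by norm_num)]
  rw [e1, e2, Nat.cast_sub hW] at h2
  have hth : th y - 1 = -(Real.log (1 + y) / Real.log 2) := by unfold th; ring
  set c : ℝ := Real.log (1 + y) with hc
  have l1 := log_one_sub_ge (show y < 1 by linarith)
  have l2 := log_one_add_ge hy0.le
  rw [← hc] at l2
  have hc0 : 0 < c := Real.log_pos (by linarith)
  set H : ℝ := Real.log P.card - S / P.card with hH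
  -- the inequality multiplied out
  have h3 : (c / Real.log 2) * H ≤ W * (c - Real.log (1 - y)) + d := by
    have ha' : a = -(c / Real.log 2) * (S / P.card) := by rw [ha, hth]
    rw [ha'] at h2
    have hcl : c / Real.log 2 ≤ 1 := by
      rw [div_le_one hl2]
      exact Real.log_le_log (by linarith) (by linarith)
    have h4 : (1 - c / Real.log 2) * (n * Real.log 2 - d) ≤ (1 - c / Real.log 2) * Real.log P.card :=
      mul_le_mul_of_nonneg_left hd (by linarith)
    have h5 : 0 ≤ c / Real.log 2 * d := by positivity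
    have h6 : c / Real.log 2 * (n * Real.log 2) = n * c := by field_simp
    rw [hH]
    nlinarith
  have hW0 : (0 : ℝ) ≤ W := Nat.cast_nonneg W
  have h4 : H ≤ 2 * Real.log 2 * W * (1 + y) + d / y := by
    -- H = (log 2 / c) * (c / log 2 * H)
    have h5 : H = (Real.log 2 / c) * ((c / Real.log 2) * H) := by field_simp
    have h6 : (Real.log 2 / c) * ((c / Real.log 2) * H) ≤
        (Real.log 2 / c) * (W * (c - Real.log (1 - y)) + d) :=
      mul_le_mul_of_nonneg_left h3 (by positivity)
    have h1y : 0 < 1 - y := by linarith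
    have hinv : 1 / c ≤ (y + 2) / (2 * y) := by
      rw [div_le_div_iff₀ hc0 (by positivity)]
      rw [div_le_iff₀ (by linarith)] at l2
      linarith
    have h7 : (c - Real.log (1 - y)) / c ≤ 2 * (1 + y) := by
      have h8 : (c - Real.log (1 - y)) / c = 1 + (-Real.log (1 - y)) * (1 / c) := by field_simp; ring
      rw [h8]
      have h9 : 0 ≤ -Real.log (1 - y) := by
        have := Real.log_nonpos h1y.le (by linarith)
        linarith
      have h10 : (-Real.log (1 - y)) * (1 / c) ≤ (y / (1 - y)) * ((y + 2) / (2 * y)) := by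
        apply mul_le_mul (by linarith) hinv (by positivity) (by positivity)
      have h11 : (y / (1 - y)) * ((y + 2) / (2 * y)) = (y + 2) / (2 * (1 - y)) := by
        field_simp
      have h12 : (y + 2) / (2 * (1 - y)) ≤ 1 + 2 * y := by
        rw [div_le_iff₀ (by linarith)]
        nlinarith
      linarith
    have h13 : Real.log 2 * (1 / c) * d ≤ d / y := by
      have hlog2 : Real.log 2 < 0.6931471808 := Real.log_two_lt_d9
      have : Real.log 2 * (1 / c) ≤ 1 / y := by
        calc Real.log 2 * (1 / c) ≤ 0.7 * ((y + 2) / (2 * y)) := by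
              apply mul_le_mul (by linarith) hinv (by positivity) (by norm_num)
          _ ≤ 1 / y := by
              rw [div_eq_mul_inv (y + 2), div_eq_mul_inv 1 y, mul_inv]
              have : 0 < y⁻¹ := by positivity
              nlinarith
      calc Real.log 2 * (1 / c) * d ≤ 1 / y * d := mul_le_mul_of_nonneg_right this hd0
        _ = d / y := by ring
    have h14 : (Real.log 2 / c) * (W * (c - Real.log (1 - y)) + d) =
        Real.log 2 * W * ((c - Real.log (1 - y)) / c) + Real.log 2 * (1 / c) * d := by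
      field_simp
    have h15 : Real.log 2 * W * ((c - Real.log (1 - y)) / c) ≤ Real.log 2 * W * (2 * (1 + y)) :=
      mul_le_mul_of_nonneg_left h7 (by positivity)
    rw [h5]
    refine h6.trans ?_
    rw [h14]
    linarith
  have h5 : P.card * Real.log P.card - S = P.card * H := by
    rw [hH]; field_simp
  rw [h5]
  exact mul_le_mul_of_nonneg_left h4 hp.le

end Pool.Agent.Lib_helper20.SRO
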