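import Pool.Agent.Lib_helper20.SRO.Final
import Pool.Agent.Lib_helper20.SRO.Model3
import Pool.Agent.Lib_helper39.SRO.B2

/-!
The majority of the quadratic equations and its complement are hard.
-/

namespace Pool.Agent.Lib_helper20.SRO

open Finset

/-- The lower bound for the functions `QF C e`, with the constants made available. -/
theorem hardQF : ∃ c : ℝ, 0 < c ∧ ∃ n0 : ℕ, ∀ n ≥ n0, 16 ≤ n ∧ tt n + 1 ≤ n ∧ kk n ≤ n ∧
    1 ≤ kk n ∧
    ∃ (C : Fin (tt n) → Fin (kk n) → Bool → Fin n → Bool) (e : Fin (tt n) → Bool),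
      ∀ (N : Type) [Fintype N] (G : NBP (Fin n) N) (r : ℕ), (r : ℝ) ≤ c * n →
        G.FewRereads r → G.Computes (QF C e) → (2 : ℝ) ^ (c * n) ≤ Fintype.card N := by
  obtain ⟨c, hc, n0, h⟩ := hard3 (stmtCore3 stmtE2 Pool.Agent.Lib_helper45.SRO.stmtC
    Pool.Agent.Lib_helper45.SRO.stmtD Pool.Agent.Lib_helper39.SRO.stmtNum2)
    Pool.Agent.Lib_helper39.SRO.B2.stmtB2
  obtain ⟨n2, hpar⟩ := params (show (0 : ℝ) < 1 by norm_num)
  refine ⟨c, hc, max (max n0 n2) 16, ?_⟩
  intro n hn
  have h1 : n0 ≤ n := (le_max_left _ _).trans ((le_max_left _ _).trans hn)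
  have h2 : n2 ≤ n := (le_max_right _ _).trans ((le_max_left _ _).trans hn)
  have h16 : 16 ≤ n := (le_max_right _ _).trans hn
  obtain ⟨_, _, _, _, _, p6, p7, p8⟩ := hpar n h2
  obtain ⟨_, C, e, hh⟩ := h n h1
  exact ⟨h16, p6, p7, p8, C, e, hh⟩

/-- the coefficients: the given forms, the parity, zero forms -/
def coefM {n : ℕ} (C : Fin (tt n) → Fin (kk n) → Bool → Fin n → Bool)
    (t : Fin (2 * tt n + 1)) (l : Fin (kk n)) (s : Bool) (i : Fin n) : Bool :=
  if h : t.val < tt n then C ⟨t.val, h⟩ l s i else decide (t.val = tt n ∧ l.val = 0)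

/-- the prescribed values -/
def valM {n : ℕ} (e : Fin (tt n) → Bool) (p z : Bool) (t : Fin (2 * tt n + 1)) : Bool :=
  if h : t.val < tt n then e ⟨t.val, h⟩ else if t.val = tt n then p else z

lemma quad_lt {n : ℕ} (C : Fin (tt n) → Fin (kk n) → Bool → Fin n → Bool)
    (t : Fin (2 * tt n + 1)) (h : t.val < tt n) (b : Fin n → Bool) :
    quad (coefM C t) b = quad (C ⟨t.val, h⟩) b := by
  have : coefM C t = C ⟨t.val, h⟩ := by
    funext l s i
    simp [coefM, h]
  rw [this]

lemma dot_false {n : ℕ} (b : Fin n → Bool) : dot (fun _ => false) b = 0 := by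
  simp [dot]

lemma dot_true {n : ℕ} (b : Fin n → Bool) :
    dot (fun _ => true) b = Pool.Agent.Lib_helper45.SRO.par b := by
  simp [dot, Pool.Agent.Lib_helper45.SRO.par]

lemma quad_eq {n : ℕ} (hk : 1 ≤ kk n) (C : Fin (tt n) → Fin (kk n) → Bool → Fin n → Bool)
    (t : Fin (2 * tt n + 1)) (h : t.val = tt n) (b : Fin n → Bool) :
    quad (coefM C t) b = Pool.Agent.Lib_helper45.SRO.par b := by
  unfold quad
  rw [Finset.sum_eq_single (⟨0, hk⟩ : Fin (kk n))]
  · have h1 : ∀ s, coefM C t ⟨0, hk⟩ s = fun _ => true := by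
      intro s
      funext i
      simp [coefM, h]
    rw [h1, h1, dot_true]
    have h01 : ∀ z : ZMod 2, z * z = z := by decide
    exact h01 _
  · intro l _ hl
    have hl' : l.val ≠ 0 := fun h' => hl (Fin.ext h')
    have h1 : ∀ s, coefM C t l s = fun _ => false := by
      intro s
      funext i
      simp [coefM, h, hl']
    rw [h1, dot_false, zero_mul]
  · intro h'
    exact absurd (mem_univ _) h'

lemma quad_gt {n : ℕ} (C : Fin (tt n) → Fin (kk n) → Bool → Fin n → Bool)
    (t : Fin (2 * tt n + 1)) (h : tt n < t.val) (b : Fin n → Bool) :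
    quad (coefM C t) b = 0 := by
  unfold quad
  apply Finset.sum_eq_zero
  intro l _
  have h1 : ∀ s, coefM C t l s = fun _ => false := by
    intro s
    funext i
    have h2 : ¬ t.val < tt n := by omega
    have h3 : t.val ≠ tt n := by omega
    simp [coefM, h2, h3]
  rw [h1, dot_false, zero_mul]

/-- the assignment of the coefficients and values -/
def aM {n : ℕ} (C : Fin (tt n) → Fin (kk n) → Bool → Fin n → Bool) (e : Fin (tt n) → Bool)
    (p z : Bool) : Var3 n → Bool :=
  Sum.elim (Sum.elim (fun q : Fin (2 * tt n + 1) × Fin (kk n) × Bool × Fin n =>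
    coefM C q.1 q.2.1 q.2.2.1 q.2.2.2) (valM e p z)) (fun _ => false)

/-- the satisfied equations -/
def satM {n : ℕ} (C : Fin (tt n) → Fin (kk n) → Bool → Fin n → Bool) (e : Fin (tt n) → Bool)
    (p z : Bool) (b : Fin n → Bool) : Finset (Fin (2 * tt n + 1)) :=
  univ.filter (fun t => quad (coefM C t) b = if valM e p z t then 1 else 0)

lemma card_le_mid (n : ℕ) :
    (univ.filter (fun t : Fin (2 * tt n + 1) => t.val ≤ tt n)).card = tt n + 1 := by
  have h : (univ.filter (fun t : Fin (2 * tt n + 1) => t.val ≤ tt n)) =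
      Finset.Iic (⟨tt n, by omega⟩ : Fin (2 * tt n + 1)) := by
    ext t
    simp [Fin.le_def]
  rw [h, Fin.card_Iic]

lemma card_gt_mid (n : ℕ) :
    (univ.filter (fun t : Fin (2 * tt n + 1) => tt n < t.val)).card = tt n := by
  have h := Finset.card_filter_add_card_filter_not (s := (univ : Finset (Fin (2 * tt n + 1))))
    (fun t => t.val ≤ tt n)
  simp only [not_le] at h
  rw [card_le_mid, card_univ, Fintype.card_fin] at h
  omega

lemma z01 (z : ZMod 2) : z = 0 ∨ z = 1 := by
  revert z; decide

/-- with violated zero equations, the majority says that all other equations hold -/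
lemma maj_true {n : ℕ} (hk : 1 ≤ kk n) (C : Fin (tt n) → Fin (kk n) → Bool → Fin n → Bool)
    (e : Fin (tt n) → Bool) (b : Fin n → Bool) :
    2 * tt n + 1 < 2 * (satM C e false true b).card ↔ QF C e b = true := by
  have hsub : satM C e false true b ⊆
      univ.filter (fun t : Fin (2 * tt n + 1) => t.val ≤ tt n) := by
    intro t ht
    rw [satM, mem_filter] at ht
    rw [mem_filter]
    refine ⟨mem_univ _, ?_⟩
    by_contra hcon
    have h1 : tt n < t.val := by omega
    have h2 : ¬ t.val < tt n := by omega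
    have h3 : t.val ≠ tt n := by omega
    rw [quad_gt C t h1] at ht
    have h4 : valM e false true t = true := by simp [valM, h2, h3]
    rw [h4] at ht
    simp at ht
  have hiff : 2 * tt n + 1 < 2 * (satM C e false true b).card ↔
      satM C e false true b = univ.filter (fun t : Fin (2 * tt n + 1) => t.val ≤ tt n) := by
    constructor
    · intro h
      apply Finset.eq_of_subset_of_card_le hsub
      rw [card_le_mid]
      omega
    · intro h
      rw [h, card_le_mid]
      omega
  rw [hiff]
  unfold QF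
  rw [Bool.and_eq_true, decide_eq_true_iff, Pool.Agent.Lib_helper45.SRO.par_eq]
  constructor
  · intro h
    constructor
    · have h1 : (⟨tt n, by omega⟩ : Fin (2 * tt n + 1)) ∈ satM C e false true b := by
        rw [h, mem_filter]
        exact ⟨mem_univ _, le_rfl⟩
      rw [satM, mem_filter, quad_eq hk C _ rfl] at h1
      simpa [valM] using h1.2
    · intro t
      have ht2 : t.val < 2 * tt n + 1 := by have := t.2; omega
      have h1 : (⟨t.val, ht2⟩ : Fin (2 * tt n + 1)) ∈ satM C e false true b := by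
        rw [h, mem_filter]
        exact ⟨mem_univ _, t.2.le⟩
      rw [satM, mem_filter, quad_lt C _ t.2] at h1
      simpa [valM] using h1.2
  · rintro ⟨hp, hq⟩
    apply Finset.Subset.antisymm hsub
    intro t ht
    rw [mem_filter] at ht
    rw [satM, mem_filter]
    refine ⟨mem_univ _, ?_⟩
    rcases Nat.lt_or_eq_of_le ht.2 with h1 | h1
    · rw [quad_lt C t h1, hq ⟨t.val, h1⟩]
      simp [valM, h1]
    · rw [quad_eq hk C t h1, hp]
      simp [valM, h1]

/-- with satisfied zero equations, the majority fails iff no other equation holds -/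
lemma maj_false {n : ℕ} (hk : 1 ≤ kk n) (C : Fin (tt n) → Fin (kk n) → Bool → Fin n → Bool)
    (e : Fin (tt n) → Bool) (b : Fin n → Bool) :
    ¬ (2 * tt n + 1 < 2 * (satM C (fun t => !e t) true false b).card) ↔ QF C e b = true := by
  have hsub : univ.filter (fun t : Fin (2 * tt n + 1) => tt n < t.val) ⊆
      satM C (fun t => !e t) true false b := by
    intro t ht
    rw [mem_filter] at ht
    rw [satM, mem_filter]
    refine ⟨mem_univ _, ?_⟩
    have h2 : ¬ t.val < tt n := by omega
    have h3 : t.val ≠ tt n := by omega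
    rw [quad_gt C t ht.2]
    simp [valM, h2, h3]
  have hiff : ¬ (2 * tt n + 1 < 2 * (satM C (fun t => !e t) true false b).card) ↔
      univ.filter (fun t : Fin (2 * tt n + 1) => tt n < t.val) =
        satM C (fun t => !e t) true false b := by
    constructor
    · intro h
      apply Finset.eq_of_subset_of_card_le hsub
      rw [card_gt_mid]
      omega
    · intro h
      rw [← h, card_gt_mid]
      omega
  rw [hiff]
  unfold QF
  rw [Bool.and_eq_true, decide_eq_true_iff, Pool.Agent.Lib_helper45.SRO.par_eq]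
  constructor
  · intro h
    constructor
    · have h1 : (⟨tt n, by omega⟩ : Fin (2 * tt n + 1)) ∉ satM C (fun t => !e t) true false b := by
        rw [← h, mem_filter]
        rintro ⟨_, h2⟩
        exact lt_irrefl _ h2
      rw [satM, mem_filter, quad_eq hk C _ rfl] at h1
      have h2 : Pool.Agent.Lib_helper45.SRO.par b ≠ 1 := by
        intro h3
        apply h1
        refine ⟨mem_univ _, ?_⟩
        rw [h3]
        simp [valM]
      rcases z01 (Pool.Agent.Lib_helper45.SRO.par b) with h3 | h3
      · exact h3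
      · exact absurd h3 h2
    · intro t
      have ht2 : t.val < 2 * tt n + 1 := by have := t.2; omega
      have h1 : (⟨t.val, ht2⟩ : Fin (2 * tt n + 1)) ∉ satM C (fun t => !e t) true false b := by
        rw [← h, mem_filter]
        rintro ⟨_, h2⟩
        have := t.2
        simp only at h2
        omega
      rw [satM, mem_filter, quad_lt C _ t.2] at h1
      have h2 : quad (C t) b ≠ if !e t then 1 else 0 := by
        intro h3
        apply h1
        refine ⟨mem_univ _, ?_⟩
        rw [h3]
        simp [valM]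
      rcases z01 (quad (C t) b) with h3 | h3
      · rw [h3] at h2 ⊢
        cases he : e t
        · simp
        · rw [he] at h2; simp at h2
      · rw [h3] at h2 ⊢
        cases he : e t
        · rw [he] at h2; simp at h2
        · simp
  · rintro ⟨hp, hq⟩
    apply Finset.Subset.antisymm hsub
    intro t ht
    rw [mem_filter]
    refine ⟨mem_univ _, ?_⟩
    by_contra hcon
    rw [satM, mem_filter] at ht
    rcases Nat.lt_or_eq_of_le (not_lt.1 hcon) with h1 | h1
    · rw [quad_lt C t h1, hq ⟨t.val, h1⟩] at ht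
      cases he : e ⟨t.val, h1⟩
      · simp [valM, h1, he] at ht
      · simp [valM, h1, he] at ht
    · rw [quad_eq hk C t h1, hp] at ht
      simp [valM, h1] at ht

lemma card_var3 {n : ℕ} (h1 : tt n + 1 ≤ n) (h3 : kk n ≤ n) :
    (Fintype.card (Var3 n) : ℝ) ≤ (5 * (n : ℝ)) ^ 2 := by
  have hc : Fintype.card (Var3 n) =
      (2 * tt n + 1) * (kk n * (2 * n)) + (2 * tt n + 1) + n := by
    simp [Var3]
  have hle : tt n * kk n ≤ n + kk n := by
    unfold tt
    have := Nat.div_mul_le_self n (kk n)
    rw [add_mul, one_mul]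
    omega
  have h5 : (2 * tt n + 1) * (kk n * (2 * n)) + (2 * tt n + 1) + n ≤ 25 * n ^ 2 := by
    have h6 : (2 * tt n + 1) * (kk n * (2 * n)) = 4 * ((tt n * kk n) * n) + 2 * (kk n * n) := by
      ring
    rw [h6]
    have h7 : (tt n * kk n) * n ≤ (n + kk n) * n := Nat.mul_le_mul_right _ hle
    have h8 : kk n * n ≤ n * n := Nat.mul_le_mul_right _ h3
    have h9 : n ≤ n * n := Nat.le_mul_self n
    nlinarith
  rw [hc]
  have : (5 * (n : ℝ)) ^ 2 = ((25 * n ^ 2 : ℕ) : ℝ) := by push_cast; ring
  rw [this]
  exact_mod_cast h5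

/-- The lower bound for the majority and its complement. -/
theorem hardMaj : ∃ c : ℝ, 0 < c ∧ ∃ n0 : ℕ, ∀ n ≥ n0, 16 ≤ n ∧
    ∀ (N : Type) [Fintype N] (G : NBP (Var3 n) N) (r : ℕ),
      (r : ℝ) ≤ c * Real.sqrt (Fintype.card (Var3 n)) → G.FewRereads r →
      (G.Computes (majQ n) ∨ G.Computes (fun v => !majQ n v)) →
      (2 : ℝ) ^ (c * Real.sqrt (Fintype.card (Var3 n))) ≤ Fintype.card N := by
  obtain ⟨c, hc, n0, h⟩ := hardQF
  refine ⟨c / 5, by positivity, n0, ?_⟩
  intro n hn
  obtain ⟨h16, p6, p7, p8, C, e, hmain⟩ := h n hn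
  refine ⟨h16, ?_⟩
  intro N _ G r hr hG hcomp
  have h5 : Real.sqrt (Fintype.card (Var3 n)) ≤ 5 * n := by
    apply Real.sqrt_le_iff.2
    exact ⟨by positivity, card_var3 p6 p7⟩
  let ι : Fin n → Var3 n := Sum.inr
  have hι : Function.Injective ι := Sum.inr_injective
  have key : ∀ (e' : Fin (tt n) → Bool) (p z : Bool) (b : Fin n → Bool),
      majQ n (ext ι (aM C e' p z) b) =
      decide (2 * tt n + 1 < 2 * (satM C e' p z b).card) := by
    intro e' p z b
    set a : Var3 n → Bool := aM C e' p z with ha
    have e1 : (fun i => ext ι a b (Sum.inr i)) = b := by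
      funext i
      exact ext_apply hι a b i
    have e2 : ∀ y, ext ι a b (Sum.inl y) = a (Sum.inl y) := by
      intro y
      apply ext_of_not
      intro x hx
      exact absurd hx (by simp [ι])
    unfold majQ
    rw [e1]
    simp only [e2]
    rfl
  have fin : ∀ (a : Var3 n → Bool), (fixI G ι a).Computes (QF C e) →
      (2 : ℝ) ^ (c / 5 * Real.sqrt (Fintype.card (Var3 n))) ≤ Fintype.card N := by
    intro a hcomp'
    have h := hmain N (fixI G ι a) r (by nlinarith) (fixI_few hι a hG) hcomp'
    refine le_trans (Real.rpow_le_rpow_of_exponent_le one_le_two ?_) h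
    nlinarith
  rcases hcomp with hcomp | hcomp
  · have hc2 := fixI_computes hι (aM C e false true) hcomp
    refine fin (aM C e false true) ?_
    intro b
    rw [hc2 b]
    beta_reduce
    rw [key, decide_eq_true_iff]
    exact maj_true p8 C e b
  · have hc2 := fixI_computes hι (aM C (fun t => !e t) true false) hcomp
    refine fin (aM C (fun t => !e t) true false) ?_
    intro b
    rw [hc2 b]
    beta_reduce
    rw [key, Bool.not_eq_true', decide_eq_false_iff_not]
    exact maj_false p8 C e b

end Pool.Agent.Lib_helper20.SRO
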