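import Pool.Agent.Lib_helper20.SRO.Defs

namespace Pool.Agent.Lib_helper20.SRO

open Finset

/-- Minkowski for two coordinates. -/
lemma two_point {θ a b : ℝ} (hθ0 : 0 < θ) (hθ1 : θ ≤ 1) (hb : 0 ≤ b) (hab : b ≤ a) :
    (a + b) ^ θ ≤ a ^ θ + ((2 : ℝ) ^ θ - 1) * b ^ θ := by
  have ha : 0 ≤ a := hb.trans hab
  set p : ℝ := 1 / θ with hp
  have hp1 : 1 ≤ p := by rw [hp, le_div_iff₀ hθ0]; linarith
  have hpinv : 1 / p = θ := by rw [hp]; field_simp
  have hAB : b ^ θ ≤ a ^ θ := Real.rpow_le_rpow hb hab hθ0.le
  have hB0 : 0 ≤ b ^ θ := Real.rpow_nonneg hb _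
  have hA0 : 0 ≤ a ^ θ := Real.rpow_nonneg ha _
  have h := Real.Lp_add_le_of_nonneg (s := (univ : Finset (Fin 2)))
    (f := ![a ^ θ - b ^ θ, 0]) (g := ![b ^ θ, b ^ θ]) (p := p) hp1
    (by intro i _; fin_cases i <;> simp [hAB]) (by intro i _; fin_cases i <;> simp [hB0])
  rw [Fin.sum_univ_two, Fin.sum_univ_two, Fin.sum_univ_two] at h
  simp only [Matrix.cons_val_zero, Matrix.cons_val_one] at h
  have hpp : p ≠ 0 := by positivity
  rw [Real.zero_rpow hpp, hpinv] at h
  have e1 : (a ^ θ - b ^ θ + b ^ θ) ^ p = a := by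
    rw [sub_add_cancel, ← Real.rpow_mul ha, hp, mul_one_div_cancel hθ0.ne', Real.rpow_one]
  have e2 : (0 + b ^ θ) ^ p = b := by
    rw [zero_add, ← Real.rpow_mul hb, hp, mul_one_div_cancel hθ0.ne', Real.rpow_one]
  have e3 : ((a ^ θ - b ^ θ) ^ p + 0) ^ θ = a ^ θ - b ^ θ := by
    rw [add_zero, ← Real.rpow_mul (by linarith), hp, one_div_mul_cancel hθ0.ne', Real.rpow_one]
  have e4 : ((b ^ θ) ^ p + (b ^ θ) ^ p) ^ θ = (2 : ℝ) ^ θ * b ^ θ := by
    have : (b ^ θ) ^ p = b := by
      rw [← Real.rpow_mul hb, hp, mul_one_div_cancel hθ0.ne', Real.rpow_one]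
    rw [this, ← two_mul, Real.mul_rpow (by norm_num) hb]
  rw [e1, e2, e3, e4] at h
  linarith

open Classical in
/-- the measure of the set of compatible worlds -/
noncomputable def mu (q : ℝ) {n : ℕ} (U : Finset (Fin n)) (K : Finset (Fin n → Bool)) : ℝ :=
  ∑ ω ∈ univ.filter (fun ω : Fin n → Option Bool => ∃ b ∈ K, Comp U b ω), wt q ω

lemma wt_nonneg {q : ℝ} (hq0 : 0 < q) (hq : q ≤ 1 / 2) {n : ℕ} (ω : Fin n → Option Bool) :
    0 ≤ wt q ω := by
  unfold wt
  apply Finset.prod_nonneg
  intro x _
  split_ifs
  · linarith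
  · exact hq0.le

open Classical in
lemma mu_mono {q : ℝ} (hq0 : 0 < q) (hq : q ≤ 1 / 2) {n : ℕ} (U : Finset (Fin n))
    {K K' : Finset (Fin n → Bool)} (h : K ⊆ K') : mu q U K ≤ mu q U K' := by
  unfold mu
  apply Finset.sum_le_sum_of_subset_of_nonneg
  · intro ω hω
    rw [mem_filter] at hω ⊢
    obtain ⟨_, b, hb, hc⟩ := hω
    exact ⟨mem_univ _, b, h hb, hc⟩
  · intro ω _ _
    exact wt_nonneg hq0 hq ω

open Classical in
lemma mu_nonneg {q : ℝ} (hq0 : 0 < q) (hq : q ≤ 1 / 2) {n : ℕ} (U : Finset (Fin n))
    (K : Finset (Fin n → Bool)) : 0 ≤ mu q U K :=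
  Finset.sum_nonneg (fun ω _ => wt_nonneg hq0 hq ω)

/-- the slice of `K` at the first coordinate -/
def slice {n : ℕ} (K : Finset (Fin (n + 1) → Bool)) (c : Bool) : Finset (Fin n → Bool) :=
  univ.filter (fun b => Fin.cons (α := fun _ => Bool) c b ∈ K)

lemma card_slice {n : ℕ} (K : Finset (Fin (n + 1) → Bool)) :
    K.card = (slice K true).card + (slice K false).card := by
  have h1 : ∀ c, (slice K c).card = (K.filter (fun b => b 0 = c)).card := by
    intro c
    apply Finset.card_bij (fun b _ => Fin.cons (α := fun _ => Bool) c b)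
    · intro b hb
      simp only [slice, mem_filter, mem_univ, true_and] at hb
      simp [hb]
    · intro b _ b' _ h
      exact Fin.cons_right_injective (α := fun _ => Bool) c h
    · intro b hb
      rw [mem_filter] at hb
      refine ⟨Fin.tail b, ?_, ?_⟩
      · simp only [slice, mem_filter, mem_univ, true_and]
        rw [← hb.2, Fin.cons_self_tail]; exact hb.1
      · rw [← hb.2, Fin.cons_self_tail]
  rw [h1, h1]
  have := Finset.card_filter_add_card_filter_not (s := K) (fun b => b 0 = true)
  simp only [Bool.not_eq_true] at this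
  exact this.symm

/-- the restriction of `U` to the later coordinates -/
def tailSet {n : ℕ} (U : Finset (Fin (n + 1))) : Finset (Fin n) :=
  univ.filter (fun x => x.succ ∈ U)

lemma wt_cons (q : ℝ) {n : ℕ} (o : Option Bool) (ω : Fin n → Option Bool) :
    wt q (Fin.cons (α := fun _ => Option Bool) o ω) = (if o = none then 1 - 2 * q else q) * wt q ω := by
  unfold wt
  rw [Fin.prod_univ_succ]
  simp

lemma comp_cons {n : ℕ} (U : Finset (Fin (n + 1))) (b : Fin (n + 1) → Bool) (o : Option Bool)
    (ω : Fin n → Option Bool) :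
    Comp U b (Fin.cons (α := fun _ => Option Bool) o ω) ↔
      ((0 ∈ U → o = some (b 0)) ∧ (0 ∉ U → o = none ∨ o = some (b 0))) ∧
        Comp (tailSet U) (Fin.tail b) ω := by
  unfold Comp
  rw [Fin.forall_fin_succ]
  simp [tailSet, Fin.tail]

open Classical in
lemma mu_succ (q : ℝ) {n : ℕ} (U : Finset (Fin (n + 1))) (K : Finset (Fin (n + 1) → Bool)) :
    mu q U K = if 0 ∈ U then q * mu q (tailSet U) (slice K true) + q * mu q (tailSet U) (slice K false)
      else (1 - 2 * q) * mu q (tailSet U) (slice K true ∪ slice K false) +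
        (q * mu q (tailSet U) (slice K true) + q * mu q (tailSet U) (slice K false)) := by
  have hsum : mu q U K = ∑ o : Option Bool, ∑ ω : Fin n → Option Bool,
      if (∃ b ∈ K, Comp U b (Fin.cons (α := fun _ => Option Bool) o ω))
        then (if o = none then 1 - 2 * q else q) * wt q ω else 0 := by
    unfold mu
    rw [Finset.sum_filter, ← (Fin.consEquiv (fun _ : Fin (n + 1) => Option Bool)).sum_comp,
      Fintype.sum_prod_type]
    refine Finset.sum_congr rfl (fun o _ => Finset.sum_congr rfl (fun ω _ => ?_))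
    have : (Fin.consEquiv (fun _ : Fin (n + 1) => Option Bool)) (o, ω) =
      Fin.cons (α := fun _ => Option Bool) o ω := rfl
    rw [this, wt_cons]
  have key : ∀ (c : Bool) (ω : Fin n → Option Bool),
      (∃ b ∈ K, Comp U b (Fin.cons (α := fun _ => Option Bool) (some c) ω)) ↔
        ∃ b ∈ slice K c, Comp (tailSet U) b ω := by
    intro c ω
    constructor
    · rintro ⟨b, hb, hc⟩
      rw [comp_cons] at hc
      have hb0 : b 0 = c := by
        by_cases h0 : (0 : Fin (n + 1)) ∈ U
        · have := hc.1.1 h0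
          simp only [Option.some.injEq] at this
          exact this.symm
        · have := hc.1.2 h0
          simp only [Option.some.injEq, reduceCtorEq, false_or] at this
          exact this.symm
      refine ⟨Fin.tail b, ?_, hc.2⟩
      simp only [slice, mem_filter, mem_univ, true_and]
      rw [← hb0, Fin.cons_self_tail]; exact hb
    · rintro ⟨b, hb, hc⟩
      simp only [slice, mem_filter, mem_univ, true_and] at hb
      refine ⟨_, hb, ?_⟩
      rw [comp_cons]
      rw [Fin.tail_cons, Fin.cons_zero]
      exact ⟨⟨fun _ => rfl, fun _ => Or.inr rfl⟩, hc⟩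
  have keyn : ∀ (ω : Fin n → Option Bool), 0 ∉ U →
      ((∃ b ∈ K, Comp U b (Fin.cons (α := fun _ => Option Bool) none ω)) ↔
        ∃ b ∈ slice K true ∪ slice K false, Comp (tailSet U) b ω) := by
    intro ω h0
    constructor
    · rintro ⟨b, hb, hc⟩
      rw [comp_cons] at hc
      refine ⟨Fin.tail b, ?_, hc.2⟩
      rw [mem_union]
      rcases hb0 : b 0 with _ | _
      · right
        simp only [slice, mem_filter, mem_univ, true_and]
        rw [← hb0, Fin.cons_self_tail]; exact hb
      · left
        simp only [slice, mem_filter, mem_univ, true_and]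
        rw [← hb0, Fin.cons_self_tail]; exact hb
    · rintro ⟨b, hb, hc⟩
      rw [mem_union] at hb
      rcases hb with hb | hb
      all_goals
        simp only [slice, mem_filter, mem_univ, true_and] at hb
        refine ⟨_, hb, ?_⟩
        rw [comp_cons]
        rw [Fin.tail_cons, Fin.cons_zero]
        exact ⟨⟨fun h => absurd h h0, fun _ => Or.inl rfl⟩, hc⟩
  have keyn' : ∀ (ω : Fin n → Option Bool), 0 ∈ U →
      ¬ (∃ b ∈ K, Comp U b (Fin.cons (α := fun _ => Option Bool) none ω)) := by
    rintro ω h0 ⟨b, hb, hc⟩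
    rw [comp_cons] at hc
    have := hc.1.1 h0
    simp at this
  rw [hsum, Fintype.sum_option, Fintype.sum_bool]
  have hs : ∀ c : Bool, (∑ ω : Fin n → Option Bool,
      if (∃ b ∈ K, Comp U b (Fin.cons (α := fun _ => Option Bool) (some c) ω))
        then (if (some c : Option Bool) = none then 1 - 2 * q else q) * wt q ω else 0) =
      q * mu q (tailSet U) (slice K c) := by
    intro c
    unfold mu
    rw [Finset.sum_filter, Finset.mul_sum]
    refine Finset.sum_congr rfl (fun ω _ => ?_)
    simp only [key c ω, reduceCtorEq, if_false]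
    split_ifs <;> simp
  rw [hs, hs]
  by_cases h0 : (0 : Fin (n + 1)) ∈ U
  · rw [if_pos h0, Finset.sum_eq_zero, zero_add]
    intro ω _
    rw [if_neg (keyn' ω h0)]
  · rw [if_neg h0]
    congr 1
    unfold mu
    rw [Finset.sum_filter, Finset.mul_sum]
    refine Finset.sum_congr rfl (fun ω _ => ?_)
    simp only [keyn ω h0, if_true]
    split_ifs <;> simp

lemma card_tailSet {n : ℕ} (U : Finset (Fin (n + 1))) :
    U.card = (tailSet U).card + if 0 ∈ U then 1 else 0 := by
  have h1 : (U.erase 0).card = (tailSet U).card := by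
    symm
    apply Finset.card_bij (fun x _ => x.succ)
    · intro x hx
      simp only [tailSet, mem_filter, mem_univ, true_and] at hx
      simp [hx, Fin.succ_ne_zero]
    · intro x _ y _ h
      exact Fin.succ_injective _ h
    · intro y hy
      rw [mem_erase] at hy
      obtain ⟨z, hz⟩ := Fin.exists_succ_eq.2 hy.1
      refine ⟨z, ?_, hz⟩
      simp only [tailSet, mem_filter, mem_univ, true_and]
      rw [hz]; exact hy.2
  split_ifs with h0
  · rw [← h1, Finset.card_erase_of_mem h0]
    have : 0 < U.card := Finset.card_pos.2 ⟨0, h0⟩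
    omega
  · rw [← h1, Finset.erase_eq_of_notMem h0, add_zero]

open Classical in
theorem stmtA : StmtA := by
  intro n q θ hq0 hq hθ0 hθ1 hθ
  change ∀ (U : Finset (Fin n)) (K : Finset (Fin n → Bool)),
    q ^ U.card * (1 - q) ^ (n - U.card) * (K.card : ℝ) ^ θ ≤ mu q U K
  have hq1 : 0 < 1 - q := by linarith
  have h2θ : (2 : ℝ) ^ θ - 1 = q / (1 - q) := by
    have : (2 : ℝ) ^ θ = (1 - q)⁻¹ := by
      rw [← hθ, Real.rpow_neg (by norm_num), inv_inv]
    rw [this]
    field_simp
    ring
  induction n with
  | zero =>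
    intro U K
    have hU : U.card = 0 := by
      rw [Finset.card_eq_zero]
      exact Finset.eq_empty_of_isEmpty U
    rw [hU]
    simp only [pow_zero, one_mul, Nat.sub_self]
    rcases K.eq_empty_or_nonempty with hK | hK
    · subst hK
      simp only [card_empty, Nat.cast_zero]
      rw [Real.zero_rpow hθ0.ne']
      exact mu_nonneg hq0 hq _ _
    · have hc : K.card = 1 := by
        have h1 : K.card ≤ 1 := by
          have := Finset.card_le_univ K
          simpa using this
        have h2 := Finset.card_pos.2 hK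
        omega
      rw [hc]
      simp only [Nat.cast_one, Real.one_rpow]
      obtain ⟨b, hb⟩ := hK
      calc (1 : ℝ) = wt q (fun x => x.elim0 : Fin 0 → Option Bool) := by simp [wt]
        _ ≤ _ := by
          unfold mu
          apply Finset.single_le_sum (fun ω _ => wt_nonneg hq0 hq ω)
          simp only [mem_filter, mem_univ, true_and]
          exact ⟨b, hb, fun x => x.elim0⟩
  | succ n ih =>
    intro U K
    rw [mu_succ]
    have hle : (tailSet U).card ≤ n := by
      have := Finset.card_le_univ (tailSet U)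
      simpa using this
    set a : ℝ := ((slice K true).card : ℝ) with ha
    set b : ℝ := ((slice K false).card : ℝ) with hb
    have ha0 : 0 ≤ a := Nat.cast_nonneg _
    have hb0 : 0 ≤ b := Nat.cast_nonneg _
    have hK : (K.card : ℝ) = a + b := by rw [card_slice K]; push_cast; rfl
    have iha := ih (tailSet U) (slice K true)
    have ihb := ih (tailSet U) (slice K false)
    rw [← ha] at iha
    rw [← hb] at ihb
    set C : ℝ := q ^ (tailSet U).card * (1 - q) ^ (n - (tailSet U).card) with hC
    have hC0 : 0 ≤ C := by positivity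
    rw [hK]
    split_ifs with h0
    · have hcard : U.card = (tailSet U).card + 1 := by rw [card_tailSet U, if_pos h0]
      rw [hcard]
      have e1 : n + 1 - ((tailSet U).card + 1) = n - (tailSet U).card := by omega
      rw [e1]
      have hsub : (a + b) ^ θ ≤ a ^ θ + b ^ θ := by
        rcases le_total b a with h | h
        · have h3 := two_point hθ0 hθ1 hb0 h
          have : (2 : ℝ) ^ θ - 1 ≤ 1 := by
            have h5 : (2 : ℝ) ^ θ ≤ 2 ^ (1 : ℝ) := Real.rpow_le_rpow_of_exponent_le (by norm_num) hθ1
            rw [Real.rpow_one] at h5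
            linarith
          have h6 : 0 ≤ b ^ θ := Real.rpow_nonneg hb0 _
          nlinarith
        · have h3 := two_point hθ0 hθ1 ha0 h
          rw [add_comm b a] at h3
          have : (2 : ℝ) ^ θ - 1 ≤ 1 := by
            have h5 : (2 : ℝ) ^ θ ≤ 2 ^ (1 : ℝ) := Real.rpow_le_rpow_of_exponent_le (by norm_num) hθ1
            rw [Real.rpow_one] at h5
            linarith
          have h6 : 0 ≤ a ^ θ := Real.rpow_nonneg ha0 _
          nlinarith
      calc q ^ ((tailSet U).card + 1) * (1 - q) ^ (n - (tailSet U).card) * (a + b) ^ θ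
          = q * (C * (a + b) ^ θ) := by rw [hC, pow_succ]; ring
        _ ≤ q * (C * (a ^ θ + b ^ θ)) := by gcongr
        _ = q * (C * a ^ θ) + q * (C * b ^ θ) := by ring
        _ ≤ _ := by gcongr
    · have hcard : U.card = (tailSet U).card := by rw [card_tailSet U, if_neg h0, add_zero]
      rw [hcard]
      have e1 : n + 1 - (tailSet U).card = (n - (tailSet U).card) + 1 := by omega
      rw [e1]
      have m1 : mu q (tailSet U) (slice K true) ≤ mu q (tailSet U) (slice K true ∪ slice K false) :=
        mu_mono hq0 hq _ Finset.subset_union_left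
      have m2 : mu q (tailSet U) (slice K false) ≤ mu q (tailSet U) (slice K true ∪ slice K false) :=
        mu_mono hq0 hq _ Finset.subset_union_right
      have hfac : ∀ {u v : ℝ}, 0 ≤ v → v ≤ u →
          (1 - q) * (u + v) ^ θ ≤ (1 - q) * u ^ θ + q * v ^ θ := by
        intro u v hv huv
        have h3 := two_point hθ0 hθ1 hv huv
        rw [h2θ] at h3
        have := mul_le_mul_of_nonneg_left h3 hq1.le
        have e : (1 - q) * (u ^ θ + q / (1 - q) * v ^ θ) = (1 - q) * u ^ θ + q * v ^ θ := by
          field_simp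
        linarith
      have hgoal : q ^ (tailSet U).card * (1 - q) ^ (n - (tailSet U).card + 1) * (a + b) ^ θ =
          C * ((1 - q) * (a + b) ^ θ) := by rw [hC, pow_succ]; ring
      rw [hgoal]
      have h12 : 0 ≤ 1 - 2 * q := by linarith
      rcases le_total b a with h | h
      · have h3 := mul_le_mul_of_nonneg_left (hfac hb0 h) hC0
        have t1 := mul_le_mul_of_nonneg_left m1 h12
        have t2 := mul_le_mul_of_nonneg_left iha hq1.le
        have t3 := mul_le_mul_of_nonneg_left ihb hq0.le
        nlinarith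
      · have h3 := mul_le_mul_of_nonneg_left (hfac ha0 h) hC0
        rw [add_comm b a] at h3
        have t1 := mul_le_mul_of_nonneg_left m2 h12
        have t2 := mul_le_mul_of_nonneg_left ihb hq1.le
        have t3 := mul_le_mul_of_nonneg_left iha hq0.le
        nlinarith

end Pool.Agent.Lib_helper20.SRO
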