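import Mathlib

/-!
# Nondeterministic branching programs and the hard function

The definitions used in the statement of the lower bound.
-/

namespace Pool.Agent.Lib_helper20.SRO

open Finset

/-- A nondeterministic branching program with the set `N` of nodes over the Boolean variables `V`:
between two nodes there may be an unlabelled edge (`none`) and edges labelled with a test `x = c`
(`some (x, c)`). -/
structure NBP (V N : Type) where
  source : N
  sink : N
  edge : N → N → Option (V × Bool) → Prop

/-- `Walk G u v l`: there is a walk from `u` to `v` whose tests are, in order, the list `l`. -/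
inductive Walk {V N : Type} (G : NBP V N) : N → N → List (V × Bool) → Prop
  | nil (u : N) : Walk G u u []
  | free {u v w : N} {l : List (V × Bool)} : G.edge u v none → Walk G v w l → Walk G u w l
  | test {u v w : N} {l : List (V × Bool)} (x : V) (c : Bool) :
      G.edge u v (some (x, c)) → Walk G v w l → Walk G u w ((x, c) :: l)

/-- The assignment `b` passes all tests of the list. -/
def Agrees {V : Type} (b : V → Bool) (l : List (V × Bool)) : Prop := ∀ p ∈ l, b p.1 = p.2

/-- `b` is accepted if some walk from source to sink has only tests that `b` passes. -/
def NBP.Accepts {V N : Type} (G : NBP V N) (b : V → Bool) : Prop :=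
  ∃ l, Walk G G.source G.sink l ∧ Agrees b l

def NBP.Computes {V N : Type} (G : NBP V N) (f : (V → Bool) → Bool) : Prop :=
  ∀ b, G.Accepts b ↔ f b = true

/-- Syntactic read-once: on every source-sink walk every variable is tested at most once. -/
def NBP.SyntacticReadOnce {V N : Type} (G : NBP V N) : Prop :=
  ∀ l, Walk G G.source G.sink l → (l.map Prod.fst).Nodup

/-- Every accepted input has an accepting walk on which at most `r` variables are tested more than
once. (All other walks are arbitrary. Semantic read-once programs, in which no variable is tested
twice on a walk whose tests are all passed by some input, have this property with `r = 0`.) -/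
def NBP.FewRereads {V N : Type} [Fintype V] [DecidableEq V] (G : NBP V N) (r : ℕ) : Prop :=
  ∀ b, G.Accepts b → ∃ l, Walk G G.source G.sink l ∧ Agrees b l ∧
    (univ.filter (fun x => 2 ≤ (l.map Prod.fst).count x)).card ≤ r

/-- Every accepted input has an accepting walk with at most `r` tests more than there are
variables. -/
def NBP.Short {V N : Type} [Fintype V] (G : NBP V N) (r : ℕ) : Prop :=
  ∀ b, G.Accepts b → ∃ l, Walk G G.source G.sink l ∧ Agrees b l ∧
    l.length ≤ Fintype.card V + r

/-- The parity of the number of ones. -/
def evenWeight {n : ℕ} (b : Fin n → Bool) : Bool :=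
  decide ((univ.filter (fun x => b x = true)).card % 2 = 0)

/-- inner product modulo 2 -/
def dot {n : ℕ} (a b : Fin n → Bool) : ZMod 2 := ∑ i, if a i && b i then 1 else 0

/-- The quadratic form with coefficients `C`: a sum of `k` products of two linear forms. -/
def quad {n k : ℕ} (C : Fin k → Bool → Fin n → Bool) (b : Fin n → Bool) : ZMod 2 :=
  ∑ l, dot (C l false) b * dot (C l true) b

/-- The inputs of even weight at which `T` quadratic forms take prescribed values. -/
def QF {n k T : ℕ} (C : Fin T → Fin k → Bool → Fin n → Bool) (e : Fin T → Bool)
    (b : Fin n → Bool) : Bool :=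
  evenWeight b && decide (∀ t, quad (C t) b = if e t then 1 else 0)

/-- the number of products in each form -/
def kk (n : ℕ) : ℕ := Nat.log 2 n

/-- the number of forms -/
def tt (n : ℕ) : ℕ := n / kk n + 1

/-- The input variables: coefficients of the forms, prescribed values, the point. -/
abbrev Var2 (n : ℕ) : Type := ((Fin (tt n) × Fin (kk n) × Bool × Fin n) ⊕ Fin (tt n)) ⊕ Fin n

/-- The hard function: `QF`, with the coefficients and the prescribed values as inputs. -/
def hardF2 (n : ℕ) (v : Var2 n → Bool) : Bool :=
  QF (fun t l s i => v (Sum.inl (Sum.inl (t, l, s, i)))) (fun t => v (Sum.inl (Sum.inr t)))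
    (fun i => v (Sum.inr i))

end Pool.Agent.Lib_helper20.SRO
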